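import Pool.Agent.H59.Fib.K.Tab3

set_option maxRecDepth 100000

namespace Pool.Agent.H59.Fib.K

theorem b3_0_0 : AllOk 16 av3 tab3 16 3 0 11 :=
  chkF_spec (L := [0x10020000002001000000028,
    0x30810c300100080010300000000000418000000000020c00000003081004001000435,
    0x70c61441450c02100500000061028200002002000000040608000000000000031028200010006000000c40a0800008008000000101820000000007185103086180440077185103081008011000a4e,
    0x1c3103143008401b840c30e00022008001018200000000000c18200000000000c18200000000000c18200000001c40c0106011000c07103004011000e3c,
    0x1c61430811870110010000001820a00004002000001410a00004002000001010a00004002000030810e00010008000000020600000000000000010600000000000000010600000001c51830851430102014000050828200020007c61430451430110014000060428200022007c6143081183011001248,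
    0xe30a20482080008801000000603041000000000000008060820000000183944902c1040022001c0730a2048208000880100000060304100000000000000806082000000004f,
    0xe3072880c61e00132010000001840504000080040000a2030e08000c8020000000100c10000000000000070c28200020006000000e1850400008004000001430a0800010008000000060c10000000000000000c182000000004f,
    0x38730a2051438004580500001840504100002001000000806082000000000000390141040022002c000072028208000880180000e40504100002001000000806082000000004f,
    0x38a1838000d00200001a48a1c000680100000c2040e00034009651218408d000c80080000000281800000000000000120c00000000000000080600000000e30a18408d0008800800000001818000000000000000a0c000000000000000406000000000000000183000000000000000081800000000000000020c00000000000000010600000000001a48a1c1000c200db24a0c21608006080500000048304000000000038a183820019401b65121822c1000c800a000000a0608000000000059448704000200100e286084820003400406922822410001a00203091411208000d00101a31210904003400300e14a04482001a201849,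
    0xe18a0c58004580680068a4862c0020c034003081430e0003400800000100c10000000000071850e0800040020000003030400000000000001418200000000000000a0c10000000000000050608000000068c48420d040026001b85281106820013200c49,
    0xe1880e08004580680001a48a1c10001a0040000308143820003400800000004830400000000000000080608000000000e30a1822c10008800a000000018182000000000000000283040000000000000005060800000000000000020c1000000000000000041820000000006923062c01c003080340000906082080000000000712302241000d100693850c116082001a200e4f])
    (by decide +kernel) (by decide +kernel)

theorem b3_0_1 : AllOk 16 av3 tab3 16 3 11 16 :=
  chkF_spec (L := [0x38720314380045806e103861c10001a00400080608200000000000e0c10400000000001c182080000000000383041000000000007060820000000043,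
    0xe18c2881458004580500000069010b0008300a00003081430e0003400800000004030400000000000001c50a08000880180000030a141000110030000000141820000000000000002830400000000000000050608000000000000069014100010003e30a2071461a001a201c4f,
    0x3860a08004580781a61228c08c3c003400200000000c182820000600200000004821410000300100000002010a08000180080000000e0850400220028000000001818200000000000000a3021c1000100040000000006060800000000000000000830400000000000000000418200000001a49c38c28b007000c200a00002460a08208000c00180000001c305040006400c000003810a082001a201655,
    0x38c283820002200800180c100000000000a060800000000004030400000001c50c38200022008e2861c1000110040005060800000000001830400000000000c182000000003d,
    0xe0608000000001a60a1c1000180040000301820000000004900870400060010000080608000000000000e0c100000000000018182000000000000283040000000000005060800000000000020c10000000000000418200000001a60e309040006000a481c61208000c00100000070300000000000000e060000000043])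
    (by decide +kernel) (by decide +kernel)

theorem blk3_0 : AllOk 16 av3 tab3 16 3 0 16 :=
  (b3_0_0.trans b3_0_1)

end Pool.Agent.H59.Fib.K
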