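import Pool.Agent.H59.Fib.K.Step

/-!
# A checker for closed families of states
-/

namespace Pool.Agent.H59.Fib.K

/-- Name an intermediate value. -/
def force {α : Type} (n : ℕ) (f : ℕ → α) : α := f n

theorem force_eq {α : Type} (n : ℕ) (f : ℕ → α) : force n f = f n := rfl

theorem beqT {a b : ℕ} : Nat.beq a b = true ↔ a = b :=
  ⟨Nat.eq_of_beq_eq_true, fun h => by rw [h]; exact Nat.beq_refl b⟩

theorem beqF {a b : ℕ} : Nat.beq a b = false ↔ a ≠ b := by
  rw [← Bool.not_eq_true, beqT]

theorem bleT {a b : ℕ} : Nat.ble a b = true ↔ a ≤ b := by rw [Nat.ble_eq]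

noncomputable def allN (n : ℕ) (p : ℕ → Bool) : Bool :=
  Nat.rec true (fun i ih => and (p i) ih) n

theorem allN_spec {n : ℕ} {p : ℕ → Bool} (h : allN n p = true) : ∀ i < n, p i = true := by
  induction n with
  | zero => intro i hi; omega
  | succ n ih =>
    change and (p n) (allN n p) = true at h
    rw [Bool.and_eq_true] at h
    intro i hi
    rcases Nat.lt_succ_iff_lt_or_eq.1 hi with h1 | h1
    · exact ih h.2 i h1
    · rw [h1]; exact h.1

def bt (m i : ℕ) : Bool := Nat.beq (Nat.land (Nat.shiftRight m i) 1) 1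

theorem bt_eq (m i : ℕ) : bt m i = m.testBit i := by
  unfold bt Nat.testBit
  have h1 : Nat.land (Nat.shiftRight m i) 1 = 1 &&& (m >>> i) := by
    rw [Nat.and_comm]; rfl
  rw [h1]
  have h2 : 1 &&& (m >>> i) < 2 := by
    have : 1 &&& (m >>> i) ≤ 1 := Nat.and_le_left
    omega
  rcases Nat.lt_succ_iff_lt_or_eq.1 h2 with h3 | h3
  · have h4 : 1 &&& (m >>> i) = 0 := by omega
    rw [h4]; rfl
  · rw [h3]; rfl

/-- The number of elements of a state. -/
def wk (w : ℕ) : ℕ := Nat.land w 7
def row (w i : ℕ) : ℕ := Nat.land (Nat.shiftRight w (Nat.add 3 (Nat.mul 5 i))) 31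
def crow (w i : ℕ) : ℕ := Nat.land (Nat.shiftRight w (Nat.add 28 (Nat.mul 5 i))) 31
def wlt (w a b : ℕ) : Bool := bt (row w a) b
def wE (w m : ℕ) : Bool := bt w (Nat.add 53 m)
def wp (w G : ℕ) : ℕ := Nat.land (Nat.shiftRight w (Nat.add 85 (Nat.mul 7 G))) 127

/-- The word of the state `j` in the table `T`. -/
def word (T j : ℕ) : ℕ := Nat.land (Nat.shiftRight T (Nat.mul 320 j))
  (Nat.sub (Nat.pow 2 320) 1)

/-- The family of states of a table. -/
def sys (T N : ℕ) : Sys where
  N := N
  k j := wk (word T j)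
  lt j a b := wlt (word T j) a b
  E j m := wE (word T j) m
  pr j G := (wp (word T j) G : ℤ) - 64

def lx (k w D s t : ℕ) : Bool :=
  cond (Nat.beq t k) (and (Nat.ble (Nat.succ s) k) (bt D s))
    (cond (Nat.beq s k) false (wlt w s t))

theorem lx_eq (k w D s t : ℕ) : lx k w D s t = ltx k (wlt w) D s t := by
  unfold lx ltx
  by_cases h1 : t = k
  · rw [if_pos h1, beqT.2 h1]
    rw [cond_true, bt_eq]
    congr 1
    by_cases h2 : s < k
    · rw [decide_eq_true h2]
      exact bleT.2 h2
    · rw [decide_eq_false h2]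
      rw [← Bool.not_eq_true, bleT]
      omega
  · rw [if_neg h1, beqF.2 h1, cond_false]
    by_cases h2 : s = k
    · rw [if_pos h2, beqT.2 h2]
      rfl
    · rw [if_neg h2, beqF.2 h2]
      rfl

/-! ### Leaves: one witness -/

/-- The masks (below 64) which avoid `G`. -/
def AV (A G : ℕ) : ℕ := Nat.land (Nat.shiftRight A (Nat.mul 64 G)) 18446744073709551615

noncomputable def leafW (q A c1 w w' k pk RB G' S : ℕ) : Bool :=
  force (Nat.land (Nat.shiftRight c1 (Nat.add 15 (Nat.mul 6 G'))) 63) fun G =>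
    and (Nat.beq (Nat.land S G) S)
    (and (Nat.ble (Nat.succ G) (Nat.mul 2 pk))
    (and (Nat.ble (Nat.add (wp w (Nat.mod G pk)) (cond (bt G k) q 0)) (Nat.add (wp w' G') 8))
      (Nat.beq (Nat.land RB (AV A G)) 0)))

theorem leafW_spec {q A c1 w w' k pk RB G' S : ℕ} (h : leafW q A c1 w w' k pk RB G' S = true) :
    ∃ G < 2 * pk, S &&& G = S ∧
      wp w (G % pk) + (if G.testBit k = true then q else 0) ≤ wp w' G' + 8 ∧
      RB &&& AV A G = 0 ∧ G < 64 := by
  unfold leafW at h
  rw [force_eq] at h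
  rw [Bool.and_eq_true, Bool.and_eq_true, Bool.and_eq_true, beqT, bleT, bleT, beqT] at h
  obtain ⟨h1, h2, h3, h4⟩ := h
  refine ⟨_, h2, h1, ?_, h4, ?_⟩
  · refine le_trans (le_of_eq ?_) h3
    congr 1
    rw [bt_eq]
    cases ((Nat.land (Nat.shiftRight c1 (Nat.add 15 (Nat.mul 6 G'))) 63).testBit k) <;> rfl
  · have : Nat.land (Nat.shiftRight c1 (Nat.add 15 (Nat.mul 6 G'))) 63 ≤ 63 := Nat.and_le_right
    omega

/-- Run through all masks of the new state. -/
noncomputable def leaves (sg : ℕ → ℕ) (leaf : ℕ → ℕ → Bool) (n : ℕ) : ℕ → ℕ → Bool :=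
  Nat.rec (fun g s => leaf g s)
    (fun i ih g s => and (ih g s) (force (Nat.add g (Nat.pow 2 i)) fun g2 =>
      force (Nat.lor s (Nat.pow 2 (sg i))) fun s2 => ih g2 s2)) n

theorem leaves_spec {sg : ℕ → ℕ} {leaf : ℕ → ℕ → Bool} (n : ℕ) :
    ∀ g s : ℕ, leaves sg leaf n g s = true → ∀ h < 2 ^ n, ∃ S, leaf (g + h) S = true ∧
      (∀ i, s.testBit i = true → S.testBit i = true) ∧
      (∀ a < n, h.testBit a = true → S.testBit (sg a) = true) := by
  induction n with
  | zero =>
    intro g s hl h hh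
    have : h = 0 := by simpa using hh
    subst this
    exact ⟨s, hl, fun i hi => hi, fun a ha => by omega⟩
  | succ n ih =>
    intro g s hl h hh
    change and (leaves sg leaf n g s) (force (Nat.add g (Nat.pow 2 n)) fun g2 =>
      force (Nat.lor s (Nat.pow 2 (sg n))) fun s2 => leaves sg leaf n g2 s2) = true at hl
    rw [Bool.and_eq_true, force_eq, force_eq] at hl
    have hpow : 2 ^ (n + 1) = 2 ^ n + 2 ^ n := by rw [pow_succ]; omega
    by_cases hc : h < 2 ^ n
    · obtain ⟨S, h1, h2, h3⟩ := ih g s hl.1 h hc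
      refine ⟨S, h1, h2, fun a ha hb => ?_⟩
      rcases Nat.lt_succ_iff_lt_or_eq.1 ha with h4 | h4
      · exact h3 a h4 hb
      · rw [h4, Nat.testBit_lt_two_pow hc] at hb
        exact absurd hb (by simp)
    · obtain ⟨h0, rfl⟩ := Nat.exists_eq_add_of_le (not_lt.1 hc)
      obtain ⟨S, h1, h2, h3⟩ := ih _ _ hl.2 h0 (by omega)
      refine ⟨S, ?_, ?_, ?_⟩
      · have : g + (2 ^ n + h0) = Nat.add g (Nat.pow 2 n) + h0 := by
          change g + (2 ^ n + h0) = g + 2 ^ n + h0
          omega
        rw [this]; exact h1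
      · intro i hi
        apply h2
        change (s ||| 2 ^ (sg n)).testBit i = true
        rw [Nat.testBit_or, hi]; rfl
      · intro a ha hb
        rcases Nat.lt_succ_iff_lt_or_eq.1 ha with h4 | h4
        · apply h3 a h4
          rw [Nat.testBit_two_pow_add_gt h4] at hb
          exact hb
        · rw [h4]
          apply h2
          change (s ||| 2 ^ (sg n)).testBit (sg n) = true
          rw [Nat.testBit_or, Nat.testBit_two_pow_self, Bool.or_true]

/-! ### Images of masks -/

noncomputable def imN (sg : ℕ → ℕ) (n : ℕ) : ℕ :=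
  Nat.rec 0 (fun a ih => Nat.lor ih (Nat.pow 2 (sg a))) n

theorem imN_spec {sg : ℕ → ℕ} {n : ℕ} (i : ℕ) :
    (imN sg n).testBit i = true ↔ ∃ a < n, sg a = i := by
  induction n with
  | zero =>
    change (0 : ℕ).testBit i = true ↔ _
    simp
  | succ n ih =>
    change ((imN sg n) ||| 2 ^ (sg n)).testBit i = true ↔ _
    rw [Nat.testBit_or, Bool.or_eq_true, ih, Nat.testBit_two_pow]
    constructor
    · rintro (⟨a, ha, h1⟩ | h1)
      · exact ⟨a, by omega, h1⟩
      · exact ⟨n, by omega, by simpa using h1⟩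
    · rintro ⟨a, ha, h1⟩
      rcases Nat.lt_succ_iff_lt_or_eq.1 ha with h2 | h2
      · exact Or.inl ⟨a, h2, h1⟩
      · right; rw [← h2]; simpa using h1

noncomputable def invN (sg : ℕ → ℕ) (m n : ℕ) : ℕ :=
  Nat.rec 0 (fun a ih => Nat.lor ih (cond (bt m (sg a)) (Nat.pow 2 a) 0)) n

theorem invN_spec {sg : ℕ → ℕ} {m n : ℕ} (b : ℕ) :
    (invN sg m n).testBit b = (decide (b < n) && m.testBit (sg b)) := by
  induction n with
  | zero =>
    change (0 : ℕ).testBit b = _
    simp
  | succ n ih =>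
    change ((invN sg m n) ||| (cond (bt m (sg n)) (2 ^ n) 0)).testBit b = _
    rw [Nat.testBit_or, ih, bt_eq]
    rcases lt_trichotomy b n with h | h | h
    · have h1 : (cond (m.testBit (sg n)) (2 ^ n) 0).testBit b = false := by
        cases m.testBit (sg n)
        · simp
        · rw [cond_true, Nat.testBit_two_pow]; simp; omega
      rw [h1, Bool.or_false]
      have h2 : b < n + 1 := by omega
      simp [h, h2]
    · subst h
      have h1 : (cond (m.testBit (sg b)) (2 ^ b) 0).testBit b = m.testBit (sg b) := by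
        cases m.testBit (sg b)
        · simp
        · rw [cond_true, Nat.testBit_two_pow_self]
      rw [h1]
      simp
    · have h1 : (cond (m.testBit (sg n)) (2 ^ n) 0).testBit b = false := by
        cases m.testBit (sg n)
        · simp
        · rw [cond_true, Nat.testBit_two_pow]; simp; omega
      rw [h1, Bool.or_false]
      have h2 : ¬ b < n := by omega
      have h3 : ¬ b < n + 1 := by omega
      simp [h2, h3]

theorem invN_lt {sg : ℕ → ℕ} {m n : ℕ} : invN sg m n < 2 ^ n := by
  apply Nat.lt_pow_two_of_testBit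
  intro i hi
  rw [invN_spec]
  have : ¬ i < n := by omega
  simp [this]

/-- `m` is the image of a waiting antichain of the new state. -/
noncomputable def inSE (sg : ℕ → ℕ) (w' k' Im m : ℕ) : Bool :=
  and (Nat.beq (Nat.land m Im) m) (wE w' (invN sg m k'))

theorem inSE_spec {sg : ℕ → ℕ} {w' k' m : ℕ}
    (h : inSE sg w' k' (imN sg k') m = true) :
    ∃ m' < 2 ^ k', wE w' m' = true ∧
      ∀ i, m.testBit i = true ↔ ∃ a < k', m'.testBit a = true ∧ sg a = i := by
  unfold inSE at h
  rw [Bool.and_eq_true, beqT] at h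
  refine ⟨invN sg m k', invN_lt, h.2, fun i => ?_⟩
  constructor
  · intro hi
    have h1 : (m &&& imN sg k').testBit i = true := by
      change (Nat.land m (imN sg k')).testBit i = true
      rw [h.1]; exact hi
    rw [Nat.testBit_and, Bool.and_eq_true, imN_spec] at h1
    obtain ⟨-, a, ha, h2⟩ := h1
    refine ⟨a, ha, ?_, h2⟩
    rw [invN_spec, h2, hi]
    simp [ha]
  · rintro ⟨a, ha, h1, h2⟩
    rw [invN_spec, Bool.and_eq_true] at h1
    rw [← h2]; exact h1.2

/-- The antichains which must be hit. -/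
noncomputable def rbN (p : ℕ → Bool) (NA : List ℕ) : ℕ :=
  List.rec 0 (fun m _ ih => cond (p m) ih (Nat.lor ih (Nat.pow 2 m))) NA

theorem rbN_spec {p : ℕ → Bool} {NA : List ℕ} {m : ℕ} (hm : m ∈ NA) (hp : p m = false) :
    (rbN p NA).testBit m = true := by
  induction NA with
  | nil => simp at hm
  | cons x l ih =>
    change (cond (p x) (rbN p l) ((rbN p l) ||| 2 ^ x)).testBit m = true
    rcases List.mem_cons.1 hm with h | h
    · subst h
      rw [hp, cond_false, Nat.testBit_or, Nat.testBit_two_pow_self, Bool.or_true]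
    · cases p x
      · rw [cond_false, Nat.testBit_or, ih h, Bool.true_or]
      · rw [cond_true]; exact ih h

end Pool.Agent.H59.Fib.K
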