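import Pool.Agent.H59.Fib.K.Check

/-!
# The checker: steps and states
-/

namespace Pool.Agent.H59.Fib.K

def beqB (a b : Bool) : Bool := cond a b (not b)

theorem beqB_spec {a b : Bool} (h : beqB a b = true) : a = b := by
  cases a <;> cases b <;> simp_all [beqB]

/-- The table of avoiding masks. -/
def AVOK (A : ℕ) : Prop := ∀ G < 64, ∀ m < 64, m &&& G = 0 → (AV A G).testBit m = true

noncomputable def trans2 (q A w k pk D U : ℕ) (NA : List ℕ) (c1 w' k' : ℕ) (sg : ℕ → ℕ) : Bool :=
  and (allN k' fun a => force (sg a) fun s => and (and (Nat.ble s k) (bt U s))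
    (allN k' fun b => force (sg b) fun t =>
      and (or (Nat.beq a b) (not (Nat.beq s t))) (beqB (wlt w' a b) (lx k w D s t))))
  (force (imN sg k') fun Im => force (rbN (inSE sg w' k' Im) NA) fun RB =>
    leaves sg (leafW q A c1 w w' k pk RB) k' 0 (Nat.xor U Im))

noncomputable def trans (q A T N w k pk D U : ℕ) (NA : List ℕ) (c : ℕ) : Bool :=
  force (Nat.land c 4095) fun j' => force (Nat.shiftRight c 12) fun c1 =>
  and (Nat.ble (Nat.succ j') N) (
  force (word T j') fun w' => force (wk w') fun k' =>
  trans2 q A w k pk D U NA c1 w' k' (fun a => Nat.land (Nat.shiftRight c1 (Nat.mul 3 a)) 7))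

theorem trans_spec {q A T N j D U c : ℕ} {NA : List ℕ} (hA : AVOK A)
    (hk5 : wk (word T j) ≤ 5)
    (hNA : ∀ m, NewE (wk (word T j)) (wlt (word T j)) (wE (word T j)) D m → m ∈ NA)
    (h : trans q A T N (word T j) (wk (word T j)) (2 ^ wk (word T j)) D U NA c = true) :
    ∃ j' σ, StepOK q (sys T N) j D U j' σ := by
  unfold trans at h
  rw [force_eq, force_eq, Bool.and_eq_true, force_eq, force_eq] at h
  obtain ⟨hN, h⟩ := h
  set j' := Nat.land c 4095 with hj'
  set c1 := Nat.shiftRight c 12 with hc1
  set sg : ℕ → ℕ := fun a => Nat.land (Nat.shiftRight c1 (Nat.mul 3 a)) 7 with hsg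
  set w := word T j with hw
  set k := wk w with hk
  set w' := word T j' with hw'
  set k' := wk w' with hk'
  unfold trans2 at h
  rw [Bool.and_eq_true, force_eq, force_eq] at h
  obtain ⟨h1, h2⟩ := h
  have h1' := allN_spec h1
  have hmem : ∀ a < k', sg a ≤ k ∧ U.testBit (sg a) = true := by
    intro a ha
    have h3 := h1' a ha
    rw [force_eq, Bool.and_eq_true, Bool.and_eq_true, bleT, bt_eq] at h3
    exact h3.1
  have hpair : ∀ a < k', ∀ b < k', (a = b ∨ sg a ≠ sg b) ∧
      wlt w' a b = lx k w D (sg a) (sg b) := by
    intro a ha b hb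
    have h3 := h1' a ha
    rw [force_eq, Bool.and_eq_true] at h3
    have h4 := allN_spec h3.2 b hb
    rw [force_eq, Bool.and_eq_true] at h4
    refine ⟨?_, beqB_spec h4.2⟩
    have h5 := h4.1
    rw [Bool.or_eq_true, beqT, Bool.not_eq_true', beqF] at h5
    exact h5
  refine ⟨j', sg, ⟨?_, ?_, hmem, ?_, ?_⟩⟩
  · exact bleT.1 hN
  · intro a ha b hb hab
    rcases (hpair a ha b hb).1 with h3 | h3
    · exact h3
    · exact absurd hab h3
  · intro a ha b hb
    rw [show (sys T N).lt j' a b = wlt w' a b from rfl, (hpair a ha b hb).2, lx_eq]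
    rfl
  · intro G' hG'
    obtain ⟨S, hS1, hS2, hS3⟩ := leaves_spec k' 0 _ h2 G' hG'
    rw [Nat.zero_add] at hS1
    obtain ⟨G, hG1, hG2, hG3, hG4, hG5⟩ := leafW_spec hS1
    have hSG : ∀ i, S.testBit i = true → G.testBit i = true := by
      intro i hi
      rw [← hG2, Nat.testBit_and, Bool.and_eq_true] at hi
      exact hi.2
    refine ⟨G, ?_, ?_, ?_, ?_, ?_⟩
    · change G < 2 ^ (k + 1)
      rw [pow_succ]; omega
    · intro a ha hb
      exact hSG _ (hS3 a ha hb)
    · intro i hi hU hno
      apply hSG
      apply hS2
      change (U ^^^ imN sg k').testBit i = true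
      rw [Nat.testBit_xor, hU]
      have : (imN sg k').testBit i = false := by
        rw [← Bool.not_eq_true, imN_spec]
        rintro ⟨a, ha, h3⟩
        exact hno a ha h3
      rw [this]; rfl
    · change ((wp w (G % 2 ^ k) : ℤ) - 64) + (if G.testBit k = true then (q : ℤ) else 0)
        ≤ ((wp w' G' : ℤ) - 64) + 8
      have h3 : ((wp w (G % 2 ^ k) + (if G.testBit k = true then q else 0) : ℕ) : ℤ)
        ≤ ((wp w' G' + 8 : ℕ) : ℤ) := by exact_mod_cast hG3
      push_cast at h3
      linarith
    · intro m hm
      change NewE k (wlt w) (wE w) D m at hm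
      have hmNA := hNA m hm
      by_cases hp : inSE sg w' k' (imN sg k') m = true
      · right
        obtain ⟨m', hm', hE, hmm⟩ := inSE_spec hp
        exact ⟨m', hm', hE, hmm⟩
      · left
        have hRB := rbN_spec hmNA (Bool.not_eq_true _ ▸ hp : inSE sg w' k' (imN sg k') m = false)
        have hm64 : m < 64 := by
          have h3 : m < 2 ^ (k + 1) := by
            rcases hm with ⟨h3, -⟩ | ⟨h3, -⟩
            · exact lt_of_lt_of_le h3 (Nat.pow_le_pow_right (by norm_num) (by omega))
            · exact h3
          have h4 : 2 ^ (k + 1) ≤ 2 ^ 6 := Nat.pow_le_pow_right (by norm_num) (by omega)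
          omega
        have hne : m &&& G ≠ 0 := by
          intro h3
          have h4 := hA G hG5 m hm64 h3
          have h5 : (rbN (inSE sg w' k' (imN sg k')) NA &&& AV A G).testBit m = true := by
            rw [Nat.testBit_and, hRB, h4]; rfl
          rw [hG4, Nat.zero_testBit] at h5
          exact absurd h5 (by simp)
        obtain ⟨i, hi⟩ := Nat.exists_testBit_of_ne_zero hne
        rw [Nat.testBit_and, Bool.and_eq_true] at hi
        exact ⟨i, hi.1, hi.2⟩

/-! ### The masks `U` -/

noncomputable def bindO {α β : Type} (o : Option α) (f : α → Option β) : Option β :=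
  Option.rec none f o

theorem bindO_spec {α β : Type} {o : Option α} {f : α → Option β} {b : β}
    (h : bindO o f = some b) : ∃ a, o = some a ∧ f a = some b := by
  cases o with
  | none => exact absurd h (by simp [bindO])
  | some a => exact ⟨a, rfl, h⟩

noncomputable def goU {γ : Type} (w D : ℕ) (leaf : ℕ → γ → Option γ) (n : ℕ) :
    ℕ → γ → Option γ :=
  Nat.rec (fun U l => leaf U l) (fun i ih U l =>
    bindO (cond (bt D i) (some l) (ih U l)) fun l1 =>
      force (row w i) fun r => cond (Nat.beq (Nat.land r U) r)
        (force (Nat.lor U (Nat.pow 2 i)) fun U2 => ih U2 l1) (some l1)) n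

theorem goU_spec {γ : Type} {w k D : ℕ} {leaf : ℕ → γ → Option γ}
    (hrow : ∀ a < k, ∀ b, (row w a).testBit b = true → a < b ∧ b < k) (n : ℕ) :
    n ≤ k → ∀ U0 l l', goU w D leaf n U0 l = some l' → ∀ U,
      (∀ i, n ≤ i → U.testBit i = U0.testBit i) → (∀ i < n, U0.testBit i = false) →
      (∀ a < k, D.testBit a = true → U.testBit a = true) →
      (∀ a < k, ∀ b < k, wlt w a b = true → U.testBit a = true → U.testBit b = true) →
      ∃ l1 l2, leaf U l1 = some l2 := by
  induction n with
  | zero =>
    intro _ U0 l l' h U h1 _ _ _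
    have : U = U0 := Nat.eq_of_testBit_eq fun i => h1 i (Nat.zero_le i)
    subst this
    exact ⟨l, l', h⟩
  | succ n ih =>
    intro hn U0 l l' h U h1 h2 h3 h4
    change bindO (cond (bt D n) (some l) (goU w D leaf n U0 l)) (fun l1 =>
      force (row w n) fun r => cond (Nat.beq (Nat.land r U0) r)
        (force (Nat.lor U0 (Nat.pow 2 n)) fun U2 => goU w D leaf n U2 l1) (some l1)) = some l' at h
    obtain ⟨l1, hl1, hl2⟩ := bindO_spec h
    by_cases hU : U.testBit n = true
    · rw [force_eq, force_eq] at hl2
      have hsub : Nat.beq (Nat.land (row w n) U0) (row w n) = true := by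
        rw [beqT]
        apply Nat.eq_of_testBit_eq
        intro b
        change ((row w n) &&& U0).testBit b = _
        rw [Nat.testBit_and]
        by_cases hb : (row w n).testBit b = true
        · obtain ⟨h5, h6⟩ := hrow n (by omega) b hb
          have h7 : wlt w n b = true := by unfold wlt; rw [bt_eq]; exact hb
          have h8 := h4 n (by omega) b h6 h7 hU
          rw [h1 b (by omega)] at h8
          rw [hb, h8]; rfl
        · have hb' : (row w n).testBit b = false := by simpa using hb
          rw [hb']; rfl
      rw [hsub, cond_true] at hl2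
      refine ih (by omega) _ _ _ hl2 U ?_ ?_ h3 h4
      · intro i hi
        change _ = (U0 ||| 2 ^ n).testBit i
        rw [Nat.testBit_or, Nat.testBit_two_pow]
        rcases Nat.lt_or_eq_of_le hi with h5 | h5
        · rw [h1 i h5]
          have : ¬ n = i := by omega
          simp [this]
        · rw [← h5, hU]; simp
      · intro i hi
        change (U0 ||| 2 ^ n).testBit i = false
        rw [Nat.testBit_or, Nat.testBit_two_pow, h2 i (by omega)]
        have : ¬ n = i := by omega
        simp [this]
    · have hU' : U.testBit n = false := by simpa using hU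
      have hD : bt D n = false := by
        rw [bt_eq, ← Bool.not_eq_true]
        intro h5
        exact hU (h3 n (by omega) h5)
      rw [hD, cond_false] at hl1
      refine ih (by omega) _ _ _ hl1 U ?_ ?_ h3 h4
      · intro i hi
        rcases Nat.lt_or_eq_of_le hi with h5 | h5
        · exact h1 i h5
        · rw [← h5, hU', h2 n (by omega)]
      · intro i hi
        exact h2 i (by omega)

noncomputable def leafU (q A T N K w k pk D : ℕ) (NA : List ℕ) (U : ℕ) (l : List ℕ) :
    Option (List ℕ) :=
  cond (and (Nat.beq k K) (Nat.beq (Nat.succ U) (Nat.mul 2 pk))) (some l)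
   (List.rec none (fun c l' _ => cond (trans q A T N w k pk D U NA c) (some l') none) l)

theorem leafU_spec {q A T N K w k D U : ℕ} {NA l l' : List ℕ}
    (h : leafU q A T N K w k (2 ^ k) D NA U l = some l')
    (hcard : ((Finset.range (k + 1)).filter (fun i => U.testBit i = true)).card ≤ K) :
    ∃ c, trans q A T N w k (2 ^ k) D U NA c = true := by
  unfold leafU at h
  by_cases hc : and (Nat.beq k K) (Nat.beq (Nat.succ U) (Nat.mul 2 (2 ^ k))) = true
  · exfalso
    rw [Bool.and_eq_true, beqT, beqT] at hc
    obtain ⟨h1, h2⟩ := hc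
    have h3 : U = 2 ^ (k + 1) - 1 := by
      have : U + 1 = 2 * 2 ^ k := h2
      rw [pow_succ]; omega
    have h4 : (Finset.range (k + 1)).filter (fun i => U.testBit i = true)
        = Finset.range (k + 1) := by
      apply Finset.filter_true_of_mem
      intro i hi
      rw [h3, Nat.testBit_two_pow_sub_one]
      simpa using Finset.mem_range.1 hi
    rw [h4, Finset.card_range] at hcard
    omega
  · have hc' : and (Nat.beq k K) (Nat.beq (Nat.succ U) (Nat.mul 2 (2 ^ k))) = false := by
      rw [← Bool.not_eq_true]; exact hc
    rw [hc', cond_false] at h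
    cases l with
    | nil => exact absurd h (by simp)
    | cons c l2 =>
      refine ⟨c, ?_⟩
      by_contra hcon
      have h5 : trans q A T N w k (2 ^ k) D U NA c = false := by simpa using hcon
      change cond (trans q A T N w k (2 ^ k) D U NA c) (some l2) none = some l' at h
      rw [h5] at h
      exact absurd h (by simp)

/-! ### New waiting antichains -/

noncomputable def isNew (w k pk D m : ℕ) : Bool :=
  cond (Nat.ble pk m)
    (force (Nat.sub m pk) fun c => and (not (Nat.beq c 0)) (and (Nat.beq (Nat.land c D) 0)
      (allN k fun i => or (bt D i) (cond (bt c i) (Nat.beq (Nat.land (crow w i) c) 0)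
        (not (Nat.beq (Nat.land (crow w i) c) 0))))))
    (and (wE w m) (not (Nat.beq (Nat.land m D) 0)))

noncomputable def okRows (w k : ℕ) : Bool :=
  allN k fun i => and (force (row w i) fun r =>
    allN 5 fun b => or (not (bt r b)) (and (Nat.ble (Nat.succ i) b) (Nat.ble (Nat.succ b) k)))
    (allN k fun a => beqB (bt (crow w i) a) (or (wlt w i a) (wlt w a i)))

theorem okRows_row {w k : ℕ} (h : okRows w k = true) :
    ∀ a < k, ∀ b, (row w a).testBit b = true → a < b ∧ b < k := by
  intro a ha b hb
  have h1 := allN_spec h a ha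
  rw [Bool.and_eq_true, force_eq] at h1
  have hb5 : b < 5 := by
    by_contra hcon
    have h2 : row w a < 2 ^ 5 := by
      have : row w a ≤ 31 := Nat.and_le_right
      omega
    rw [Nat.testBit_lt_two_pow (lt_of_lt_of_le h2 (Nat.pow_le_pow_right (by norm_num)
      (not_lt.1 hcon)))] at hb
    exact absurd hb (by simp)
  have h2 := allN_spec h1.1 b hb5
  rw [Bool.or_eq_true, Bool.not_eq_true', Bool.and_eq_true, bleT, bleT, bt_eq, hb] at h2
  rcases h2 with h2 | h2
  · exact absurd h2 (by simp)
  · exact ⟨h2.1, h2.2⟩

theorem okRows_crow {w k : ℕ} (h : okRows w k = true) :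
    ∀ i < k, ∀ a < k, ((crow w i).testBit a = true ↔ wlt w i a = true ∨ wlt w a i = true) := by
  intro i hi a ha
  have h1 := allN_spec h i hi
  rw [Bool.and_eq_true] at h1
  have h2 := beqB_spec (allN_spec h1.2 a ha)
  rw [← bt_eq, h2, Bool.or_eq_true]

theorem isNew_spec {w k D m : ℕ} (hok : okRows w k = true)
    (h : NewE k (wlt w) (wE w) D m) : isNew w k (2 ^ k) D m = true := by
  unfold isNew
  rcases h with ⟨hm, hE, i, hi, h1, h2⟩ | ⟨hm, hk, ⟨i0, hi0, hm0⟩, hD, hanti, hmax⟩
  · have h3 : Nat.ble (2 ^ k) m = false := by
      rw [← Bool.not_eq_true, bleT]; omega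
    rw [h3, cond_false, Bool.and_eq_true, Bool.not_eq_true', beqF]
    refine ⟨hE, fun h4 => ?_⟩
    have h5 : (m &&& D).testBit i = true := by rw [Nat.testBit_and, h1, h2]; rfl
    change m &&& D = 0 at h4
    rw [h4, Nat.zero_testBit] at h5
    exact absurd h5 (by simp)
  · have hge : 2 ^ k ≤ m := Nat.ge_two_pow_of_testBit hk
    have h3 : Nat.ble (2 ^ k) m = true := bleT.2 hge
    rw [h3, cond_true, force_eq]
    obtain ⟨c, rfl⟩ := Nat.exists_eq_add_of_le hge
    have hc : Nat.sub (2 ^ k + c) (2 ^ k) = c := by
      change 2 ^ k + c - 2 ^ k = c; omega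
    rw [hc]
    have hclt : c < 2 ^ k := by rw [pow_succ] at hm; omega
    have hbit : ∀ i < k, (2 ^ k + c).testBit i = c.testBit i := by
      intro i hi
      rw [Nat.testBit_two_pow_add_gt hi]
    have hclt' : ∀ i, c.testBit i = true → i < k := by
      intro i hi
      by_contra hcon
      rw [Nat.testBit_lt_two_pow (lt_of_lt_of_le hclt (Nat.pow_le_pow_right (by norm_num)
        (not_lt.1 hcon)))] at hi
      exact absurd hi (by simp)
    rw [Bool.and_eq_true, Bool.and_eq_true, Bool.not_eq_true', beqF, beqT]
    refine ⟨?_, ?_, ?_⟩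
    · rintro rfl
      rw [hbit i0 hi0, Nat.zero_testBit] at hm0
      exact absurd hm0 (by simp)
    · apply Nat.eq_of_testBit_eq
      intro i
      change (c &&& D).testBit i = _
      rw [Nat.testBit_and, Nat.zero_testBit]
      by_cases h4 : c.testBit i = true
      · have h5 := hclt' i h4
        rw [hD i h5 (by rw [hbit i h5]; exact h4), Bool.and_false]
      · have h5 : c.testBit i = false := by simpa using h4
        rw [h5, Bool.false_and]
    · have key : ∀ n ≤ k, allN n (fun i => or (bt D i) (cond (bt c i)
          (Nat.beq (Nat.land (crow w i) c) 0)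
          (not (Nat.beq (Nat.land (crow w i) c) 0)))) = true := by
        intro n
        induction n with
        | zero => intro _; rfl
        | succ n ih =>
          intro hn
          have hn' : n < k := by omega
          refine (Bool.and_eq_true _ _).mpr ⟨?_, ih (by omega)⟩
          rw [Bool.or_eq_true, bt_eq, bt_eq]
          by_cases h4 : D.testBit n = true
          · exact Or.inl h4
          · right
            have h4' : D.testBit n = false := by simpa using h4
            by_cases h5 : c.testBit n = true
            · rw [h5, cond_true, beqT]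
              apply Nat.eq_of_testBit_eq
              intro a
              change ((crow w n) &&& c).testBit a = _
              rw [Nat.testBit_and, Nat.zero_testBit]
              by_cases h6 : c.testBit a = true
              · have h7 := hclt' a h6
                have h8 : ¬ (crow w n).testBit a = true := by
                  rw [okRows_crow hok n hn' a h7]
                  rintro (h8 | h8)
                  · rw [hanti n hn' a h7 (by rw [hbit n hn']; exact h5)
                      (by rw [hbit a h7]; exact h6)] at h8
                    exact absurd h8 (by simp)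
                  · rw [hanti a h7 n hn' (by rw [hbit a h7]; exact h6)
                      (by rw [hbit n hn']; exact h5)] at h8
                    exact absurd h8 (by simp)
                have h9 : (crow w n).testBit a = false := by simpa using h8
                rw [h9, Bool.false_and]
              · have h7 : c.testBit a = false := by simpa using h6
                rw [h7, Bool.and_false]
            · have h5' : c.testBit n = false := by simpa using h5
              rw [h5', cond_false, Bool.not_eq_true', beqF]
              obtain ⟨a, ha, h6, h7⟩ := hmax n hn' h4' (by rw [hbit n hn']; exact h5')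
              intro h8
              have h9 : ((crow w n) &&& c).testBit a = true := by
                rw [Nat.testBit_and, Bool.and_eq_true, okRows_crow hok n hn' a ha]
                refine ⟨h7.symm, ?_⟩
                rw [← hbit a ha]; exact h6
              change (crow w n) &&& c = 0 at h8
              rw [h8, Nat.zero_testBit] at h9
              exact absurd h9 (by simp)
      exact key k le_rfl

noncomputable def buildNA {β : Type} (p : ℕ → Bool) (f : List ℕ → β) (n : ℕ) : List ℕ → β :=
  Nat.rec (fun acc => f acc)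
    (fun i ih acc => cond (p (Nat.succ i)) (ih (List.cons (Nat.succ i) acc)) (ih acc)) n

theorem buildNA_spec {β : Type} {p : ℕ → Bool} {f : List ℕ → β} (n : ℕ) :
    ∀ acc, ∃ L, buildNA p f n acc = f L ∧ (∀ m ∈ acc, m ∈ L) ∧
      ∀ m, 1 ≤ m → m ≤ n → p m = true → m ∈ L := by
  induction n with
  | zero => intro acc; exact ⟨acc, rfl, fun m hm => hm, fun m h1 h2 => by omega⟩
  | succ n ih =>
    intro acc
    change ∃ L, cond (p (n + 1)) (buildNA p f n ((n + 1) :: acc)) (buildNA p f n acc) = f L ∧ _
    cases hp : p (n + 1) with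
    | true =>
      obtain ⟨L, h1, h2, h3⟩ := ih ((n + 1) :: acc)
      refine ⟨L, by rw [cond_true]; exact h1, fun m hm => h2 m (List.mem_cons_of_mem _ hm), ?_⟩
      intro m hm1 hm2 hm3
      rcases Nat.lt_or_eq_of_le hm2 with h4 | h4
      · exact h3 m hm1 (by omega) hm3
      · rw [h4]; exact h2 _ List.mem_cons_self
    | false =>
      obtain ⟨L, h1, h2, h3⟩ := ih acc
      refine ⟨L, by rw [cond_false]; exact h1, h2, ?_⟩
      intro m hm1 hm2 hm3
      rcases Nat.lt_or_eq_of_le hm2 with h4 | h4
      · exact h3 m hm1 (by omega) hm3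
      · rw [h4, hp] at hm3; exact absurd hm3 (by simp)

noncomputable def isDown (w k D : ℕ) : Bool :=
  allN k fun a => or (bt D a) (Nat.beq (Nat.land (row w a) D) 0)

theorem allN_of {n : ℕ} {p : ℕ → Bool} (h : ∀ i < n, p i = true) : allN n p = true := by
  induction n with
  | zero => rfl
  | succ n ih =>
    exact (Bool.and_eq_true _ _).mpr ⟨h n (Nat.lt_succ_self n), ih fun i hi => h i (by omega)⟩

theorem isDown_spec {w k D : ℕ} (hok : okRows w k = true)
    (h : ∀ a < k, ∀ b < k, wlt w a b = true → D.testBit b = true → D.testBit a = true) :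
    isDown w k D = true := by
  apply allN_of
  intro a ha
  rw [Bool.or_eq_true, bt_eq, beqT]
  by_cases h1 : D.testBit a = true
  · exact Or.inl h1
  · right
    apply Nat.eq_of_testBit_eq
    intro b
    change ((row w a) &&& D).testBit b = _
    rw [Nat.testBit_and, Nat.zero_testBit]
    by_cases h2 : (row w a).testBit b = true
    · have h3 := okRows_row hok a ha b h2
      have h4 : ¬ D.testBit b = true := by
        intro h4
        exact h1 (h a ha b h3.2 (by unfold wlt; rw [bt_eq]; exact h2) h4)
      have h5 : D.testBit b = false := by simpa using h4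
      rw [h5, Bool.and_false]
    · have h5 : (row w a).testBit b = false := by simpa using h2
      rw [h5, Bool.false_and]

noncomputable def dStep (q A T N K w k pk D : ℕ) (l : List ℕ) : Option (List ℕ) :=
  buildNA (isNew w k pk D) (fun NA =>
    bindO (cond (Nat.beq D 0) (goU w D (leafU q A T N K w k pk D NA) k 0 l) (some l)) fun l1 =>
      goU w D (leafU q A T N K w k pk D NA) k pk l1) (Nat.sub (Nat.mul 2 pk) 1) []

theorem dStep_spec {q A T N K j D U : ℕ} {l l' : List ℕ} (hA : AVOK A)
    (hk5 : wk (word T j) ≤ 5) (hok : okRows (word T j) (wk (word T j)) = true)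
    (h : dStep q A T N K (word T j) (wk (word T j)) (2 ^ wk (word T j)) D l = some l')
    (hU : U < 2 ^ (wk (word T j) + 1))
    (hv : Valid (wk (word T j)) (wlt (word T j)) K D U) :
    ∃ j' σ, StepOK q (sys T N) j D U j' σ := by
  set w := word T j with hw
  set k := wk w with hk
  unfold dStep at h
  obtain ⟨NA, hNA1, -, hNA2⟩ := buildNA_spec (p := isNew w k (2 ^ k) D) (f := fun NA =>
    bindO (cond (Nat.beq D 0) (goU w D (leafU q A T N K w k (2 ^ k) D NA) k 0 l) (some l)) fun l1 =>
      goU w D (leafU q A T N K w k (2 ^ k) D NA) k (2 ^ k) l1) (Nat.sub (Nat.mul 2 (2 ^ k)) 1) []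
  rw [hNA1] at h
  have hNA : ∀ m, NewE k (wlt w) (wE w) D m → m ∈ NA := by
    intro m hm
    apply hNA2 m ?_ ?_ (isNew_spec hok hm)
    · have hne : m ≠ 0 := by
        rintro rfl
        rcases hm with ⟨-, -, i, -, h1, -⟩ | ⟨-, h1, -⟩
        · rw [Nat.zero_testBit] at h1; exact absurd h1 (by simp)
        · rw [Nat.zero_testBit] at h1; exact absurd h1 (by simp)
      omega
    · change m ≤ 2 * 2 ^ k - 1
      have h3 : m < 2 ^ (k + 1) := by
        rcases hm with ⟨h3, -⟩ | ⟨h3, -⟩
        · exact lt_of_lt_of_le h3 (Nat.pow_le_pow_right (by norm_num) (by omega))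
        · exact h3
      rw [pow_succ] at h3
      omega
  obtain ⟨l1, hl1, hl2⟩ := bindO_spec h
  have hfin : ∃ l1 l2, leafU q A T N K w k (2 ^ k) D NA U l1 = some l2 := by
    have hhigh : ∀ i, k + 1 ≤ i → U.testBit i = false := by
      intro i hi
      exact Nat.testBit_lt_two_pow (lt_of_lt_of_le hU (Nat.pow_le_pow_right (by norm_num) hi))
    by_cases hUk : U.testBit k = true
    · refine goU_spec (okRows_row hok) k le_rfl _ _ _ hl2 U ?_ ?_ hv.stay hv.up
      · intro i hi
        rw [Nat.testBit_two_pow]
        rcases Nat.lt_or_eq_of_le hi with h5 | h5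
        · rw [hhigh i h5]
          have : ¬ k = i := by omega
          simp [this]
        · rw [← h5, hUk]; simp
      · intro i hi
        rw [Nat.testBit_two_pow]
        have : ¬ k = i := by omega
        simp [this]
    · have hUk' : U.testBit k = false := by simpa using hUk
      have hD0 := hv.new hUk'
      rw [beqT.2 hD0, cond_true] at hl1
      refine goU_spec (okRows_row hok) k le_rfl _ _ _ hl1 U ?_ ?_ hv.stay hv.up
      · intro i hi
        rw [Nat.zero_testBit]
        rcases Nat.lt_or_eq_of_le hi with h5 | h5
        · exact hhigh i h5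
        · rw [← h5, hUk']
      · intro i hi
        exact Nat.zero_testBit i
  obtain ⟨l3, l4, h34⟩ := hfin
  obtain ⟨c, hc⟩ := leafU_spec h34 hv.card
  exact trans_spec hA hk5 hNA hc

noncomputable def goD (f : ℕ → List ℕ → Option (List ℕ)) (p : ℕ → Bool) (n : ℕ) :
    List ℕ → Option (List ℕ) :=
  Nat.rec (fun l => some l) (fun D ih l => bindO (cond (p D) (f D l) (some l)) ih) n

theorem goD_spec {f : ℕ → List ℕ → Option (List ℕ)} {p : ℕ → Bool} (n : ℕ) :
    ∀ l l', goD f p n l = some l' → ∀ D < n, p D = true → ∃ l1 l2, f D l1 = some l2 := by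
  induction n with
  | zero => intro l l' _ D hD; omega
  | succ n ih =>
    intro l l' h D hD hp
    change bindO (cond (p n) (f n l) (some l)) (goD f p n) = some l' at h
    obtain ⟨l1, hl1, hl2⟩ := bindO_spec h
    rcases Nat.lt_succ_iff_lt_or_eq.1 hD with h1 | h1
    · exact ih l1 l' hl2 D h1 hp
    · subst h1
      rw [hp, cond_true] at hl1
      exact ⟨l, l1, hl1⟩

noncomputable def isS {γ : Type} (o : Option γ) : Bool := Option.rec false (fun _ => true) o

noncomputable def chkState (q A T N K j : ℕ) (l : List ℕ) : Bool :=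
  force (word T j) fun w => force (wk w) fun k => force (Nat.pow 2 k) fun pk =>
    and (Nat.ble k 5) (and (okRows w k)
      (isS (goD (dStep q A T N K w k pk) (isDown w k) pk l)))

theorem chkState_spec {q A T N K j : ℕ} {l : List ℕ} (hA : AVOK A)
    (h : chkState q A T N K j l = true) :
    ∀ D < 2 ^ ((sys T N).k j), ∀ U < 2 ^ ((sys T N).k j + 1),
      Valid ((sys T N).k j) ((sys T N).lt j) K D U → ∃ j' σ, StepOK q (sys T N) j D U j' σ := by
  intro D hD U hU hv
  change D < 2 ^ (wk (word T j)) at hD
  change U < 2 ^ (wk (word T j) + 1) at hU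
  change Valid (wk (word T j)) (wlt (word T j)) K D U at hv
  unfold chkState at h
  rw [force_eq, force_eq, force_eq, Bool.and_eq_true, Bool.and_eq_true, bleT] at h
  obtain ⟨h1, h2, h3⟩ := h
  have hp : Nat.pow 2 (wk (word T j)) = 2 ^ (wk (word T j)) := rfl
  rw [hp] at h3
  cases hg : goD (dStep q A T N K (word T j) (wk (word T j)) (2 ^ (wk (word T j))))
      (isDown (word T j) (wk (word T j))) (2 ^ (wk (word T j))) l with
  | none => rw [hg] at h3; exact absurd h3 (by simp [isS])
  | some l' =>
    obtain ⟨l1, l2, h4⟩ := goD_spec _ _ _ hg D hD (isDown_spec h2 hv.down)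
    exact dStep_spec hA h1 h2 h4 hU hv

noncomputable def chkBlock (q A T N K : ℕ) (L : List (List ℕ)) : ℕ → Bool :=
  List.rec (fun _ => true) (fun l _ ih j => and (chkState q A T N K j l) (force (Nat.succ j) ih)) L

theorem chkBlock_spec {q A T N K : ℕ} (L : List (List ℕ)) :
    ∀ j0, chkBlock q A T N K L j0 = true → ∀ j, j0 ≤ j → j < j0 + L.length →
      ∃ l, chkState q A T N K j l = true := by
  induction L with
  | nil => intro j0 _ j h1 h2; simp at h2; omega
  | cons l L ih =>
    intro j0 h j h1 h2
    change and (chkState q A T N K j0 l) (force (Nat.succ j0) (chkBlock q A T N K L)) = true at h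
    rw [Bool.and_eq_true, force_eq] at h
    rcases Nat.lt_or_eq_of_le h1 with h3 | h3
    · refine ih (j0 + 1) h.2 j h3 ?_
      rw [List.length_cons] at h2
      omega
    · exact ⟨l, h3 ▸ h.1⟩

end Pool.Agent.H59.Fib.K
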