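import Pool.Agent.H59.Fib.K.Vec

/-!
# A faster checker for closed families of states
-/

namespace Pool.Agent.H59.Fib.K

/-- The word of the state `j` in the table `T`. -/
def word3 (T j : ℕ) : ℕ := Nat.land (Nat.shiftRight T (Nat.mul 352 j))
  (Nat.sub (Nat.pow 2 352) 1)

def prof3 (w : ℕ) : ℕ := Nat.shiftRight w 96

def wp3 (w G : ℕ) : ℕ := fld (prof3 w) G

/-- The family of states of a table. -/
def sys3 (T N : ℕ) : Sys where
  N := N
  k j := wk (word3 T j)
  lt j a b := wlt (word3 T j) a b
  E j m := wE (word3 T j) m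
  pr j G := (wp3 (word3 T j) G : ℤ) - 64

/-- The table of avoiding masks. -/
def AVOK3 (A : ℕ) : Prop := ∀ G < 64, ∀ m < 64, ((AV A G).testBit m = true ↔ m &&& G = 0)

noncomputable def chkAV3 (A : ℕ) : Bool :=
  allN 64 fun G => allN 64 fun m => beqB (Nat.beq (Nat.land m G) 0) (bt (AV A G) m)

theorem AVOK3_of {A : ℕ} (h : chkAV3 A = true) : AVOK3 A := by
  intro G hG m hm
  have h1 := beqB_spec (allN_spec (allN_spec h G hG) m hm)
  rw [← bt_eq, ← h1, beqT]
  rfl

/-- Evaluate the argument before it is used. -/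
noncomputable def frc {α : Type} (n : ℕ) (f : ℕ → α) : α :=
  Nat.rec (f 0) (fun i _ => f (Nat.succ i)) n

theorem frc_eq {α : Type} (n : ℕ) (f : ℕ → α) : frc n f = f n := by cases n <;> rfl

/-! ### The costs of the source state -/

theorem fld_shift_high (X n h : ℕ) : fld (X <<< (8 * n)) (n + h) = fld X h := by
  apply Nat.eq_of_testBit_eq
  intro i
  rw [fld_testBit, fld_testBit, Nat.testBit_shiftLeft]
  have h1 : 8 * n ≤ 8 * (n + h) + i := by omega
  rw [show 8 * (n + h) + i - 8 * n = 8 * h + i by omega]
  simp [h1]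

theorem fld_shift_low {X n h : ℕ} (hh : h < n) : fld (X <<< (8 * n)) h = 0 := by
  apply Nat.eq_of_testBit_eq
  intro i
  rw [fld_testBit, Nat.testBit_shiftLeft, Nat.zero_testBit]
  by_cases hi : i < 8
  · have h1 : ¬ 8 * n ≤ 8 * h + i := by omega
    simp [h1]
  · simp [hi]

theorem fld_lor (A B h : ℕ) : fld (A ||| B) h = fld A h ||| fld B h := by
  apply Nat.eq_of_testBit_eq
  intro i
  rw [Nat.testBit_or, fld_testBit, fld_testBit, fld_testBit, Nat.testBit_or]
  by_cases h : i < 8 <;> simp [h]

theorem fld_mask_low {X n h : ℕ} (hh : h < n) : fld (X &&& (2 ^ (8 * n) - 1)) h = fld X h := by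
  apply Nat.eq_of_testBit_eq
  intro i
  rw [fld_testBit, fld_testBit, Nat.testBit_and, Nat.testBit_two_pow_sub_one]
  by_cases hi : i < 8
  · have h1 : 8 * h + i < 8 * n := by omega
    simp [h1]
  · simp [hi]

theorem fld_mask_high (X n h : ℕ) : fld (X &&& (2 ^ (8 * n) - 1)) (n + h) = 0 := by
  apply Nat.eq_of_testBit_eq
  intro i
  rw [fld_testBit, Nat.testBit_and, Nat.testBit_two_pow_sub_one, Nat.zero_testBit]
  have h1 : ¬ 8 * (n + h) + i < 8 * n := by omega
  simp [h1]

theorem high_zero {X N3 : ℕ} (h : Nat.land X (Nat.mul 128 (O N3)) = 0) :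
    ∀ i < N3, fld X i < 128 := by
  intro i hi
  have h1 : fld (X &&& 128 * O N3) i = 0 := by
    change fld (Nat.land X (Nat.mul 128 (O N3))) i = 0
    rw [h, fld_zero_left]
  rw [fld_land, fld_mulO (by norm_num) hi] at h1
  by_contra hcon
  have h2 : (fld X i).testBit 7 = true := by
    rw [testBit_seven (fld_lt _ _)]
    simpa using hcon
  have h3 : (fld X i &&& 128).testBit 7 = true := by
    rw [Nat.testBit_and, h2]; decide
  rw [h1, Nat.zero_testBit] at h3
  exact absurd h3 (by simp)

/-- The profile of a state with `p` masks. -/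
def low3 (w p : ℕ) : ℕ := Nat.land (prof3 w) (Nat.sub (Nat.pow 2 (Nat.mul 8 p)) 1)

theorem low3_fld {w p h : ℕ} (hh : h < p) : fld (low3 w p) h = wp3 w h :=
  fld_mask_low hh

/-- The vector of the costs of all masks after adding an element. -/
def pvw (q w pk : ℕ) : ℕ :=
  Nat.lor (low3 w pk) (Nat.shiftLeft (Nat.add (low3 w pk) (Nat.mul q (O pk))) (Nat.mul 8 pk))

theorem pvw_spec {q w k G : ℕ} (hq : q < 128)
    (hw : Nat.land (low3 w (2 ^ k)) (Nat.mul 128 (O (2 ^ k))) = 0) (hG : G < 2 * 2 ^ k) :
    fld (pvw q w (2 ^ k)) G = wp3 w (G % 2 ^ k) + (if G.testBit k = true then q else 0) := by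
  have hlow := high_zero hw
  change fld (low3 w (2 ^ k) ||| ((low3 w (2 ^ k) + q * O (2 ^ k)) <<< (8 * 2 ^ k))) G = _
  rw [fld_lor]
  by_cases hc : G < 2 ^ k
  · rw [fld_shift_low hc, Nat.or_zero, low3_fld hc, Nat.mod_eq_of_lt hc,
      Nat.testBit_lt_two_pow hc]
    simp
  · obtain ⟨g, rfl⟩ := Nat.exists_eq_add_of_le (not_lt.1 hc)
    have hg : g < 2 ^ k := by omega
    have h1 : fld (low3 w (2 ^ k)) (2 ^ k + g) = 0 := fld_mask_high _ _ _
    rw [h1, Nat.zero_or, fld_shift_high, fld_addc (2 ^ k) _ q _ g hg, low3_fld hg,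
      Nat.testBit_two_pow_add_eq, Nat.testBit_lt_two_pow hg]
    · simp [Nat.mod_eq_of_lt hg]
    · intro h' hh'
      have := hlow h' hh'
      omega

/-! ### Witnesses -/

def upd (P0 SY O1 M R G v : ℕ) : ℕ :=
  force (Nat.land R (Nat.add P0 (Nat.mul (Nat.sub 136 v) O1))) fun RA =>
    Nat.xor R (Nat.xor RA (Nat.land RA
      (Nat.add (Nat.land SY (Nat.mul (Nat.sub 255 G) O1)) M)))

noncomputable def wloop (PV FB p2 P0 SY O1 M n : ℕ) : ℕ → ℕ → Bool :=
  Nat.rec (fun _ R => Nat.beq R 0) (fun _ ih c R =>
    force (Nat.land c 63) fun G => force (fld PV G) fun v =>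
    and (and (Nat.ble (Nat.succ G) p2) (and (Nat.ble 8 v) (not (bt FB G))))
      (ih (Nat.shiftRight c 6) (upd P0 SY O1 M R G v))) n

theorem wloop_spec {PV FB p2 P0 SY N3 : ℕ} (hP : ∀ h < N3, fld P0 h < 128)
    (hS : ∀ h < N3, fld SY h < 128) (n : ℕ) :
    ∀ c R, wloop PV FB p2 P0 SY (O N3) (Nat.mul 127 (O N3)) n c R = true →
      ∀ h < N3, R.testBit (8 * h + 7) = true → ∃ G, G < p2 ∧ G < 64 ∧ FB.testBit G = false ∧
        fld PV G ≤ fld P0 h + 8 ∧
        ∀ i < 8, (fld SY h).testBit i = true → G.testBit i = true := by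
  induction n with
  | zero =>
    intro c R hw h _ hR
    change Nat.beq R 0 = true at hw
    rw [beqT] at hw
    rw [hw, Nat.zero_testBit] at hR
    exact absurd hR (by simp)
  | succ n ih =>
    intro c R hw h hh hR
    change force (Nat.land c 63) (fun G => force (fld PV G) fun v =>
      and (and (Nat.ble (Nat.succ G) p2) (and (Nat.ble 8 v) (not (bt FB G))))
        (wloop PV FB p2 P0 SY (O N3) (Nat.mul 127 (O N3)) n (Nat.shiftRight c 6)
          (upd P0 SY (O N3) (Nat.mul 127 (O N3)) R G v))) = true at hw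
    rw [force_eq, force_eq, Bool.and_eq_true, Bool.and_eq_true,
      Bool.and_eq_true, bleT, bleT, Bool.not_eq_true', bt_eq] at hw
    unfold upd at hw
    rw [force_eq] at hw
    set G := Nat.land c 63 with hG
    set v := fld PV G with hv
    obtain ⟨⟨h1, h2, h3⟩, h4⟩ := hw
    have hG64 : G < 64 := by
      have : G ≤ 63 := Nat.and_le_right
      omega
    set RA := Nat.land R (Nat.add P0 (Nat.mul (Nat.sub 136 v) (O N3))) with hRA
    set B := Nat.add (Nat.land SY (Nat.mul (Nat.sub 255 G) (O N3))) (Nat.mul 127 (O N3)) with hB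
    by_cases hR2 : (Nat.xor R (Nat.xor RA (Nat.land RA B))).testBit (8 * h + 7) = true
    · exact ih _ _ h4 h hh hR2
    · have e1 : (Nat.xor R (Nat.xor RA (Nat.land RA B))).testBit (8 * h + 7)
          = (R.testBit (8 * h + 7) ^^ (RA.testBit (8 * h + 7) ^^
            (RA.testBit (8 * h + 7) && B.testBit (8 * h + 7)))) := by
        change (R ^^^ (RA ^^^ (RA &&& B))).testBit _ = _
        rw [Nat.testBit_xor, Nat.testBit_xor, Nat.testBit_and]
      rw [e1, hR] at hR2
      have hRAt : RA.testBit (8 * h + 7) = true := by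
        cases hx : RA.testBit (8 * h + 7)
        · rw [hx] at hR2; simp at hR2
        · rfl
      have hBf : B.testBit (8 * h + 7) = false := by
        cases hx : B.testBit (8 * h + 7)
        · rfl
        · rw [hx, hRAt] at hR2; simp at hR2
      refine ⟨G, h1, hG64, h3, ?_, ?_⟩
      · -- the cost
        have e2 : (Nat.add P0 (Nat.mul (Nat.sub 136 v) (O N3))).testBit (8 * h + 7) = true := by
          have : (R &&& Nat.add P0 (Nat.mul (Nat.sub 136 v) (O N3))).testBit (8 * h + 7) = true :=
            hRAt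
          rw [Nat.testBit_and, Bool.and_eq_true] at this
          exact this.2
        have e3 : fld (P0 + (136 - v) * O N3) h = fld P0 h + (136 - v) := by
          apply fld_addc N3 P0 (136 - v) _ h hh
          intro h' hh'
          have := hP h' hh'
          omega
        have e4 : (fld (P0 + (136 - v) * O N3) h).testBit 7 = true := by
          rw [fld_testBit]
          simp only [show (7 : ℕ) < 8 by norm_num, decide_true, Bool.true_and]
          exact e2
        rw [testBit_seven (fld_lt _ _), decide_eq_true_eq, e3] at e4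
        have e5 := hP h hh
        omega
      · intro i hi hSi
        have e2 : fld (SY &&& (255 - G) * O N3) h = fld SY h &&& (255 - G) := by
          rw [fld_land, fld_mulO (by omega) hh]
        have e3 : fld ((SY &&& (255 - G) * O N3) + 127 * O N3) h
            = (fld SY h &&& (255 - G)) + 127 := by
          rw [fld_addc N3 _ 127 _ h hh, e2]
          intro h' hh'
          rw [fld_land, fld_mulO (by omega) hh']
          have e4 : fld SY h' &&& (255 - G) ≤ fld SY h' := Nat.and_le_left
          have e5 := hS h' hh'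
          omega
        have e4 : (fld ((SY &&& (255 - G) * O N3) + 127 * O N3) h).testBit 7 = false := by
          rw [fld_testBit]
          simp only [show (7 : ℕ) < 8 by norm_num, decide_true, Bool.true_and]
          exact hBf
        rw [testBit_seven (fld_lt _ _), decide_eq_false_iff_not, e3] at e4
        have e5 : fld SY h &&& (255 - G) = 0 := by omega
        by_contra hGi
        have hGi' : G.testBit i = false := by simpa using hGi
        have e6 : (255 - G).testBit i = true := by
          have := Nat.testBit_two_pow_sub_succ (n := 8) (x := G) (by omega) i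
          rw [show 2 ^ 8 - (G + 1) = 255 - G by omega] at this
          rw [this, hGi']
          simp [hi]
        have e7 : (fld SY h &&& (255 - G)).testBit i = true := by
          rw [Nat.testBit_and, hSi, e6]; rfl
        rw [e5, Nat.zero_testBit] at e7
        exact absurd e7 (by simp)

/-! ### Waiting antichains -/

noncomputable def rbC (A SV w' N3 : ℕ) (K : ℕ → ℕ → Bool) (NA : List ℕ) : ℕ → ℕ → Bool :=
  List.rec (fun c acc => K c acc) (fun m _ ih c acc =>
    force (Nat.land c 63) fun d =>
    cond (Nat.ble d 31)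
      (and (and (Nat.ble (Nat.succ d) N3) (and (Nat.beq (fld SV d) m) (wE w' d)))
        (ih (Nat.shiftRight c 6) acc))
      (ih (Nat.shiftRight c 6) (Nat.lor acc (AV A m)))) NA

theorem rbC_spec {A SV w' N3 : ℕ} {K : ℕ → ℕ → Bool} (NA : List ℕ) :
    ∀ c acc, rbC A SV w' N3 K NA c acc = true → ∃ c' FB, K c' FB = true ∧
      (∀ i, acc.testBit i = true → FB.testBit i = true) ∧
      ∀ m ∈ NA, (∀ i, (AV A m).testBit i = true → FB.testBit i = true) ∨
        ∃ d < N3, fld SV d = m ∧ wE w' d = true := by
  induction NA with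
  | nil =>
    intro c acc h
    exact ⟨c, acc, h, fun i hi => hi, fun m hm => by simp at hm⟩
  | cons m NA ih =>
    intro c acc h
    change force (Nat.land c 63) (fun d =>
      cond (Nat.ble d 31)
      (and (and (Nat.ble (Nat.succ d) N3) (and (Nat.beq (fld SV d) m) (wE w' d)))
        (rbC A SV w' N3 K NA (Nat.shiftRight c 6) acc))
      (rbC A SV w' N3 K NA (Nat.shiftRight c 6) (Nat.lor acc (AV A m)))) = true at h
    rw [force_eq] at h
    cases hd : Nat.ble (Nat.land c 63) 31 with
    | true =>
      rw [hd, cond_true, Bool.and_eq_true, Bool.and_eq_true, Bool.and_eq_true, bleT, beqT] at h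
      obtain ⟨⟨h1, h2, h3⟩, h4⟩ := h
      obtain ⟨c', RB, k1, k2, k3⟩ := ih _ _ h4
      refine ⟨c', RB, k1, k2, fun m' hm' => ?_⟩
      rcases List.mem_cons.1 hm' with h5 | h5
      · right; rw [h5]; exact ⟨_, h1, h2, h3⟩
      · exact k3 m' h5
    | false =>
      rw [hd, cond_false] at h
      obtain ⟨c', RB, k1, k2, k3⟩ := ih _ _ h
      refine ⟨c', RB, k1, fun i hi => k2 i ?_, fun m' hm' => ?_⟩
      · change (acc ||| AV A m).testBit i = true
        rw [Nat.testBit_or, hi]; rfl
      · rcases List.mem_cons.1 hm' with h5 | h5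
        · left
          intro i hi
          apply k2
          rw [h5] at hi
          change (acc ||| AV A m).testBit i = true
          rw [Nat.testBit_or, hi, Bool.or_true]
        · exact k3 m' h5

/-- The images are different. -/
noncomputable def injC (sg : ℕ → ℕ) (n : ℕ) : ℕ → Bool :=
  Nat.rec (fun _ => true) (fun i ih acc =>
    and (not (bt acc (sg i))) (ih (Nat.lor acc (Nat.pow 2 (sg i))))) n

theorem injC_spec {sg : ℕ → ℕ} (n : ℕ) : ∀ acc, injC sg n acc = true →
    (∀ a < n, acc.testBit (sg a) = false) ∧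
      ∀ a < n, ∀ b < n, sg a = sg b → a = b := by
  induction n with
  | zero => intro acc _; exact ⟨fun a ha => by omega, fun a ha => by omega⟩
  | succ n ih =>
    intro acc h
    change and (not (bt acc (sg n))) (injC sg n (Nat.lor acc (Nat.pow 2 (sg n)))) = true at h
    rw [Bool.and_eq_true, Bool.not_eq_true', bt_eq] at h
    obtain ⟨h2, h3⟩ := h
    obtain ⟨h4, h5⟩ := ih _ h3
    have h6 : ∀ a < n, acc.testBit (sg a) = false ∧ sg a ≠ sg n := by
      intro a ha
      have h8 : (acc ||| 2 ^ (sg n)).testBit (sg a) = false := h4 a ha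
      rw [Nat.testBit_or, Bool.or_eq_false_iff] at h8
      refine ⟨h8.1, fun h9 => ?_⟩
      rw [h9, Nat.testBit_two_pow_self] at h8
      exact absurd h8.2 (by simp)
    constructor
    · intro a ha
      rcases Nat.lt_succ_iff_lt_or_eq.1 ha with h7 | h7
      · exact (h6 a h7).1
      · rw [h7]; exact h2
    · intro a ha b hb hab
      rcases Nat.lt_succ_iff_lt_or_eq.1 ha with h7 | h7 <;>
        rcases Nat.lt_succ_iff_lt_or_eq.1 hb with h8 | h8
      · exact h5 a h7 b h8 hab
      · rw [h8] at hab; exact absurd hab (h6 a h7).2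
      · rw [h7] at hab; exact absurd hab.symm (h6 b h8).2
      · omega

def xrow (w k pk D s : ℕ) : ℕ :=
  cond (Nat.ble (Nat.succ s) k) (cond (bt D s) (Nat.lor (row w s) pk) (row w s)) 0

theorem xrow_spec {w k D s t : ℕ} (hok : okRows w k = true) (hs : s ≤ k) (ht : t ≤ k) :
    (xrow w k (2 ^ k) D s).testBit t = ltx k (wlt w) D s t := by
  unfold xrow ltx
  rcases Nat.lt_or_eq_of_le hs with h1 | h1
  · rw [bleT.2 h1, cond_true, bt_eq]
    have hk : (row w s).testBit k = false := by
      rw [← Bool.not_eq_true]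
      intro h2
      have := (okRows_row hok s h1 k h2).2
      omega
    rcases Nat.lt_or_eq_of_le ht with h2 | h2
    · have h3 : ¬ t = k := by omega
      have h4 : ¬ s = k := by omega
      rw [if_neg h3, if_neg h4]
      unfold wlt
      rw [bt_eq]
      cases D.testBit s
      · rfl
      · change ((row w s) ||| 2 ^ k).testBit t = _
        rw [Nat.testBit_or, Nat.testBit_two_pow]
        have : ¬ k = t := by omega
        simp [this]
    · rw [if_pos h2, h2, decide_eq_true h1, Bool.true_and]
      cases D.testBit s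
      · exact hk
      · change ((row w s) ||| 2 ^ k).testBit k = _
        rw [Nat.testBit_or, Nat.testBit_two_pow_self, Bool.or_true]
  · have h2 : Nat.ble (Nat.succ s) k = false := by
      rw [← Bool.not_eq_true, bleT]; omega
    rw [h2, cond_false, Nat.zero_testBit]
    by_cases h3 : t = k
    · rw [if_pos h3, decide_eq_false (by omega), Bool.false_and]
    · rw [if_neg h3, if_pos h1]

end Pool.Agent.H59.Fib.K
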