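import Pool.Agent.H59.Fib.K.Check3

/-!
# The faster checker: steps and states
-/

namespace Pool.Agent.H59.Fib.K

/-- The map of a code. -/
def sgf (sgc a : ℕ) : ℕ := Nat.land (Nat.shiftRight sgc (Nat.mul 3 a)) 7

noncomputable def tr3 (A w k D U PV : ℕ) (NA : List ℕ) (c1 w' k' sgc : ℕ) : Bool :=
  force (Nat.pow 2 k') fun N3 => force (O N3) fun O1 =>
  force (Nat.mul 128 O1) fun H => force (low3 w' N3) fun P0 =>
  force (svN (sgf sgc) k') fun SV => force (fld SV (Nat.pred N3)) fun W =>
  and (Nat.beq (Nat.land P0 H) 0) (and (injC (sgf sgc) k' 0)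
   (and (Nat.beq (Nat.land W U) W) (and
    (allN k' fun a => force (row w' a) fun r =>
      and (Nat.ble (Nat.succ r) N3)
        (Nat.beq (Nat.land (xrow w k (Nat.pow 2 k) D (sgf sgc a)) W) (fld SV r)))
    (rbC A SV w' N3 (fun c2 FB =>
      force (Nat.lor SV (Nat.mul (Nat.xor U W) O1)) fun SY =>
      and (Nat.beq (Nat.land SY H) 0)
        (wloop PV FB (Nat.mul 2 (Nat.pow 2 k)) P0 SY O1 (Nat.mul 127 O1) (Nat.land c2 63)
          (Nat.shiftRight c2 6) H)) NA c1 0))))

noncomputable def trans3 (A T N w k D U PV : ℕ) (NA : List ℕ) (c : ℕ) : Bool :=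
  frc (Nat.land c 4095) fun j' =>
  and (Nat.ble (Nat.succ j') N) (
  frc (word3 T j') fun w' => frc (wk w') fun k' =>
  frc (Nat.land (Nat.shiftRight c 12) 32767) fun sgc =>
  tr3 A w k D U PV NA (Nat.shiftRight c 27) w' k' sgc)

theorem trans3_spec {q A T N j D U c : ℕ} {NA : List ℕ} (hA : AVOK3 A) (hq : q < 128)
    (hk5 : wk (word3 T j) ≤ 5) (hok : okRows (word3 T j) (wk (word3 T j)) = true)
    (hlow : Nat.land (low3 (word3 T j) (2 ^ wk (word3 T j)))
      (Nat.mul 128 (O (2 ^ wk (word3 T j)))) = 0)
    (hU : U < 2 ^ (wk (word3 T j) + 1))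
    (hNA : ∀ m, NewE (wk (word3 T j)) (wlt (word3 T j)) (wE (word3 T j)) D m → m ∈ NA)
    (h : trans3 A T N (word3 T j) (wk (word3 T j)) D U
      (pvw q (word3 T j) (2 ^ wk (word3 T j))) NA c = true) :
    ∃ j' σ, StepOK q (sys3 T N) j D U j' σ := by
  unfold trans3 at h
  rw [frc_eq, Bool.and_eq_true, frc_eq, frc_eq, frc_eq] at h
  obtain ⟨hN, h⟩ := h
  set j' := Nat.land c 4095 with hj'
  set sgc := Nat.land (Nat.shiftRight c 12) 32767 with hsgc
  set sg : ℕ → ℕ := sgf sgc with hsg
  set w := word3 T j with hw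
  set k := wk w with hk
  set w' := word3 T j' with hw'
  set k' := wk w' with hk'
  unfold tr3 at h
  rw [force_eq, force_eq, force_eq, force_eq, force_eq, force_eq, Bool.and_eq_true,
    Bool.and_eq_true, Bool.and_eq_true, Bool.and_eq_true, beqT, beqT] at h
  have hN3 : Nat.pow 2 k' = 2 ^ k' := rfl
  have hN4 : Nat.pow 2 k = 2 ^ k := rfl
  rw [hN3, hN4] at h
  obtain ⟨hP0, hinj, hWU, hrel, hrb⟩ := h
  set SV := svN sg k' with hSV
  set W := fld SV (Nat.pred (2 ^ k')) with hW
  set P0 := low3 w' (2 ^ k') with hP0def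
  have hsg8 : ∀ a < k', sg a < 8 := by
    intro a _
    have : sg a ≤ 7 := Nat.and_le_right
    omega
  obtain ⟨hSVlt, hSVspec⟩ := svN_spec k' hsg8
  obtain ⟨-, hsginj⟩ := injC_spec k' 0 hinj
  have hpos : 0 < 2 ^ k' := by positivity
  -- images of masks
  have himg : ∀ d < 2 ^ k', ∀ i, (fld SV d).testBit i = true ↔
      ∃ a < k', d.testBit a = true ∧ sg a = i := by
    intro d hd i
    rw [fld_testBit, Bool.and_eq_true, decide_eq_true_eq]
    constructor
    · rintro ⟨h1, h2⟩
      exact (hSVspec d hd i h1).1 h2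
    · rintro ⟨a, ha, h1, h2⟩
      have hi : i < 8 := by rw [← h2]; exact hsg8 a ha
      exact ⟨hi, (hSVspec d hd i hi).2 ⟨a, ha, h1, h2⟩⟩
  have hWspec : ∀ i, W.testBit i = true ↔ ∃ a < k', sg a = i := by
    intro i
    rw [hW, himg _ (by rw [Nat.pred_eq_sub_one]; omega)]
    constructor
    · rintro ⟨a, ha, -, h2⟩; exact ⟨a, ha, h2⟩
    · rintro ⟨a, ha, h2⟩
      refine ⟨a, ha, ?_, h2⟩
      rw [Nat.pred_eq_sub_one, Nat.testBit_two_pow_sub_one]
      simpa using ha
  have hmem : ∀ a < k', sg a ≤ k ∧ U.testBit (sg a) = true := by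
    intro a ha
    have h1 : U.testBit (sg a) = true := by
      have h2 : (W &&& U).testBit (sg a) = true := by
        have h3 : W &&& U = W := hWU
        rw [h3]
        exact (hWspec _).2 ⟨a, ha, rfl⟩
      rw [Nat.testBit_and, Bool.and_eq_true] at h2
      exact h2.2
    refine ⟨?_, h1⟩
    by_contra hcon
    rw [Nat.testBit_lt_two_pow (lt_of_lt_of_le hU (Nat.pow_le_pow_right (by norm_num)
      (by omega : k + 1 ≤ sg a)))] at h1
    exact absurd h1 (by simp)
  have hP0fld : ∀ h < 2 ^ k', fld P0 h = wp3 w' h := by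
    intro h hh
    exact low3_fld hh
  obtain ⟨c', FB, hK, -, hFB⟩ := rbC_spec NA _ _ hrb
  rw [force_eq, Bool.and_eq_true, beqT] at hK
  obtain ⟨hSY, hwl⟩ := hK
  set SY := Nat.lor SV (Nat.mul (Nat.xor U W) (O (2 ^ k'))) with hSYdef
  have hUW : Nat.xor U W < 256 := by
    change U ^^^ W < 2 ^ 8
    apply Nat.xor_lt_two_pow
    · refine lt_of_lt_of_le hU (Nat.pow_le_pow_right (by norm_num) (by omega))
    · exact fld_lt _ _
  have hSYfld : ∀ h < 2 ^ k', fld SY h = fld SV h ||| Nat.xor U W := by
    intro h hh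
    apply Nat.eq_of_testBit_eq
    intro i
    rw [fld_testBit, Nat.testBit_or, fld_testBit]
    have e1 : SY.testBit (8 * h + i) = (SV.testBit (8 * h + i) ||
        (Nat.xor U W * O (2 ^ k')).testBit (8 * h + i)) := by
      change (SV ||| (Nat.xor U W * O (2 ^ k'))).testBit _ = _
      rw [Nat.testBit_or]
    rw [e1]
    by_cases hi : i < 8
    · have e2 := fld_testBit (Nat.xor U W * O (2 ^ k')) h i
      rw [fld_mulO hUW hh] at e2
      simp only [hi, decide_true, Bool.true_and] at e2 ⊢
      rw [e2]
    · have e3 : (Nat.xor U W).testBit i = false :=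
        Nat.testBit_lt_two_pow (lt_of_lt_of_le hUW (show (256 : ℕ) ≤ 2 ^ i from
          le_trans (by norm_num) (Nat.pow_le_pow_right (by norm_num) (show 8 ≤ i by omega))))
      rw [e3]
      simp [hi]
  refine ⟨j', sg, ⟨?_, hsginj, hmem, ?_, ?_⟩⟩
  · exact bleT.1 hN
  · intro a ha b hb
    have h1 := allN_spec hrel a ha
    rw [force_eq, Bool.and_eq_true, bleT, beqT] at h1
    obtain ⟨h2, h3⟩ := h1
    have h4 : (xrow w k (2 ^ k) D (sg a)).testBit (sg b)
        = (fld SV (row w' a)).testBit (sg b) := by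
      rw [← h3]
      change _ = ((xrow w k (2 ^ k) D (sg a)) &&& W).testBit (sg b)
      rw [Nat.testBit_and, (hWspec (sg b)).2 ⟨b, hb, rfl⟩, Bool.and_true]
    rw [xrow_spec hok (hmem a ha).1 (hmem b hb).1] at h4
    change wlt w' a b = ltx k (wlt w) D (sg a) (sg b)
    rw [h4]
    unfold wlt
    rw [bt_eq]
    rw [Bool.eq_iff_iff, himg _ h2]
    constructor
    · intro h5; exact ⟨b, hb, h5, rfl⟩
    · rintro ⟨b', hb', h5, h6⟩
      rw [← hsginj b' hb' b hb h6]; exact h5
  · intro G' hG'
    obtain ⟨G, hG1, hG2, hG3, hG4, hG5⟩ := wloop_spec (N3 := 2 ^ k')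
      (high_zero hP0) (high_zero hSY) _ _ _ hwl G' hG' (by
        have h1 := fld_testBit (Nat.mul 128 (O (2 ^ k'))) G' 7
        have h2 : fld (Nat.mul 128 (O (2 ^ k'))) G' = 128 := fld_mulO (by norm_num) hG'
        rw [h2] at h1
        simp only [show (7 : ℕ) < 8 by norm_num, decide_true, Bool.true_and] at h1
        rw [← h1]
        decide)
    have hlt8 : ∀ i ≤ k, i < 8 := by intro i hi; omega
    have hG1' : G < 2 * 2 ^ k := hG1
    refine ⟨G, ?_, ?_, ?_, ?_, ?_⟩
    · change G < 2 ^ (k + 1)
      rw [pow_succ]; omega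
    · intro a ha hb
      apply hG5 _ (hsg8 a ha)
      rw [hSYfld G' hG', Nat.testBit_or, (himg G' hG' (sg a)).2 ⟨a, ha, hb, rfl⟩, Bool.true_or]
    · intro i hi hUi hno
      change i ≤ k at hi
      apply hG5 i (hlt8 i hi)
      rw [hSYfld G' hG', Nat.testBit_or, Bool.or_eq_true]
      right
      change (U ^^^ W).testBit i = true
      rw [Nat.testBit_xor, hUi]
      have : W.testBit i = false := by
        rw [← Bool.not_eq_true, hWspec]
        rintro ⟨a, ha, h3⟩
        exact hno a ha h3
      rw [this]; rfl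
    · change ((wp3 w (G % 2 ^ k) : ℤ) - 64) + (if G.testBit k = true then (q : ℤ) else 0)
        ≤ ((wp3 w' G' : ℤ) - 64) + 8
      rw [hP0fld G' hG', pvw_spec hq hlow hG1'] at hG4
      have h3 : ((wp3 w (G % 2 ^ k) + (if G.testBit k = true then q else 0) : ℕ) : ℤ)
        ≤ ((wp3 w' G' + 8 : ℕ) : ℤ) := by exact_mod_cast hG4
      push_cast at h3
      linarith
    · intro m hm
      change NewE k (wlt w) (wE w) D m at hm
      rcases hFB m (hNA m hm) with h1 | ⟨d, hd, h1, h2⟩
      · left
        have hm64 : m < 64 := by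
          have h3 : m < 2 ^ (k + 1) := by
            rcases hm with ⟨h3, -⟩ | ⟨h3, -⟩
            · exact lt_of_lt_of_le h3 (Nat.pow_le_pow_right (by norm_num) (by omega))
            · exact h3
          have h4 : 2 ^ (k + 1) ≤ 2 ^ 6 := Nat.pow_le_pow_right (by norm_num) (by omega)
          omega
        have hne : m &&& G ≠ 0 := by
          intro h3
          have h4 : (AV A m).testBit G = true := (hA m hm64 G hG2).2 (by rw [Nat.and_comm]; exact h3)
          rw [h1 G h4] at hG3
          exact absurd hG3 (by simp)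
        obtain ⟨i, hi⟩ := Nat.exists_testBit_of_ne_zero hne
        rw [Nat.testBit_and, Bool.and_eq_true] at hi
        exact ⟨i, hi.1, hi.2⟩
      · right
        refine ⟨d, hd, h2, fun i => ?_⟩
        rw [← h1]
        exact himg d hd i

/-! ### New waiting antichains as a bit set -/

noncomputable def nbN (A w k pk D : ℕ) : ℕ :=
  force (Nat.land (Nat.shiftRight w 53) 4294967295) fun E32 =>
  Nat.lor (Nat.xor E32 (Nat.land E32 (AV A D)))
   (Nat.shiftLeft (Nat.rec (Nat.sub (Nat.pow 2 pk) 2) (fun i ih =>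
      Nat.land ih (cond (bt D i) (AV A (Nat.pow 2 i))
        (Nat.xor (AV A (Nat.pow 2 i)) (AV A (crow w i))))) k) pk)

theorem crow_lt (w i : ℕ) : crow w i < 64 := by
  have : crow w i ≤ 31 := Nat.and_le_right
  omega

theorem nbN_spec {A w k D m : ℕ} (hA : AVOK3 A) (hk : k ≤ 5) (hok : okRows w k = true)
    (hD : D < 2 ^ k) (h : NewE k (wlt w) (wE w) D m) : (nbN A w k (2 ^ k) D).testBit m = true := by
  have hk32 : 2 ^ k ≤ 32 := by
    have : 2 ^ k ≤ 2 ^ 5 := Nat.pow_le_pow_right (by norm_num) hk
    omega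
  unfold nbN
  rw [force_eq]
  set E32 := Nat.land (Nat.shiftRight w 53) 4294967295 with hE32
  set C : ℕ → ℕ := fun n => Nat.rec (Nat.sub (Nat.pow 2 (2 ^ k)) 2) (fun i ih =>
      Nat.land ih (cond (bt D i) (AV A (Nat.pow 2 i))
        (Nat.xor (AV A (Nat.pow 2 i)) (AV A (crow w i))))) n with hC
  change ((E32 ^^^ (E32 &&& AV A D)) ||| (C k <<< (2 ^ k))).testBit m = true
  rw [Nat.testBit_or, Bool.or_eq_true]
  rcases h with ⟨hm, hE, i, hi, h1, h2⟩ | ⟨hm, hk1, ⟨i0, hi0, hm0⟩, hDm, hanti, hmax⟩
  · left
    rw [Nat.testBit_xor, Nat.testBit_and]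
    have e1 : E32.testBit m = true := by
      change ((w >>> 53) &&& 4294967295).testBit m = true
      rw [show (4294967295 : ℕ) = 2 ^ 32 - 1 by norm_num, Nat.and_two_pow_sub_one_eq_mod,
        Nat.testBit_mod_two_pow, Nat.testBit_shiftRight]
      have hm32 : m < 32 := by omega
      unfold wE at hE
      rw [bt_eq] at hE
      have hE' : w.testBit (53 + m) = true := hE
      simp [hm32, hE']
    have e2 : (AV A D).testBit m = false := by
      rw [← Bool.not_eq_true, hA D (by omega) m (by omega)]
      intro h3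
      have h4 : (m &&& D).testBit i = true := by rw [Nat.testBit_and, h1, h2]; rfl
      rw [h3, Nat.zero_testBit] at h4
      exact absurd h4 (by simp)
    rw [e1, e2]; rfl
  · right
    have hge : 2 ^ k ≤ m := Nat.ge_two_pow_of_testBit hk1
    obtain ⟨c, rfl⟩ := Nat.exists_eq_add_of_le hge
    have hclt : c < 2 ^ k := by rw [pow_succ] at hm; omega
    have hbit : ∀ i < k, (2 ^ k + c).testBit i = c.testBit i := by
      intro i hi
      rw [Nat.testBit_two_pow_add_gt hi]
    have hclt' : ∀ i, c.testBit i = true → i < k := by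
      intro i hi
      by_contra hcon
      rw [Nat.testBit_lt_two_pow (lt_of_lt_of_le hclt (Nat.pow_le_pow_right (by norm_num)
        (not_lt.1 hcon)))] at hi
      exact absurd hi (by simp)
    have hc1 : 1 ≤ c := by
      by_contra hcon
      have : c = 0 := by omega
      subst this
      rw [hbit i0 hi0, Nat.zero_testBit] at hm0
      exact absurd hm0 (by simp)
    rw [Nat.testBit_shiftLeft, Bool.and_eq_true, decide_eq_true_eq]
    refine ⟨by omega, ?_⟩
    rw [Nat.add_sub_cancel_left]
    have key : ∀ n ≤ k, (C n).testBit c = true := by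
      intro n
      induction n with
      | zero =>
        intro _
        change (2 ^ (2 ^ k) - 2).testBit c = true
        have e1 : 2 ^ (2 ^ k) - 2 = 2 ^ (2 ^ k) - (1 + 1) := rfl
        rw [e1, Nat.testBit_two_pow_sub_succ (by
          have : 2 ^ 1 ≤ 2 ^ (2 ^ k) := Nat.pow_le_pow_right (by norm_num) (by omega)
          omega)]
        have e2 : (1 : ℕ).testBit c = false := by
          rw [show (1 : ℕ) = 2 ^ 0 by norm_num, Nat.testBit_two_pow]
          have : ¬ 0 = c := by omega
          simp [this]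
        rw [e2]
        simp [hclt]
      | succ n ih =>
        intro hn
        have hn' : n < k := by omega
        change ((C n) &&& (cond (bt D n) (AV A (2 ^ n))
          ((AV A (2 ^ n)) ^^^ (AV A (crow w n))))).testBit c = true
        rw [Nat.testBit_and, ih (by omega), Bool.true_and, bt_eq]
        have hpn : 2 ^ n < 64 := by
          have : 2 ^ n ≤ 2 ^ 5 := Nat.pow_le_pow_right (by norm_num) (by omega)
          omega
        have e1 : (AV A (2 ^ n)).testBit c = !c.testBit n := by
          rw [Bool.eq_iff_iff, hA (2 ^ n) hpn c (by omega)]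
          constructor
          · intro h3
            have h4 : (c &&& 2 ^ n).testBit n = false := by rw [h3, Nat.zero_testBit]
            rw [Nat.testBit_and, Nat.testBit_two_pow_self, Bool.and_true] at h4
            simp [h4]
          · intro h3
            apply Nat.eq_of_testBit_eq
            intro i
            rw [Nat.testBit_and, Nat.zero_testBit, Nat.testBit_two_pow]
            by_cases h4 : n = i
            · rw [← h4]
              have : c.testBit n = false := by simpa using h3
              simp [this]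
            · simp [h4]
        cases hDn : D.testBit n with
        | true =>
          rw [cond_true, e1]
          have h3 : c.testBit n = false := by
            rw [← Bool.not_eq_true]
            intro h4
            rw [hDm n hn' (by rw [hbit n hn']; exact h4)] at hDn
            exact absurd hDn (by simp)
          rw [h3]; rfl
        | false =>
          rw [cond_false, Nat.testBit_xor, e1]
          have e2 : (AV A (crow w n)).testBit c = decide (c &&& crow w n = 0) := by
            rw [Bool.eq_iff_iff, hA _ (crow_lt _ _) c (by omega), decide_eq_true_eq]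
          rw [e2]
          cases h5 : c.testBit n with
          | true =>
            have h6 : c &&& crow w n = 0 := by
              apply Nat.eq_of_testBit_eq
              intro a
              rw [Nat.testBit_and, Nat.zero_testBit]
              by_cases h6 : c.testBit a = true
              · have h7 := hclt' a h6
                have h8 : ¬ (crow w n).testBit a = true := by
                  rw [okRows_crow hok n hn' a h7]
                  rintro (h8 | h8)
                  · rw [hanti n hn' a h7 (by rw [hbit n hn']; exact h5)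
                      (by rw [hbit a h7]; exact h6)] at h8
                    exact absurd h8 (by simp)
                  · rw [hanti a h7 n hn' (by rw [hbit a h7]; exact h6)
                      (by rw [hbit n hn']; exact h5)] at h8
                    exact absurd h8 (by simp)
                have h9 : (crow w n).testBit a = false := by simpa using h8
                rw [h9, Bool.and_false]
              · have h7 : c.testBit a = false := by simpa using h6
                rw [h7, Bool.false_and]
            rw [decide_eq_true h6]; rfl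
          | false =>
            obtain ⟨a, ha, h6, h7⟩ := hmax n hn' hDn (by rw [hbit n hn']; exact h5)
            have h8 : ¬ c &&& crow w n = 0 := by
              intro h8
              have h9 : (c &&& crow w n).testBit a = true := by
                rw [Nat.testBit_and, Bool.and_eq_true, okRows_crow hok n hn' a ha]
                refine ⟨?_, h7.symm⟩
                rw [← hbit a ha]; exact h6
              rw [h8, Nat.zero_testBit] at h9
              exact absurd h9 (by simp)
            rw [decide_eq_false h8]; rfl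
    exact key k le_rfl

theorem nbN_lt {A w k D : ℕ} (hk : k ≤ 5) : nbN A w k (2 ^ k) D < 2 ^ 64 := by
  have hk32 : 2 ^ k ≤ 32 := by
    have : 2 ^ k ≤ 2 ^ 5 := Nat.pow_le_pow_right (by norm_num) hk
    omega
  unfold nbN
  rw [force_eq]
  have hE : Nat.land (Nat.shiftRight w 53) 4294967295 < 2 ^ 64 := by
    have : Nat.land (Nat.shiftRight w 53) 4294967295 ≤ 4294967295 := Nat.and_le_right
    omega
  apply Nat.or_lt_two_pow
  · apply Nat.xor_lt_two_pow hE
    exact lt_of_le_of_lt Nat.and_le_left hE
  · set C : ℕ → ℕ := fun n => Nat.rec (Nat.sub (Nat.pow 2 (2 ^ k)) 2) (fun i ih =>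
      Nat.land ih (cond (bt D i) (AV A (Nat.pow 2 i))
        (Nat.xor (AV A (Nat.pow 2 i)) (AV A (crow w i))))) n with hC
    have key : ∀ n, C n < 2 ^ (2 ^ k) := by
      intro n
      induction n with
      | zero =>
        change 2 ^ (2 ^ k) - 2 < 2 ^ (2 ^ k)
        have : 0 < 2 ^ (2 ^ k) := by positivity
        omega
      | succ n ih => exact lt_of_le_of_lt Nat.and_le_left ih
    change C k <<< (2 ^ k) < 2 ^ 64
    rw [Nat.shiftLeft_eq]
    calc C k * 2 ^ (2 ^ k) < 2 ^ (2 ^ k) * 2 ^ (2 ^ k) :=
          Nat.mul_lt_mul_of_pos_right (key k) (by positivity)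
      _ = 2 ^ (2 ^ k + 2 ^ k) := by rw [pow_add]
      _ ≤ 2 ^ 64 := Nat.pow_le_pow_right (by norm_num) (by omega)

noncomputable def bitsC {β : Type} (f : List ℕ → β) (fuel : ℕ) : ℕ → List ℕ → β :=
  Nat.rec (fun _ acc => f acc) (fun _ ih NB acc => cond (Nat.beq NB 0) (f acc)
    (force (Nat.log2 NB) fun m => force (Nat.xor NB (Nat.pow 2 m)) fun NB2 =>
      ih NB2 (List.cons m acc))) fuel

theorem bitsC_spec {β : Type} {f : List ℕ → β} (fuel : ℕ) :
    ∀ NB acc, NB < 2 ^ fuel → ∃ L, bitsC f fuel NB acc = f L ∧ (∀ m ∈ acc, m ∈ L) ∧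
      ∀ m, NB.testBit m = true → m ∈ L := by
  induction fuel with
  | zero =>
    intro NB acc h
    have : NB = 0 := by simpa using h
    subst this
    exact ⟨acc, rfl, fun m hm => hm, fun m hm => by
      rw [Nat.zero_testBit] at hm; exact absurd hm (by simp)⟩
  | succ fuel ih =>
    intro NB acc h
    change ∃ L, cond (Nat.beq NB 0) (f acc)
      (force (Nat.log2 NB) fun m => force (Nat.xor NB (Nat.pow 2 m)) fun NB2 =>
        bitsC f fuel NB2 (List.cons m acc)) = f L ∧ _
    by_cases h0 : NB = 0
    · subst h0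
      exact ⟨acc, rfl, fun m hm => hm, fun m hm => by
        rw [Nat.zero_testBit] at hm; exact absurd hm (by simp)⟩
    · rw [beqF.2 h0, cond_false, force_eq, force_eq]
      set m := Nat.log2 NB with hm
      have h1 : 2 ^ m ≤ NB := Nat.log2_self_le h0
      have h2 : NB < 2 ^ (m + 1) := Nat.lt_log2_self
      have hmf : m ≤ fuel := by
        by_contra hcon
        have : 2 ^ (fuel + 1) ≤ 2 ^ m := Nat.pow_le_pow_right (by norm_num) (by omega)
        omega
      have hbm : NB.testBit m = true := by
        obtain ⟨y, hy⟩ := Nat.exists_eq_add_of_le h1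
        rw [hy, Nat.testBit_two_pow_add_eq, Nat.testBit_lt_two_pow (by rw [pow_succ] at h2; omega)]
        rfl
      have hlt : Nat.xor NB (Nat.pow 2 m) < 2 ^ fuel := by
        refine lt_of_lt_of_le ?_ (Nat.pow_le_pow_right (by norm_num) hmf)
        apply Nat.lt_pow_two_of_testBit
        intro i hi
        change (NB ^^^ 2 ^ m).testBit i = false
        rw [Nat.testBit_xor, Nat.testBit_two_pow]
        rcases Nat.lt_or_eq_of_le hi with h3 | h3
        · have h4 : ¬ m = i := by omega
          rw [Nat.testBit_lt_two_pow (lt_of_lt_of_le h2 (Nat.pow_le_pow_right (by norm_num) h3))]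
          simp [h4]
        · rw [← h3, hbm]; simp
      obtain ⟨L, k1, k2, k3⟩ := ih _ (m :: acc) hlt
      refine ⟨L, k1, fun m' hm' => k2 m' (List.mem_cons_of_mem _ hm'), fun m' hm' => ?_⟩
      by_cases h3 : m' = m
      · rw [h3]; exact k2 m List.mem_cons_self
      · apply k3
        change (NB ^^^ 2 ^ m).testBit m' = true
        rw [Nat.testBit_xor, Nat.testBit_two_pow, hm']
        have : ¬ m = m' := fun h => h3 h.symm
        simp [this]

/-! ### States -/

noncomputable def leafU3 (A T N K W MW w k D PV : ℕ) (NA : List ℕ) (U : ℕ) (S : ℕ) :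
    Option ℕ :=
  cond (and (Nat.beq k K) (Nat.beq (Nat.succ U) (Nat.mul 2 (Nat.pow 2 k)))) (some S)
   (cond (frc U fun U => trans3 A T N w k D U PV NA (Nat.land S MW))
     (some (Nat.shiftRight S W)) none)

theorem leafU3_spec {A T N K W MW w k D PV U : ℕ} {NA : List ℕ} {S S' : ℕ}
    (h : leafU3 A T N K W MW w k D PV NA U S = some S')
    (hcard : ((Finset.range (k + 1)).filter (fun i => U.testBit i = true)).card ≤ K) :
    ∃ c, trans3 A T N w k D U PV NA c = true := by
  unfold leafU3 at h
  by_cases hc : and (Nat.beq k K) (Nat.beq (Nat.succ U) (Nat.mul 2 (Nat.pow 2 k))) = true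
  · exfalso
    rw [Bool.and_eq_true, beqT, beqT] at hc
    obtain ⟨h1, h2⟩ := hc
    have h3 : U = 2 ^ (k + 1) - 1 := by
      have : U + 1 = 2 * 2 ^ k := h2
      rw [pow_succ]; omega
    have h4 : (Finset.range (k + 1)).filter (fun i => U.testBit i = true)
        = Finset.range (k + 1) := by
      apply Finset.filter_true_of_mem
      intro i hi
      rw [h3, Nat.testBit_two_pow_sub_one]
      simpa using Finset.mem_range.1 hi
    rw [h4, Finset.card_range] at hcard
    omega
  · have hc' : and (Nat.beq k K) (Nat.beq (Nat.succ U) (Nat.mul 2 (Nat.pow 2 k))) = false := by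
      rw [← Bool.not_eq_true]; exact hc
    rw [hc', cond_false, frc_eq] at h
    refine ⟨Nat.land S MW, ?_⟩
    by_contra hcon
    have h5 : trans3 A T N w k D U PV NA (Nat.land S MW) = false := by simpa using hcon
    rw [h5] at h
    exact absurd h (by simp)

noncomputable def dStep3 (A T N K W MW w k PV D : ℕ) (S : ℕ) : Option ℕ :=
  force (nbN A w k (Nat.pow 2 k) D) fun NB => bitsC (fun NA =>
    bindO (cond (Nat.beq D 0) (goU w D (leafU3 A T N K W MW w k D PV NA) k 0 S) (some S))
      fun S1 => goU w D (leafU3 A T N K W MW w k D PV NA) k (Nat.pow 2 k) S1) 64 NB []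

theorem dStep3_spec {q A T N K W MW j D U S S' : ℕ} (hA : AVOK3 A) (hq : q < 128)
    (hk5 : wk (word3 T j) ≤ 5) (hok : okRows (word3 T j) (wk (word3 T j)) = true)
    (hlow : Nat.land (low3 (word3 T j) (2 ^ wk (word3 T j)))
      (Nat.mul 128 (O (2 ^ wk (word3 T j)))) = 0)
    (hD : D < 2 ^ wk (word3 T j))
    (h : dStep3 A T N K W MW (word3 T j) (wk (word3 T j))
      (pvw q (word3 T j) (2 ^ wk (word3 T j))) D S = some S')
    (hU : U < 2 ^ (wk (word3 T j) + 1))
    (hv : Valid (wk (word3 T j)) (wlt (word3 T j)) K D U) :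
    ∃ j' σ, StepOK q (sys3 T N) j D U j' σ := by
  set w := word3 T j with hw
  set k := wk w with hk
  set PV := pvw q w (2 ^ k) with hPV
  unfold dStep3 at h
  have hp : Nat.pow 2 k = 2 ^ k := rfl
  rw [force_eq, hp] at h
  obtain ⟨NA, hNA1, -, hNA2⟩ := bitsC_spec (f := fun NA =>
    bindO (cond (Nat.beq D 0) (goU w D (leafU3 A T N K W MW w k D PV NA) k 0 S) (some S))
      fun S1 => goU w D (leafU3 A T N K W MW w k D PV NA) k (2 ^ k) S1) 64
      (nbN A w k (2 ^ k) D) [] (nbN_lt hk5)
  rw [hNA1] at h
  have hNA : ∀ m, NewE k (wlt w) (wE w) D m → m ∈ NA := by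
    intro m hm
    exact hNA2 m (nbN_spec hA hk5 hok hD hm)
  obtain ⟨l1, hl1, hl2⟩ := bindO_spec h
  have hfin : ∃ l1 l2, leafU3 A T N K W MW w k D PV NA U l1 = some l2 := by
    have hhigh : ∀ i, k + 1 ≤ i → U.testBit i = false := by
      intro i hi
      exact Nat.testBit_lt_two_pow (lt_of_lt_of_le hU (Nat.pow_le_pow_right (by norm_num) hi))
    by_cases hUk : U.testBit k = true
    · refine goU_spec (okRows_row hok) k le_rfl _ _ _ hl2 U ?_ ?_ hv.stay hv.up
      · intro i hi
        rw [Nat.testBit_two_pow]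
        rcases Nat.lt_or_eq_of_le hi with h5 | h5
        · rw [hhigh i h5]
          have : ¬ k = i := by omega
          simp [this]
        · rw [← h5, hUk]; simp
      · intro i hi
        rw [Nat.testBit_two_pow]
        have : ¬ k = i := by omega
        simp [this]
    · have hUk' : U.testBit k = false := by simpa using hUk
      have hD0 := hv.new hUk'
      rw [beqT.2 hD0, cond_true] at hl1
      refine goU_spec (okRows_row hok) k le_rfl _ _ _ hl1 U ?_ ?_ hv.stay hv.up
      · intro i hi
        rw [Nat.zero_testBit]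
        rcases Nat.lt_or_eq_of_le hi with h5 | h5
        · exact hhigh i h5
        · rw [← h5, hUk']
      · intro i hi
        exact Nat.zero_testBit i
  obtain ⟨l3, l4, h34⟩ := hfin
  obtain ⟨c, hc⟩ := leafU3_spec h34 hv.card
  exact trans3_spec hA hq hk5 hok hlow hU hNA hc

/-- The codes of the transitions of a state are read from a number: first (9 bits) the length
of a code, then the codes. -/
noncomputable def chkState3 (q A T N K j S0 : ℕ) : Bool :=
  frc (Nat.land S0 511) fun W => frc (Nat.pred (Nat.pow 2 W)) fun MW =>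
  frc (word3 T j) fun w => frc (wk w) fun k =>
    and (Nat.ble k 5) (and (okRows w k)
     (and (Nat.beq (Nat.land (low3 w (Nat.pow 2 k)) (Nat.mul 128 (O (Nat.pow 2 k)))) 0)
      (isS (frc (pvw q w (Nat.pow 2 k)) fun PV =>
        goU w 0 (fun C S => frc (Nat.xor C (Nat.pred (Nat.pow 2 k))) fun D =>
        dStep3 A T N K W MW w k PV D S) k 0 (Nat.shiftRight S0 9)))))

theorem chkState3_spec {q A T N K j S0 : ℕ} (hA : AVOK3 A) (hq : q < 128)
    (h : chkState3 q A T N K j S0 = true) :
    ∀ D < 2 ^ ((sys3 T N).k j), ∀ U < 2 ^ ((sys3 T N).k j + 1),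
      Valid ((sys3 T N).k j) ((sys3 T N).lt j) K D U →
        ∃ j' σ, StepOK q (sys3 T N) j D U j' σ := by
  intro D hD U hU hv
  change D < 2 ^ (wk (word3 T j)) at hD
  change U < 2 ^ (wk (word3 T j) + 1) at hU
  change Valid (wk (word3 T j)) (wlt (word3 T j)) K D U at hv
  unfold chkState3 at h
  rw [frc_eq, frc_eq, frc_eq, frc_eq, Bool.and_eq_true, Bool.and_eq_true, Bool.and_eq_true,
    bleT, beqT, frc_eq] at h
  obtain ⟨h1, h2, hlow, h3⟩ := h
  set w := word3 T j with hw
  set k := wk w with hk
  have hp : Nat.pow 2 k = 2 ^ k := rfl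
  rw [hp] at h3 hlow
  set W := Nat.land S0 511 with hWdef
  set MW := Nat.pred (Nat.pow 2 W) with hMWdef
  cases hg : goU w 0 (fun C S => frc (Nat.xor C (Nat.pred (2 ^ k))) fun D =>
        dStep3 A T N K W MW w k (pvw q w (2 ^ k)) D S) k 0 (Nat.shiftRight S0 9) with
  | none => rw [hg] at h3; exact absurd h3 (by simp [isS])
  | some l' =>
    -- the complement of D
    have hpred : Nat.pred (2 ^ k) = 2 ^ k - 1 := rfl
    have hDbit : ∀ i, (D ^^^ (2 ^ k - 1)).testBit i = (decide (i < k) && !D.testBit i) := by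
      intro i
      rw [Nat.testBit_xor, Nat.testBit_two_pow_sub_one]
      by_cases hi : i < k
      · simp [hi]
      · rw [Nat.testBit_lt_two_pow (lt_of_lt_of_le hD (Nat.pow_le_pow_right (by norm_num)
          (not_lt.1 hi)))]
        simp [hi]
    obtain ⟨l1, l2, h4⟩ := goU_spec (okRows_row h2) k le_rfl _ _ _ hg (D ^^^ (2 ^ k - 1))
      (by
        intro i hi
        rw [hDbit, Nat.zero_testBit]
        have : ¬ i < k := by omega
        simp [this])
      (fun i _ => Nat.zero_testBit i)
      (by intro a _ h5; rw [Nat.zero_testBit] at h5; exact absurd h5 (by simp))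
      (by
        intro a ha b hb hab h5
        rw [hDbit] at h5 ⊢
        simp only [ha, decide_true, Bool.true_and, Bool.not_eq_true'] at h5
        simp only [hb, decide_true, Bool.true_and, Bool.not_eq_true']
        by_contra h6
        have h7 : D.testBit b = true := by simpa using h6
        rw [hv.down a ha b hb hab h7] at h5
        exact absurd h5 (by simp))
    rw [frc_eq] at h4
    have h5 : Nat.xor (D ^^^ (2 ^ k - 1)) (Nat.pred (2 ^ k)) = D := by
      rw [hpred]
      change (D ^^^ (2 ^ k - 1)) ^^^ (2 ^ k - 1) = D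
      rw [Nat.xor_assoc, Nat.xor_self, Nat.xor_zero]
    rw [h5] at h4
    exact dStep3_spec hA hq h1 h2 hlow hD h4 hU hv

/-- Consecutive states. -/
noncomputable def chkBlock3 (q A T N K : ℕ) (L : List ℕ) : ℕ → Bool :=
  List.rec (fun _ => true) (fun S _ ih j =>
    and (chkState3 q A T N K j S) (ih (Nat.succ j))) L

theorem chkBlock3_spec {q A T N K : ℕ} (L : List ℕ) :
    ∀ j0, chkBlock3 q A T N K L j0 = true → ∀ j, j0 ≤ j → j < j0 + L.length →
      ∃ S, chkState3 q A T N K j S = true := by
  induction L with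
  | nil => intro j0 _ j h1 h2; simp at h2; omega
  | cons l L ih =>
    intro j0 h j h1 h2
    change and (chkState3 q A T N K j0 l) (chkBlock3 q A T N K L (Nat.succ j0)) = true at h
    rw [Bool.and_eq_true] at h
    rcases Nat.lt_or_eq_of_le h1 with h3 | h3
    · refine ih (j0 + 1) h.2 j h3 ?_
      rw [List.length_cons] at h2
      omega
    · exact ⟨l, h3 ▸ h.1⟩

noncomputable def chkB (q A T N K : ℕ) (L : List ℕ) (a b : ℕ) : Bool :=
  and (Nat.ble b (Nat.add a (List.length L))) (chkBlock3 q A T N K L a)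

/-- The states from `a` to `b - 1` are checked. -/
def AllOk (q A T N K a b : ℕ) : Prop :=
  ∀ j, a ≤ j → j < b → ∃ S, chkState3 q A T N K j S = true

theorem chkB_spec {q A T N K : ℕ} {L : List ℕ} {a b : ℕ} (h : chkB q A T N K L a b = true) :
    AllOk q A T N K a b := by
  unfold chkB at h
  rw [Bool.and_eq_true, bleT] at h
  intro j h1 h2
  exact chkBlock3_spec L a h.2 j h1 (lt_of_lt_of_le h2 h.1)

theorem AllOk.trans {q A T N K a b c : ℕ} (h1 : AllOk q A T N K a b)
    (h2 : AllOk q A T N K b c) : AllOk q A T N K a c := by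
  intro j h3 h4
  by_cases h : j < b
  · exact h1 j h3 h
  · exact h2 j (not_lt.1 h) h4

noncomputable def chkEnd3 (T N : ℕ) : Bool :=
  and (and (Nat.ble 1 N) (and (Nat.beq (wk (word3 T 0)) 0) (Nat.ble 64 (wp3 (word3 T 0) 0))))
    (allN N fun j => force (word3 T j) fun w => or (not (Nat.beq (wk w) 0)) (Nat.ble (wp3 w 0) 64))

theorem exists_small3 {q A T N K : ℕ} (hA : chkAV3 A = true) (hq : q < 128)
    (hE : chkEnd3 T N = true)
    (hchk : ∀ j < N, ∃ S, chkState3 q A T N K j S = true)
    {P : Type*} [PartialOrder P] [Fintype P] [Nonempty P] {n : ℕ} (e : P ≃ Fin n)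
    (he : ∀ x y : P, x < y → e x < e y) (hK : ∀ t, (Act e t).card ≤ K) :
    ∃ F : Finset P, q * F.card ≤ 8 * n ∧
      ∀ A : Finset P, (∀ a ∈ A, ∀ b ∈ A, ¬ a < b) → (∀ x, x ∉ A → ∃ a ∈ A, a < x ∨ x < a) →
        1 < A.card → ∃ x ∈ A, x ∈ F := by
  unfold chkEnd3 at hE
  rw [Bool.and_eq_true, Bool.and_eq_true, Bool.and_eq_true, bleT, beqT, bleT] at hE
  obtain ⟨⟨h1, h2, h3⟩, h4⟩ := hE
  refine bound q (sys3 T N) e he K hK ⟨by exact h1, h2, ?_⟩ ?_ ?_
  · change (0 : ℤ) ≤ (wp3 (word3 T 0) 0 : ℤ) - 64
    have : (64 : ℤ) ≤ (wp3 (word3 T 0) 0 : ℤ) := by exact_mod_cast h3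
    linarith
  · intro j hj hk
    have h5 := allN_spec h4 j hj
    rw [force_eq, Bool.or_eq_true, Bool.not_eq_true', beqF, bleT] at h5
    rcases h5 with h5 | h5
    · exact absurd hk h5
    · change (wp3 (word3 T j) 0 : ℤ) - 64 ≤ 0
      have : (wp3 (word3 T j) 0 : ℤ) ≤ 64 := by exact_mod_cast h5
      linarith
  · intro j hj D hD U hU hv
    obtain ⟨l, hl⟩ := hchk j hj
    exact chkState3_spec (AVOK3_of hA) hq hl D hD U hU hv

end Pool.Agent.H59.Fib.K
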