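import Pool.Agent.H59.Fib.K.Check4

/-!
# The checker in a form which the kernel evaluates quickly

The same functions as in `Check2`, `Check3` and `Check4`, with `Bool.rec` in place of `and`,
`not` and `cond`.
-/

namespace Pool.Agent.H59.Fib.K


noncomputable def okRowsF (w k : ℕ) : Bool :=
  @Nat.rec (fun _ => Bool) true (fun i ih => (@Bool.rec (fun _ => Bool) false ih ((@Bool.rec (fun _ => Bool) false ((let cr := Nat.land (Nat.shiftRight w (Nat.add 28 (Nat.mul 5 i))) 31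
     @Nat.rec (fun _ => Bool) true (fun a ih => (@Bool.rec (fun _ => Bool) false ih ((let x := (@Bool.rec (fun _ => Bool) ((Nat.beq (Nat.land (Nat.shiftRight (Nat.land (Nat.shiftRight w (Nat.add 3 (Nat.mul 5 a))) 31) i) 1) 1)) true ((Nat.beq (Nat.land (Nat.shiftRight (Nat.land (Nat.shiftRight w (Nat.add 3 (Nat.mul 5 i))) 31) a) 1) 1)))
       (@Bool.rec (fun _ => Bool) ((@Bool.rec (fun _ => Bool) true false x)) x ((Nat.beq (Nat.land (Nat.shiftRight cr a) 1) 1))))))) k)) ((let r := Nat.land (Nat.shiftRight w (Nat.add 3 (Nat.mul 5 i))) 31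
     @Nat.rec (fun _ => Bool) true (fun b ih => (@Bool.rec (fun _ => Bool) false ih ((@Bool.rec (fun _ => Bool) ((@Bool.rec (fun _ => Bool) false (Nat.ble (Nat.succ b) k) (Nat.ble (Nat.succ i) b))) true ((@Bool.rec (fun _ => Bool) true false ((Nat.beq (Nat.land (Nat.shiftRight r b) 1) 1)))))))) 5)))))) k

set_option smartUnfolding false in
theorem okRowsF_eq (w k : ℕ) : okRowsF w k = okRows w k := rfl

noncomputable def wloopF (PV FB p2 P0 SY O1 M n : ℕ) : ℕ → ℕ → Bool :=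
  @Nat.rec (fun _ => ℕ → ℕ → Bool) (fun _ R => Nat.beq R 0) (fun _ ih c R =>
    let G := Nat.land c 63
    let v := Nat.land (Nat.shiftRight PV (Nat.mul 8 G)) 255
    (@Bool.rec (fun _ => Bool) false (ih (Nat.shiftRight c 6)
        (let RA := Nat.land R (Nat.add P0 (Nat.mul (Nat.sub 136 v) O1))
         Nat.xor R (Nat.xor RA (Nat.land RA
          (Nat.add (Nat.land SY (Nat.mul (Nat.sub 255 G) O1)) M))))) ((@Bool.rec (fun _ => Bool) false ((@Bool.rec (fun _ => Bool) false ((@Bool.rec (fun _ => Bool) true false ((Nat.beq (Nat.land (Nat.shiftRight FB G) 1) 1)))) (Nat.ble 8 v))) (Nat.ble (Nat.succ G) p2))))) n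

set_option smartUnfolding false in
theorem wloopF_eq (PV FB p2 P0 SY O1 M n : ℕ) :
    wloopF PV FB p2 P0 SY O1 M n = wloop PV FB p2 P0 SY O1 M n := rfl

noncomputable def rbCF (A SV w' N3 : ℕ) (K : ℕ → ℕ → Bool) (NA : List ℕ) : ℕ → ℕ → Bool :=
  @List.rec ℕ (fun _ => ℕ → ℕ → Bool) (fun c acc => K c acc) (fun m _ ih c acc =>
    let d := Nat.land c 63
    (@Bool.rec (fun _ => Bool) (ih (Nat.shiftRight c 6) (Nat.lor acc
        (Nat.land (Nat.shiftRight A (Nat.mul 64 m)) 18446744073709551615))) ((@Bool.rec (fun _ => Bool) false (ih (Nat.shiftRight c 6) acc) ((@Bool.rec (fun _ => Bool) false ((@Bool.rec (fun _ => Bool) false ((Nat.beq (Nat.land (Nat.shiftRight w' (Nat.add 53 d)) 1) 1)) (Nat.beq (Nat.land (Nat.shiftRight SV (Nat.mul 8 d)) 255) m))) (Nat.ble (Nat.succ d) N3))))) (Nat.ble d 31))) NA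

set_option smartUnfolding false in
theorem rbCF_eq (A SV w' N3 : ℕ) (K : ℕ → ℕ → Bool) (NA : List ℕ) :
    rbCF A SV w' N3 K NA = rbC A SV w' N3 K NA := rfl

noncomputable def injCF (sgc n : ℕ) : ℕ → Bool :=
  @Nat.rec (fun _ => ℕ → Bool) (fun _ => true) (fun i ih acc =>
    let s := Nat.land (Nat.shiftRight sgc (Nat.mul 3 i)) 7
    (@Bool.rec (fun _ => Bool) false (ih (Nat.lor acc (Nat.pow 2 s))) ((@Bool.rec (fun _ => Bool) true false ((Nat.beq (Nat.land (Nat.shiftRight acc s) 1) 1)))))) n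

set_option smartUnfolding false in
theorem injCF_eq (sgc n : ℕ) : injCF sgc n = injC (sgf sgc) n := rfl

noncomputable def svF (sgc n : ℕ) : ℕ :=
  @Nat.rec (fun _ => ℕ) 0 (fun a ih => let p := Nat.pow 2 a
    Nat.lor ih (Nat.shiftLeft (Nat.lor ih (Nat.shiftLeft
      (Nat.div (Nat.sub (Nat.pow 2 (Nat.mul 8 p)) 1) 255)
      (Nat.land (Nat.shiftRight sgc (Nat.mul 3 a)) 7))) (Nat.mul 8 p))) n

set_option smartUnfolding false in
theorem svF_eq (sgc n : ℕ) : svF sgc n = svN (sgf sgc) n := rfl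

noncomputable def tr3F (A w k D U PV : ℕ) (NA : List ℕ) (c1 w' k' sgc : ℕ) : Bool :=
  let N3 := Nat.pow 2 k'
  let O1 := Nat.div (Nat.sub (Nat.pow 2 (Nat.mul 8 N3)) 1) 255
  let H := Nat.mul 128 O1
  let P0 := Nat.land (Nat.shiftRight w' 96) (Nat.sub (Nat.pow 2 (Nat.mul 8 N3)) 1)
  let SV := svF sgc k'
  let W := Nat.land (Nat.shiftRight SV (Nat.mul 8 (Nat.pred N3))) 255
  (@Bool.rec (fun _ => Bool) false ((@Bool.rec (fun _ => Bool) false ((@Bool.rec (fun _ => Bool) false ((@Bool.rec (fun _ => Bool) false (rbCF A SV w' N3 (fun c2 FB =>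
      let SY := Nat.lor SV (Nat.mul (Nat.xor U W) O1)
      (@Bool.rec (fun _ => Bool) false (wloopF PV FB (Nat.mul 2 (Nat.pow 2 k)) P0 SY O1 (Nat.mul 127 O1) (Nat.land c2 63)
          (Nat.shiftRight c2 6) H) (Nat.beq (Nat.land SY H) 0))) NA c1 0) (@Nat.rec (fun _ => Bool) true (fun a ih => (@Bool.rec (fun _ => Bool) false ih ((let r := Nat.land (Nat.shiftRight w' (Nat.add 3 (Nat.mul 5 a))) 31
       let s := Nat.land (Nat.shiftRight sgc (Nat.mul 3 a)) 7
       (@Bool.rec (fun _ => Bool) false (Nat.beq (Nat.land ((@Bool.rec (fun _ => ℕ) 0 ((let rw := Nat.land (Nat.shiftRight w (Nat.add 3 (Nat.mul 5 s))) 31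
           (@Bool.rec (fun _ => ℕ) rw (Nat.lor rw (Nat.pow 2 k)) ((Nat.beq (Nat.land (Nat.shiftRight D s) 1) 1))))) (Nat.ble (Nat.succ s) k))) W)
          (Nat.land (Nat.shiftRight SV (Nat.mul 8 r)) 255)) (Nat.ble (Nat.succ r) N3)))))) k'))) (Nat.beq (Nat.land W U) W))) (injCF sgc k' 0))) (Nat.beq (Nat.land P0 H) 0))

set_option smartUnfolding false in
theorem tr3F_eq (A w k D U PV : ℕ) (NA : List ℕ) (c1 w' k' sgc : ℕ) :
    tr3F A w k D U PV NA c1 w' k' sgc = tr3 A w k D U PV NA c1 w' k' sgc := rfl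


noncomputable def trans3F (A T N w k D U PV : ℕ) (NA : List ℕ) (c : ℕ) : Bool :=
  frc (Nat.land c 4095) fun j' =>
  (@Bool.rec (fun _ => Bool) false (frc (Nat.land (Nat.shiftRight T (Nat.mul 352 j')) (Nat.sub (Nat.pow 2 352) 1)) fun w' =>
  frc (Nat.land w' 7) fun k' =>
  frc (Nat.land (Nat.shiftRight c 12) 32767) fun sgc =>
  tr3F A w k D U PV NA (Nat.shiftRight c 27) w' k' sgc) (Nat.ble (Nat.succ j') N))

set_option smartUnfolding false in
theorem trans3F_eq (A T N w k D U PV : ℕ) (NA : List ℕ) (c : ℕ) :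
    trans3F A T N w k D U PV NA c = trans3 A T N w k D U PV NA c := rfl

noncomputable def nbNF (A w k D : ℕ) : ℕ :=
  let E32 := Nat.land (Nat.shiftRight w 53) 4294967295
  Nat.lor (Nat.xor E32 (Nat.land E32
    (Nat.land (Nat.shiftRight A (Nat.mul 64 D)) 18446744073709551615)))
   (Nat.shiftLeft (@Nat.rec (fun _ => ℕ) (Nat.sub (Nat.pow 2 (Nat.pow 2 k)) 2) (fun i ih =>
      Nat.land ih
       (let Ai := Nat.land (Nat.shiftRight A (Nat.mul 64 (Nat.pow 2 i))) 18446744073709551615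
        (@Bool.rec (fun _ => ℕ) (Nat.xor Ai
          (Nat.land (Nat.shiftRight A (Nat.mul 64
            (Nat.land (Nat.shiftRight w (Nat.add 28 (Nat.mul 5 i))) 31)))
              18446744073709551615)) Ai ((Nat.beq (Nat.land (Nat.shiftRight D i) 1) 1))))) k) (Nat.pow 2 k))

set_option smartUnfolding false in
theorem nbNF_eq (A w k D : ℕ) : nbNF A w k D = nbN A w k (Nat.pow 2 k) D := rfl

noncomputable def bitsCF {β : Type} (f : List ℕ → β) (fuel : ℕ) : ℕ → List ℕ → β :=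
  @Nat.rec (fun _ => ℕ → List ℕ → β) (fun _ acc => f acc) (fun _ ih NB0 acc =>
    frc NB0 fun NB => (@Bool.rec (fun _ => β) ((frc (Nat.log2 NB) fun m => ih (Nat.xor NB (Nat.pow 2 m)) (List.cons m acc))) (f acc) (Nat.beq NB 0))) fuel

theorem recG {β : Type} (c : Bool) (x y : β) :
    @Bool.rec (fun _ => β) y x c = cond c x y := by cases c <;> rfl

theorem bitsCF_eq {β : Type} (f : List ℕ → β) (fuel : ℕ) : bitsCF f fuel = bitsC f fuel := by
  unfold bitsCF bitsC
  simp only [frc_eq, force_eq, recG]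

noncomputable def goUF (w D : ℕ) (leaf : ℕ → ℕ → Option ℕ) (n : ℕ) :
    ℕ → ℕ → Option ℕ :=
  @Nat.rec (fun _ => ℕ → ℕ → Option ℕ) (fun U l => leaf U l) (fun i ih U l =>
    @Option.rec ℕ (fun _ => Option ℕ) none (fun l1 =>
      let r := Nat.land (Nat.shiftRight w (Nat.add 3 (Nat.mul 5 i))) 31
      (@Bool.rec (fun _ => Option ℕ) (some l1) (ih (Nat.lor U (Nat.pow 2 i)) l1) (Nat.beq (Nat.land r U) r)))
      ((@Bool.rec (fun _ => Option ℕ) (ih U l) (some l) ((Nat.beq (Nat.land (Nat.shiftRight D i) 1) 1))))) n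

set_option smartUnfolding false in
theorem goUF_eq (w D : ℕ) (leaf : ℕ → ℕ → Option ℕ) (n : ℕ) :
    goUF w D leaf n = goU w D leaf n := rfl

noncomputable def leafU3F (A T N K W MW w k D PV : ℕ) (NA : List ℕ) (U : ℕ) (S : ℕ) :
    Option ℕ :=
  (@Bool.rec (fun _ => Option ℕ) ((@Bool.rec (fun _ => Option ℕ) none (some (Nat.shiftRight S W)) (frc U fun U => trans3F A T N w k D U PV NA (Nat.land S MW)))) (some S) ((@Bool.rec (fun _ => Bool) false (Nat.beq (Nat.succ U) (Nat.mul 2 (Nat.pow 2 k))) (Nat.beq k K))))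

set_option smartUnfolding false in
theorem leafU3F_eq (A T N K W MW w k D PV : ℕ) (NA : List ℕ) (U : ℕ) (S : ℕ) :
    leafU3F A T N K W MW w k D PV NA U S = leafU3 A T N K W MW w k D PV NA U S := rfl

noncomputable def dStep3F (A T N K W MW w k PV D : ℕ) (S : ℕ) : Option ℕ :=
  bitsCF (fun NA =>
    @Option.rec ℕ (fun _ => Option ℕ) none (fun S1 =>
      goUF w D (leafU3F A T N K W MW w k D PV NA) k (Nat.pow 2 k) S1)
    ((@Bool.rec (fun _ => Option ℕ) (some S) (goUF w D (leafU3F A T N K W MW w k D PV NA) k 0 S) (Nat.beq D 0))))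
     64 (nbNF A w k D) []

theorem recB (x y : Bool) : @Bool.rec (fun _ => Bool) false y x = and x y := by
  cases x <;> rfl

theorem dStep3F_eq (A T N K W MW w k PV D : ℕ) (S : ℕ) :
    dStep3F A T N K W MW w k PV D S = dStep3 A T N K W MW w k PV D S := by
  unfold dStep3F dStep3 bindO
  have h : leafU3F A T N K W MW w k D PV = leafU3 A T N K W MW w k D PV := by
    funext NA U S
    exact leafU3F_eq _ _ _ _ _ _ _ _ _ _ _ _ _
  rw [force_eq, bitsCF_eq, nbNF_eq, h]
  simp only [goUF_eq, recG]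

noncomputable def chkState3F (q A T N K j S0 : ℕ) : Bool :=
  frc (Nat.land S0 511) fun W => frc (Nat.pred (Nat.pow 2 W)) fun MW =>
  frc (word3 T j) fun w => frc (wk w) fun k =>
    (@Bool.rec (fun _ => Bool) false ((@Bool.rec (fun _ => Bool) false ((@Bool.rec (fun _ => Bool) false (isS (frc (pvw q w (Nat.pow 2 k)) fun PV =>
        goUF w 0 (fun C S => frc (Nat.xor C (Nat.pred (Nat.pow 2 k))) fun D =>
        dStep3F A T N K W MW w k PV D S) k 0 (Nat.shiftRight S0 9))) (Nat.beq (Nat.land (low3 w (Nat.pow 2 k)) (Nat.mul 128 (O (Nat.pow 2 k)))) 0))) (okRowsF w k))) (Nat.ble k 5))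

theorem chkState3F_eq (q A T N K j S0 : ℕ) :
    chkState3F q A T N K j S0 = chkState3 q A T N K j S0 := by
  unfold chkState3F chkState3
  simp only [frc_eq, goUF_eq, dStep3F_eq, recB, okRowsF_eq]

noncomputable def chkBlock3F (q A T N K : ℕ) (L : List ℕ) : ℕ → Bool :=
  @List.rec ℕ (fun _ => ℕ → Bool) (fun _ => true) (fun S _ ih j =>
    (@Bool.rec (fun _ => Bool) false (ih (Nat.succ j)) (chkState3F q A T N K j S))) L

theorem chkBlock3F_eq (q A T N K : ℕ) (L : List ℕ) :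
    chkBlock3F q A T N K L = chkBlock3 q A T N K L := by
  unfold chkBlock3F chkBlock3
  simp only [chkState3F_eq, recB]

theorem chkF_spec {q A T N K : ℕ} {L : List ℕ} {a b : ℕ}
    (hb : Nat.ble b (Nat.add a (List.length L)) = true)
    (h : chkBlock3F q A T N K L a = true) : AllOk q A T N K a b := by
  apply chkB_spec (L := L)
  unfold chkB
  rw [hb, Bool.true_and, ← chkBlock3F_eq]
  exact h

end Pool.Agent.H59.Fib.K
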