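import Mathlib

/-!
# A periodic ordered set with large fibres

The elements are natural numbers; `j` is incomparable to `j - d` for the offsets `d` listed for the
residue of `j` modulo 15, and all other pairs are ordered as numbers.
-/

namespace Pool.Agent.H59.Fib.K

open Finset

/-- The offsets (as masks). -/
def offs (c : ℕ) : ℕ := ([2, 10, 20, 6, 6, 4, 18, 14, 28, 18, 18, 30, 20, 18, 14] : List ℕ).getD c 0

/-- `i < j` are incomparable. -/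
def bad (i j : ℕ) : Bool := (offs (j % 15)).testBit (j - i)

/-- The maximal antichains (offsets from the largest element). -/
def pats (c : ℕ) : List (ℕ × ℕ) := ([[(1, 1)], [(1, 1), (3, 3)], [(2, 2), (4, 4)], [(2, 2)], [(2, 1)], [(2, 2)], [(4, 4)], [(2, 1), (3, 3)], [(3, 2), (4, 4)], [(4, 1)], [(4, 4)], [(2, 1), (3, 2), (4, 4)], [(2, 2), (4, 4)], [(4, 4)], [(2, 1), (3, 3)]] :
  List (List (ℕ × ℕ))).getD c []

/-- The (negated) potential. -/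
def pot (c W : ℕ) : ℕ := (([[0, 1, 0, 0, 0, 19, 0, 4, 0, 1, 8, 0, 34, 19, 19, 4, 0, 19, 0, 19, 0, 4, 0, 4, 0, 9, 19, 4, 19, 4, 19, 4],
   [0, 0, 27, 12, 0, 0, 27, 12, 0, 0, 27, 12, 0, 0, 12, 0, 0, 0, 17, 2, 0, 12, 12, 0, 0, 27, 27, 12, 0, 12, 12, 0],
   [0, 0, 0, 0, 0, 20, 0, 5, 0, 0, 20, 5, 0, 20, 20, 5, 0, 0, 0, 20, 0, 20, 0, 5, 0, 0, 20, 5, 0, 5, 8, 0],
   [0, 0, 0, 0, 0, 0, 0, 13, 0, 0, 0, 13, 0, 0, 0, 0, 0, 0, 0, 0, 28, 13, 13, 0, 0, 0, 0, 13, 28, 13, 13, 0],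
   [0, 0, 0, 0, 8, 0, 8, 0, 0, 21, 0, 6, 21, 6, 21, 6, 0, 0, 0, 0, 8, 0, 21, 6, 0, 21, 0, 6, 21, 6, 8, 0],
   [0, 0, 8, 0, 8, 0, 8, 0, 0, 1, 8, 0, 29, 14, 14, 0, 0, 0, 29, 14, 8, 0, 14, 0, 0, 14, 14, 0, 29, 14, 14, 0],
   [0, 0, 0, 0, 37, 22, 22, 7, 0, 1, 0, 0, 22, 7, 8, 0, 0, 0, 0, 7, 22, 7, 8, 0, 0, 22, 0, 7, 22, 7, 8, 0],
   [0, 0, 0, 0, 0, 0, 0, 0, 0, 30, 0, 15, 0, 15, 0, 0, 8, 0, 30, 15, 8, 0, 15, 0, 30, 15, 15, 0, 16, 1, 8, 0],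
   [0, 1, 0, 0, 0, 23, 0, 8, 0, 1, 8, 0, 23, 8, 8, 0, 0, 23, 0, 23, 0, 8, 0, 8, 0, 9, 23, 8, 16, 1, 8, 0],
   [0, 0, 0, 16, 0, 0, 0, 16, 0, 0, 0, 16, 0, 0, 0, 1, 0, 0, 0, 2, 31, 16, 16, 1, 31, 16, 16, 1, 16, 1, 8, 0],
   [0, 0, 8, 0, 0, 0, 24, 9, 0, 24, 24, 9, 0, 9, 24, 9, 39, 24, 24, 9, 24, 9, 24, 9, 24, 9, 9, 0, 16, 1, 9, 0],
   [0, 32, 0, 17, 0, 17, 0, 2, 0, 17, 0, 2, 0, 17, 0, 2, 32, 17, 32, 17, 32, 17, 17, 2, 24, 9, 17, 2, 32, 17, 17, 2],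
   [0, 25, 0, 25, 0, 25, 0, 10, 0, 25, 0, 10, 0, 10, 0, 0, 0, 17, 0, 10, 25, 10, 10, 0, 0, 25, 25, 10, 25, 10, 10, 0],
   [0, 0, 0, 18, 0, 0, 0, 18, 0, 18, 0, 18, 0, 3, 0, 3, 0, 0, 0, 18, 33, 18, 18, 3, 0, 18, 0, 3, 18, 3, 8, 0],
   [0, 0, 0, 0, 0, 0, 0, 11, 0, 26, 0, 11, 0, 11, 0, 11, 8, 0, 26, 11, 8, 0, 26, 11, 26, 11, 11, 0, 16, 1, 11, 0]] :
  List (List ℕ)).getD c []).getD W 0

theorem offs_lt (c : ℕ) : offs c < 64 := by
  by_cases h : c < 15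
  · interval_cases c <;> decide
  · unfold offs
    rw [List.getD_eq_default _ _ (by simpa using h)]
    norm_num

theorem bad_le {i j : ℕ} (h : bad i j = true) : j - i ≤ 5 := by
  by_contra hcon
  unfold bad at h
  have h1 : offs (j % 15) < 2 ^ (j - i) :=
    lt_of_lt_of_le (offs_lt _) (show 64 ≤ 2 ^ (j - i) from
      le_trans (by norm_num) (Nat.pow_le_pow_right (by norm_num) (show 6 ≤ j - i by omega)))
  rw [Nat.testBit_lt_two_pow h1] at h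
  exact absurd h (by simp)

theorem offs_lt' (c : ℕ) : offs c < 32 := by
  by_cases h : c < 15
  · interval_cases c <;> decide
  · unfold offs
    rw [List.getD_eq_default _ _ (by simpa using h)]
    norm_num

theorem bad_le_four {i j : ℕ} (h : bad i j = true) : j - i ≤ 4 := by
  by_contra hcon
  unfold bad at h
  have h1 : offs (j % 15) < 2 ^ (j - i) :=
    lt_of_lt_of_le (offs_lt' _) (show 32 ≤ 2 ^ (j - i) from
      le_trans (by norm_num) (Nat.pow_le_pow_right (by norm_num) (show 5 ≤ j - i by omega)))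
  rw [Nat.testBit_lt_two_pow h1] at h
  exact absurd h (by simp)

def tchk (r d1 d2 : ℕ) : Bool :=
  !(offs r).testBit (d1 + 1 + (d2 + 1)) || (offs r).testBit (d2 + 1) ||
    (offs ((r + 15 - (d2 + 1)) % 15)).testBit (d1 + 1)

theorem tchk_all : ∀ r < 15, ∀ d1 < 5, ∀ d2 < 5, tchk r d1 d2 = true := by
  decide +kernel

theorem trans_check {r d1 d2 : ℕ} (hr : r < 15) (h1 : d1 < 5) (h2 : d2 < 5)
    (h : (offs r).testBit (d1 + 1 + (d2 + 1)) = true) :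
    (offs r).testBit (d2 + 1) = true ∨
      (offs ((r + 15 - (d2 + 1)) % 15)).testBit (d1 + 1) = true := by
  have h3 := tchk_all r hr d1 h1 d2 h2
  unfold tchk at h3
  rw [Bool.or_eq_true, Bool.or_eq_true, h] at h3
  rcases h3 with (h3 | h3) | h3
  · exact absurd h3 (by simp)
  · exact Or.inl h3
  · exact Or.inr h3

theorem bad_trans {i j l : ℕ} (h1 : i < j) (h2 : j < l) (h3 : bad i j = false)
    (h4 : bad j l = false) : bad i l = false := by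
  rw [← Bool.not_eq_true]
  intro h5
  have h6 := bad_le h5
  obtain ⟨d1, rfl⟩ : ∃ d1, j = i + (d1 + 1) := ⟨j - i - 1, by omega⟩
  obtain ⟨d2, rfl⟩ : ∃ d2, l = i + (d1 + 1) + (d2 + 1) := ⟨l - (i + (d1 + 1)) - 1, by omega⟩
  unfold bad at h3 h4 h5
  have h7 := trans_check (r := (i + (d1 + 1) + (d2 + 1)) % 15) (d1 := d1) (d2 := d2)
    (Nat.mod_lt _ (by norm_num)) (by omega) (by omega) (by
      rw [show d1 + 1 + (d2 + 1) = i + (d1 + 1) + (d2 + 1) - i by omega]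
      exact h5)
  rcases h7 with h7 | h7
  · rw [show i + (d1 + 1) + (d2 + 1) - (i + (d1 + 1)) = d2 + 1 by omega, h7] at h4
    exact absurd h4 (by simp)
  · rw [show ((i + (d1 + 1) + (d2 + 1)) % 15 + 15 - (d2 + 1)) % 15 = (i + (d1 + 1)) % 15 by omega]
      at h7
    rw [show i + (d1 + 1) - i = d1 + 1 by omega, h7] at h3
    exact absurd h3 (by simp)

/-- The ordered set on the first `n` numbers. -/
@[reducible] def po (n : ℕ) : PartialOrder (Fin n) where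
  le i j := i = j ∨ ((i : ℕ) < (j : ℕ) ∧ bad i j = false)
  lt i j := (i = j ∨ ((i : ℕ) < (j : ℕ) ∧ bad i j = false)) ∧
    ¬ (j = i ∨ ((j : ℕ) < (i : ℕ) ∧ bad j i = false))
  le_refl i := Or.inl rfl
  le_trans i j l := by
    rintro (rfl | ⟨h1, h2⟩) (rfl | ⟨h3, h4⟩)
    · exact Or.inl rfl
    · exact Or.inr ⟨h3, h4⟩
    · exact Or.inr ⟨h1, h2⟩
    · exact Or.inr ⟨h1.trans h3, bad_trans h1 h3 h2 h4⟩
  le_antisymm i j := by
    rintro (rfl | ⟨h1, -⟩) (h | ⟨h3, -⟩)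
    · rfl
    · rfl
    · exact h.symm
    · omega

end Pool.Agent.H59.Fib.K
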