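import Pool.Agent.H59.Fib.K.Low

/-!
# Every fibre of the periodic ordered set is large
-/

namespace Pool.Agent.H59.Fib.K

open Finset

/-- The elements `t - v < t - a` (`a < v`) are incomparable. -/
def incr (c a v : ℕ) : Bool := (offs ((c + 15 - a) % 15)).testBit (v - a)

def incs (c a v : ℕ) : Bool := if a < v then incr c a v else incr c v a

def chkPat (c d1 d2 : ℕ) : Bool :=
  decide (d1 < 6) && decide (1 ≤ d2) && decide (d2 ≤ d1) && (offs c).testBit d1 &&
  (offs c).testBit d2 && (decide (d1 = d2) || incr c d2 d1) &&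
  (List.range 5).all (fun v => decide (v + 1 = d1) || decide (v + 1 = d2) ||
    !(offs c).testBit (v + 1) || !incs c d1 (v + 1) || !incs c d2 (v + 1)) &&
  (List.range 5).all (fun u => !(offs ((c + (u + 1)) % 15)).testBit (u + 1) ||
    !(offs ((c + (u + 1)) % 15)).testBit (u + 1 + d1) ||
    !(offs ((c + (u + 1)) % 15)).testBit (u + 1 + d2))

theorem chkPat_all : ∀ c < 15, ∀ p ∈ pats c, chkPat c p.1 p.2 = true := by
  decide +kernel

structure PatOK (c d1 d2 : ℕ) : Prop where
  h1 : d1 < 6
  h2 : 1 ≤ d2
  h3 : d2 ≤ d1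
  h4 : (offs c).testBit d1 = true
  h5 : (offs c).testBit d2 = true
  h6 : d1 = d2 ∨ incr c d2 d1 = true
  h7 : ∀ v, 1 ≤ v → v ≤ 5 → v ≠ d1 → v ≠ d2 → (offs c).testBit v = false ∨
    incs c d1 v = false ∨ incs c d2 v = false
  h8 : ∀ u, 1 ≤ u → u ≤ 5 → (offs ((c + u) % 15)).testBit u = false ∨
    (offs ((c + u) % 15)).testBit (u + d1) = false ∨
    (offs ((c + u) % 15)).testBit (u + d2) = false

theorem patOK {c : ℕ} (hc : c < 15) {p : ℕ × ℕ} (hp : p ∈ pats c) : PatOK c p.1 p.2 := by
  have h := chkPat_all c hc p hp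
  unfold chkPat at h
  simp only [Bool.and_eq_true, decide_eq_true_eq, List.all_eq_true, Bool.or_eq_true,
    List.mem_range, Bool.not_eq_true'] at h
  obtain ⟨⟨⟨⟨⟨⟨⟨a1, a2⟩, a3⟩, a4⟩, a5⟩, a6⟩, a7⟩, a8⟩ := h
  refine ⟨a1, a2, a3, a4, a5, a6, ?_, ?_⟩
  · intro v hv1 hv2 hv3 hv4
    obtain ⟨w, rfl⟩ : ∃ w, v = w + 1 := ⟨v - 1, by omega⟩
    rcases a7 w (by omega) with (((b | b) | b) | b) | b
    · exact absurd b hv3
    · exact absurd b hv4
    · exact Or.inl b
    · exact Or.inr (Or.inl b)
    · exact Or.inr (Or.inr b)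
  · intro u hu1 hu2
    obtain ⟨w, rfl⟩ : ∃ w, u = w + 1 := ⟨u - 1, by omega⟩
    rcases a8 w (by omega) with (b | b) | b
    · exact Or.inl b
    · exact Or.inr (Or.inl b)
    · exact Or.inr (Or.inr b)

theorem bad_sub {t a v : ℕ} (ht : v ≤ t) (ha : a < v) (hv : a ≤ 15) :
    bad (t - v) (t - a) = incr (t % 15) a v := by
  unfold bad incr
  rw [show t - a - (t - v) = v - a by omega, show (t - a) % 15 = (t % 15 + 15 - a) % 15 by omega]

theorem bad_add {t a u : ℕ} (ht : a ≤ t) :
    bad (t - a) (t + u) = (offs ((t % 15 + u) % 15)).testBit (u + a) := by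
  unfold bad
  rw [show t + u - (t - a) = u + a by omega, show (t + u) % 15 = (t % 15 + u) % 15 by omega]

theorem maxAntichain {n t d1 d2 : ℕ} (ht : 5 ≤ t) (htn : t < n) (h : PatOK (t % 15) d1 d2) :
    @IsMaxAntichain (Fin n) (po n).le
      {x : Fin n | (x : ℕ) = t ∨ (x : ℕ) = t - d1 ∨ (x : ℕ) = t - d2} := by
  have a1 := h.h1
  have a2 := h.h2
  have a3 := h.h3
  have hb1 : bad (t - d1) t = true := by
    have := bad_sub (t := t) (a := 0) (v := d1) (by omega) (by omega) (by omega)
    rw [Nat.sub_zero] at this
    rw [this]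
    unfold incr
    rw [show (t % 15 + 15 - 0) % 15 = t % 15 by omega, Nat.sub_zero]
    exact h.h4
  have hb2 : bad (t - d2) t = true := by
    have := bad_sub (t := t) (a := 0) (v := d2) (by omega) (by omega) (by omega)
    rw [Nat.sub_zero] at this
    rw [this]
    unfold incr
    rw [show (t % 15 + 15 - 0) % 15 = t % 15 by omega, Nat.sub_zero]
    exact h.h5
  constructor
  · intro x hx y hy hxy hle
    have hne : (x : ℕ) ≠ (y : ℕ) := fun h' => hxy (Fin.ext h')
    rcases hle with hle | ⟨hlt, hbad⟩
    · exact hxy hle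
    · rcases hx with hx | hx | hx <;> rcases hy with hy | hy | hy
      · omega
      · omega
      · omega
      · rw [hx, hy, hb1] at hbad; exact absurd hbad (by simp)
      · omega
      · rcases h.h6 with h6 | h6
        · omega
        · rw [hx, hy, bad_sub (by omega) (by omega) (by omega), h6] at hbad
          exact absurd hbad (by simp)
      · rw [hx, hy, hb2] at hbad; exact absurd hbad (by simp)
      · omega
      · omega
  · intro B hB hAB
    apply Set.Subset.antisymm hAB
    intro z hz
    by_contra hzA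
    have hzA' : (z : ℕ) ≠ t ∧ (z : ℕ) ≠ t - d1 ∧ (z : ℕ) ≠ t - d2 := by
      refine ⟨fun h' => hzA (Or.inl h'), fun h' => hzA (Or.inr (Or.inl h')),
        fun h' => hzA (Or.inr (Or.inr h'))⟩
    obtain ⟨z1, z2, z3⟩ := hzA'
    -- a comparable element of the antichain gives a contradiction
    have key : ∀ a : ℕ, (a = 0 ∨ a = d1 ∨ a = d2) →
        ((z : ℕ) < t - a → bad z (t - a) = true) ∧ (t - a < (z : ℕ) → bad (t - a) z = true) := by
      intro a ha
      have hat : t - a < n := by omega
      have hmem : (⟨t - a, hat⟩ : Fin n) ∈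
          ({x : Fin n | (x : ℕ) = t ∨ (x : ℕ) = t - d1 ∨ (x : ℕ) = t - d2} : Set (Fin n)) := by
        rcases ha with rfl | rfl | rfl
        · left; simp
        · right; left; rfl
        · right; right; rfl
      have hB' := hAB hmem
      have hne : z ≠ ⟨t - a, hat⟩ := fun h' => hzA (h' ▸ hmem)
      constructor
      · intro hlt
        by_contra hcon
        have hf : bad z (t - a) = false := by simpa using hcon
        exact hB hz hB' hne (Or.inr ⟨hlt, hf⟩)
      · intro hlt
        by_contra hcon
        have hf : bad (t - a) z = false := by simpa using hcon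
        exact hB hB' hz hne.symm (Or.inr ⟨hlt, hf⟩)
    rcases lt_trichotomy (z : ℕ) t with hlt | heq | hgt
    · have k0 := (key 0 (Or.inl rfl)).1 (by omega)
      rw [Nat.sub_zero] at k0
      have hle := bad_le k0
      obtain ⟨v, hv, hv1, hv2⟩ : ∃ v, (z : ℕ) = t - v ∧ 1 ≤ v ∧ v ≤ 5 :=
        ⟨t - z, by omega, by omega, by omega⟩
      have hv3 : v ≠ d1 := by rintro rfl; exact z2 hv
      have hv4 : v ≠ d2 := by rintro rfl; exact z3 hv
      rcases h.h7 v hv1 hv2 hv3 hv4 with h7 | h7 | h7
      · have := bad_sub (t := t) (a := 0) (v := v) (by omega) (by omega) (by omega)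
        rw [Nat.sub_zero] at this
        rw [hv, this] at k0
        unfold incr at k0
        rw [show (t % 15 + 15 - 0) % 15 = t % 15 by omega, Nat.sub_zero, h7] at k0
        exact absurd k0 (by simp)
      · unfold incs at h7
        have k1 := key d1 (Or.inr (Or.inl rfl))
        split_ifs at h7 with h9
        · have := k1.1 (by omega)
          rw [hv, bad_sub (by omega) h9 (by omega), h7] at this
          exact absurd this (by simp)
        · have := k1.2 (by omega)
          rw [hv, bad_sub (by omega) (by omega) (by omega), h7] at this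
          exact absurd this (by simp)
      · unfold incs at h7
        have k1 := key d2 (Or.inr (Or.inr rfl))
        split_ifs at h7 with h9
        · have := k1.1 (by omega)
          rw [hv, bad_sub (by omega) h9 (by omega), h7] at this
          exact absurd this (by simp)
        · have := k1.2 (by omega)
          rw [hv, bad_sub (by omega) (by omega) (by omega), h7] at this
          exact absurd this (by simp)
    · exact z1 heq
    · have k0 := (key 0 (Or.inl rfl)).2 (by omega)
      rw [Nat.sub_zero] at k0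
      have hle := bad_le k0
      obtain ⟨u, hu, hu1, hu2⟩ : ∃ u, (z : ℕ) = t + u ∧ 1 ≤ u ∧ u ≤ 5 :=
        ⟨z - t, by omega, by omega, by omega⟩
      have k1 := (key d1 (Or.inr (Or.inl rfl))).2 (by omega)
      have k2 := (key d2 (Or.inr (Or.inr rfl))).2 (by omega)
      rw [hu, bad_add (by omega)] at k1 k2
      have k3 : bad (t - 0) (t + u) = true := by rw [Nat.sub_zero, ← hu]; exact k0
      rw [bad_add (by omega), Nat.add_zero] at k3
      rcases h.h8 u hu1 hu2 with h8 | h8 | h8
      · rw [h8] at k3; exact absurd k3 (by simp)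
      · rw [h8] at k1; exact absurd k1 (by simp)
      · rw [h8] at k2; exact absurd k2 (by simp)

/-! ### Counting -/

/-- The window of the last five elements. -/
def win (b : ℕ → Bool) : ℕ → ℕ
  | 0 => 0
  | t + 1 => Nat.bit (b t) (win b t) % 2 ^ 5

theorem win_lt (b : ℕ → Bool) (t : ℕ) : win b t < 32 := by
  cases t with
  | zero => simp [win]
  | succ t => exact Nat.mod_lt _ (by norm_num)

theorem win_bit (b : ℕ → Bool) (t : ℕ) : ∀ i < 5, i < t →
    (win b t).testBit i = b (t - 1 - i) := by
  induction t with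
  | zero => intro i _ h; omega
  | succ t ih =>
    intro i hi hit
    unfold win
    rw [Nat.testBit_mod_two_pow]
    cases i with
    | zero => simp
    | succ i =>
      rw [Nat.testBit_bit_succ, ih i (by omega) (by omega)]
      have h1 : i + 1 < 5 := hi
      rw [show t + 1 - 1 - (i + 1) = t - 1 - i by omega]
      simp [h1]

def stepOK (c W : ℕ) (b : Bool) : Bool :=
  !(b || (pats c).all (fun p => W.testBit (p.1 - 1) || W.testBit (p.2 - 1))) ||
  decide (pot c W + 8 ≤ pot ((c + 1) % 15) (Nat.bit b W % 2 ^ 5) + (if b then 15 else 0))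

theorem stepOK_all : ∀ c < 15, ∀ W < 32, stepOK c W true = true ∧ stepOK c W false = true := by
  decide +kernel

theorem pot_le : ∀ c < 15, ∀ W < 32, pot c W ≤ 39 := by
  decide +kernel

theorem count_lower {n : ℕ} (b : ℕ → Bool)
    (hb : ∀ t, 15 ≤ t → t < n → b t = true ∨ ∀ p ∈ pats (t % 15),
      b (t - p.1) = true ∨ b (t - p.2) = true) (t : ℕ) (h15 : 15 ≤ t) (htn : t ≤ n) :
    8 * (t - 15) ≤ 15 * ((range t).filter (fun i => b i = true)).card + pot (t % 15) (win b t) := by
  induction t, h15 using Nat.le_induction with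
  | base => simp
  | succ t ht ih =>
    have ih' := ih (by omega)
    have hc : t % 15 < 15 := Nat.mod_lt _ (by norm_num)
    have hW := win_lt b t
    have hcard : ((range (t + 1)).filter (fun i => b i = true)).card
        = ((range t).filter (fun i => b i = true)).card + (if b t = true then 1 else 0) := by
      rw [range_add_one, filter_insert]
      split_ifs with h1
      · rw [card_insert_of_notMem (by simp)]
      · rfl
    have hmod : (t % 15 + 1) % 15 = (t + 1) % 15 := by omega
    have hcond : (b t || (pats (t % 15)).all (fun p => (win b t).testBit (p.1 - 1) ||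
        (win b t).testBit (p.2 - 1))) = true := by
      rw [Bool.or_eq_true]
      rcases hb t ht (by omega) with h1 | h1
      · exact Or.inl h1
      · right
        rw [List.all_eq_true]
        intro p hp
        have hok := patOK hc hp
        have a1 := hok.h1
        have a2 := hok.h2
        have a3 := hok.h3
        rw [Bool.or_eq_true, win_bit b t _ (by omega) (by omega),
          win_bit b t _ (by omega) (by omega)]
        rw [show t - 1 - (p.1 - 1) = t - p.1 by omega, show t - 1 - (p.2 - 1) = t - p.2 by omega]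
        exact h1 p hp
    have hs : stepOK (t % 15) (win b t) (b t) = true := by
      obtain ⟨s1, s2⟩ := stepOK_all (t % 15) hc (win b t) hW
      cases b t
      · exact s2
      · exact s1
    unfold stepOK at hs
    rw [hcond, Bool.not_true, Bool.false_or, decide_eq_true_eq, hmod] at hs
    rw [hcard]
    have hw : win b (t + 1) = Nat.bit (b t) (win b t) % 2 ^ 5 := rfl
    rw [← hw] at hs
    cases hbt : b t with
    | true => rw [hbt] at hs; simp only [if_true] at hs ⊢; omega
    | false => rw [hbt] at hs; simp at hs ⊢; omega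

theorem fibre_lower {n : ℕ} (F : Finset (Fin n))
    (hF : ∀ A : Set (Fin n), @IsMaxAntichain (Fin n) (po n).le A → A.Nontrivial → ∃ x ∈ A, x ∈ F) :
    8 * n ≤ 15 * F.card + 159 := by
  classical
  by_cases hn : n < 15
  · omega
  set b : ℕ → Bool := fun t => decide (∃ h : t < n, (⟨t, h⟩ : Fin n) ∈ F) with hbdef
  have hbt : ∀ t, b t = true ↔ ∃ h : t < n, (⟨t, h⟩ : Fin n) ∈ F := by
    intro t; simp [hbdef]
  have hb : ∀ t, 15 ≤ t → t < n → b t = true ∨ ∀ p ∈ pats (t % 15),
      b (t - p.1) = true ∨ b (t - p.2) = true := by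
    intro t ht htn
    by_cases h0 : b t = true
    · exact Or.inl h0
    · right
      intro p hp
      have hok := patOK (Nat.mod_lt t (by norm_num)) hp
      have a1 := hok.h1
      have a2 := hok.h2
      have a3 := hok.h3
      have hmax := maxAntichain (n := n) (by omega) htn hok
      obtain ⟨x, hx, hxF⟩ := hF _ hmax (by
        refine ⟨⟨t, htn⟩, Or.inl rfl, ⟨t - p.1, by omega⟩, Or.inr (Or.inl rfl), ?_⟩
        intro h'
        have := congrArg Fin.val h'
        simp only at this
        omega)
      rcases hx with hx | hx | hx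
      · exfalso
        apply h0
        rw [hbt]
        refine ⟨htn, ?_⟩
        have : x = ⟨t, htn⟩ := Fin.ext hx
        rw [← this]; exact hxF
      · left
        rw [hbt]
        refine ⟨by omega, ?_⟩
        have : x = ⟨t - p.1, by omega⟩ := Fin.ext hx
        rw [← this]; exact hxF
      · right
        rw [hbt]
        refine ⟨by omega, ?_⟩
        have : x = ⟨t - p.2, by omega⟩ := Fin.ext hx
        rw [← this]; exact hxF
  have hmain := count_lower b hb n (by omega) le_rfl
  have hp := pot_le (n % 15) (Nat.mod_lt _ (by norm_num)) (win b n) (win_lt b n)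
  have hcard : ((range n).filter (fun i => b i = true)).card ≤ F.card := by
    have : (range n).filter (fun i => b i = true) ⊆ F.image (fun x : Fin n => (x : ℕ)) := by
      intro i hi
      rw [mem_filter, hbt] at hi
      obtain ⟨-, h1, h2⟩ := hi
      rw [mem_image]
      exact ⟨_, h2, rfl⟩
    exact (card_le_card this).trans card_image_le
  omega

/-! ### At most four active elements -/

def actSet (c : ℕ) : Finset ℕ :=
  (range 6).filter (fun v => 1 ≤ v ∧ ∃ u ∈ range 6, (offs ((c + u) % 15)).testBit (u + v) = true)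

theorem actSet_card : ∀ c < 15, (actSet c).card ≤ 4 := by
  decide +kernel

theorem active_le {n : ℕ} (t : ℕ) :
    ({x : Fin n | (x : ℕ) < t ∧ ∃ y : Fin n, t ≤ (y : ℕ) ∧ ¬ (po n).le x y ∧ ¬ (po n).le y x}
      : Set (Fin n)).ncard ≤ 4 := by
  classical
  refine le_trans ?_ (actSet_card (t % 15) (Nat.mod_lt _ (by norm_num)))
  rw [← Set.ncard_coe_finset]
  apply Set.ncard_le_ncard_of_injOn (fun x : Fin n => t - (x : ℕ))
  · rintro x ⟨hx, y, hy, h1, -⟩
    have hxy : (x : ℕ) < (y : ℕ) := lt_of_lt_of_le hx hy
    have hbad : bad x y = true := by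
      by_contra hcon
      exact h1 (Or.inr ⟨hxy, by simpa using hcon⟩)
    clear h1
    have hle := bad_le hbad
    change t - (x : ℕ) ∈ ((actSet (t % 15) : Finset ℕ) : Set ℕ)
    rw [mem_coe]
    unfold actSet
    rw [mem_filter, mem_range]
    refine ⟨by omega, by omega, (y : ℕ) - t, by rw [mem_range]; omega, ?_⟩
    unfold bad at hbad
    rw [show (t % 15 + ((y : ℕ) - t)) % 15 = (y : ℕ) % 15 by omega,
      show (y : ℕ) - t + (t - (x : ℕ)) = (y : ℕ) - (x : ℕ) by omega]
    exact hbad
  · rintro x ⟨hx, -⟩ x' ⟨hx', -⟩ h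
    apply Fin.ext
    simp only at h
    omega

end Pool.Agent.H59.Fib.K
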