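import Pool.Agent.H59.Fib.K.Sweep

namespace Pool.Agent.H59.Fib.K

open Finset

variable {P : Type*} [PartialOrder P] [Fintype P] {n : ℕ}

theorem step (q : ℕ) (S : Sys) (e : P ≃ Fin n) (he : ∀ x y : P, x < y → e x < e y) (K : ℕ)
    (hK : ∀ t, (Act e t).card ≤ K)
    (hS : ∀ j < S.N, ∀ D < 2 ^ (S.k j), ∀ U < 2 ^ (S.k j + 1),
      Valid (S.k j) (S.lt j) K D U → ∃ j' σ, StepOK q S j D U j' σ)
    {t j : ℕ} (ht : t < n) (hj : j < S.N) (h : Inv q S e t j) :
    ∃ j' < S.N, Inv q S e (t + 1) j' := by
  classical
  obtain ⟨r, hr1, hr2, hr3, hr4⟩ := h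
  set k := S.k j with hk
  set y : P := e.symm ⟨t, ht⟩ with hydef
  have hy : (e y : ℕ) = t := by simp [hydef]
  have he' : ∀ x z : P, x < z → (e x : ℕ) < (e z : ℕ) := fun x z hxz => he x z hxz
  have hele : ∀ x z : P, x ≤ z → (e x : ℕ) ≤ (e z : ℕ) := by
    intro x z hxz
    rcases lt_or_eq_of_le hxz with h1 | h1
    · exact (he' x z h1).le
    · rw [h1]
  have heq : ∀ x : P, (e x : ℕ) = t → x = y := by
    intro x hx
    apply e.injective
    apply Fin.ext
    rw [hx, hy]
  have hpast : ∀ x, x ∈ Past e (t + 1) ↔ x ∈ Past e t ∨ x = y := by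
    intro x
    rw [mem_Past, mem_Past]
    constructor
    · intro hx
      rcases Nat.lt_succ_iff_lt_or_eq.1 hx with h1 | h1
      · exact Or.inl h1
      · exact Or.inr (heq x h1)
    · rintro (h1 | h1)
      · omega
      · rw [h1, hy]; omega
  have hyP : y ∉ Past e t := by rw [mem_Past, hy]; omega
  have hnle : ∀ x, (e x : ℕ) < t → ¬ y ≤ x := by
    intro x hx hle
    have := hele y x hle
    omega
  -- incomparable elements of the past are active
  have hact1 : ∀ x, (e x : ℕ) < t → ¬ x ≤ y → x ∈ Act e t := by
    intro x hx h1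
    rw [mem_Act]
    exact ⟨hx, y, by omega, h1, hnle x hx⟩
  have hact2 : ∀ x, x ∈ Act e (t + 1) → x ≠ y → x ∈ Act e t := by
    intro x hx hxy
    rw [mem_Act] at hx ⊢
    obtain ⟨h1, z, hz, h2, h3⟩ := hx
    refine ⟨?_, z, by omega, h2, h3⟩
    rcases Nat.lt_succ_iff_lt_or_eq.1 h1 with h4 | h4
    · exact h4
    · exact absurd (heq x h4) hxy
  have hact3 : ∀ x, x ∈ Act e t → x < y → x ∈ Act e (t + 1) ∧ y ∈ Act e (t + 1) := by
    intro x hx hxy
    rw [mem_Act] at hx
    obtain ⟨h1, z, hz, h2, h3⟩ := hx
    have hzy : z ≠ y := by rintro rfl; exact h2 hxy.le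
    have hz' : t + 1 ≤ (e z : ℕ) := by
      rcases Nat.lt_or_eq_of_le hz with h4 | h4
      · exact h4
      · exact absurd (heq z h4.symm) hzy
    constructor
    · rw [mem_Act]; exact ⟨by omega, z, hz', h2, h3⟩
    · rw [mem_Act]
      refine ⟨by omega, z, hz', fun h5 => h2 (hxy.le.trans h5), fun h5 => ?_⟩
      have := hele z y h5
      omega
  have hrP : ∀ i < k, (e (r i) : ℕ) < t := fun i hi => (mem_Act.1 (hr1 i hi)).1
  set r2 : ℕ → P := fun i => if i = k then y else r i with hr2def
  have hr2k : r2 k = y := by simp [hr2def]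
  have hr2i : ∀ i < k, r2 i = r i := by
    intro i hi
    have : i ≠ k := by omega
    simp [hr2def, this]
  have hrny : ∀ i < k, r i ≠ y := by
    intro i hi h1
    have := hrP i hi
    rw [h1, hy] at this
    omega
  have hr2inj : ∀ a ≤ k, ∀ b ≤ k, r2 a = r2 b → a = b := by
    intro a ha b hb hab
    rcases Nat.lt_or_eq_of_le ha with ha | ha <;> rcases Nat.lt_or_eq_of_le hb with hb | hb
    · rw [hr2i a ha, hr2i b hb] at hab
      exact hr2 a ha b hb hab
    · rw [hr2i a ha, hb, hr2k] at hab
      exact absurd hab (hrny a ha)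
    · rw [hr2i b hb, ha, hr2k] at hab
      exact absurd hab.symm (hrny b hb)
    · omega
  obtain ⟨D, hDlt, hD⟩ := exists_mask k (fun i => r i < y)
  obtain ⟨U, hUlt, hU⟩ := exists_mask (k + 1) (fun i => r2 i ∈ Act e (t + 1))
  have hltx : ∀ a ≤ k, ∀ b ≤ k, (r2 a < r2 b ↔ ltx k (S.lt j) D a b = true) := by
    intro a ha b hb
    unfold ltx
    by_cases hbk : b = k
    · rw [if_pos hbk, hbk, hr2k]
      rcases Nat.lt_or_eq_of_le ha with ha | ha
      · rw [hr2i a ha, Bool.and_eq_true, decide_eq_true_iff, hD]
        tauto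
      · rw [ha, hr2k]
        simp
    · rw [if_neg hbk]
      have hb' : b < k := by omega
      rw [hr2i b hb']
      by_cases hak : a = k
      · rw [if_pos hak, hak, hr2k]
        constructor
        · intro h1; exact absurd h1.le (hnle _ (hrP b hb'))
        · intro h1; simp at h1
      · rw [if_neg hak, hr2i a (by omega)]
        exact hr3 a (by omega) b hb'
  have hvalid : Valid k (S.lt j) K D U := by
    refine ⟨?_, ?_, ?_, ?_, ?_⟩
    · intro a ha b hb hab h1
      rw [hD] at h1 ⊢
      exact ⟨ha, ((hr3 a ha b hb).2 hab).trans h1.2⟩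
    · intro a ha h1
      rw [hD] at h1
      rw [hU, hr2i a ha]
      exact ⟨by omega, (hact3 _ (hr1 a ha) h1.2).1⟩
    · intro h1
      apply Nat.eq_of_testBit_eq
      intro i
      rw [Nat.zero_testBit]
      by_contra h2
      have h3 : D.testBit i = true := by simpa using h2
      rw [hD] at h3
      have h4 := (hact3 _ (hr1 i h3.1) h3.2).2
      have h5 : U.testBit k = true := by
        rw [hU, hr2k]; exact ⟨by omega, h4⟩
      rw [h1] at h5
      exact absurd h5 (by simp)
    · intro a ha b hb hab h1
      rw [hU] at h1 ⊢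
      rw [hr2i a ha] at h1
      rw [hr2i b hb]
      refine ⟨by omega, ?_⟩
      have hlt := (hr3 a ha b hb).2 hab
      obtain ⟨-, h2⟩ := h1
      rw [mem_Act] at h2 ⊢
      obtain ⟨-, z, hz, h3, h4⟩ := h2
      have hbt := hrP b hb
      refine ⟨by omega, z, hz, fun h5 => h3 (hlt.le.trans h5), fun h5 => ?_⟩
      have := hele z _ h5
      omega
    · refine le_trans ?_ (hK (t + 1))
      apply card_le_card_of_injOn r2
      · intro i hi
        have hi' : i ∈ (range (k + 1)).filter (fun i => U.testBit i = true) := hi
        rw [mem_filter, hU] at hi'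
        exact hi'.2.2
      · intro a ha b hb hab
        have ha' : a ∈ (range (k + 1)).filter (fun i => U.testBit i = true) := ha
        have hb' : b ∈ (range (k + 1)).filter (fun i => U.testBit i = true) := hb
        rw [mem_filter, mem_range] at ha' hb'
        exact hr2inj a (by omega) b (by omega) hab
  obtain ⟨j', σ, hj', hinj, hmem, hrel, hwit⟩ := hS j hj D hDlt U hUlt hvalid
  refine ⟨j', hj', fun a => r2 (σ a), ?_, ?_, ?_, ?_⟩
  · intro a ha
    have h1 := (hmem a ha).2
    rw [hU] at h1
    exact h1.2
  · intro a ha b hb hab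
    exact hinj a ha b hb (hr2inj _ (hmem a ha).1 _ (hmem b hb).1 hab)
  · intro a ha b hb
    rw [hrel a ha b hb]
    exact hltx _ (hmem a ha).1 _ (hmem b hb).1
  · intro G' hG'
    obtain ⟨G, hG, hw1, hw2, hw3, hw4⟩ := hwit G' hG'
    obtain ⟨F, hF1, hF2, hF3, hF4, hF5⟩ := hr4 (G % 2 ^ k) (Nat.mod_lt _ (by positivity))
    have hGbit : ∀ i < k, G.testBit i = true → (G % 2 ^ k).testBit i = true := by
      intro i hi h1
      rw [Nat.testBit_mod_two_pow]
      simp [hi, h1]
    set F' : Finset P := if G.testBit k = true then insert y F else F with hF'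
    have hFF' : F ⊆ F' := by
      rw [hF']; split_ifs
      · exact subset_insert _ _
      · exact Finset.Subset.refl _
    have hyF' : G.testBit k = true → y ∈ F' := by
      intro h1; rw [hF', if_pos h1]; exact mem_insert_self _ _
    have hF'mem : ∀ x, x ∈ F' → x ∈ F ∨ x = y := by
      intro x hx
      rw [hF'] at hx
      split_ifs at hx
      · rcases mem_insert.1 hx with h1 | h1
        · exact Or.inr h1
        · exact Or.inl h1
      · exact Or.inl hx
    refine ⟨F', ?_, ?_, ?_, ?_, ?_⟩
    · intro x hx
      rw [hpast]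
      rcases hF'mem x hx with h1 | h1
      · exact Or.inl (hF1 h1)
      · exact Or.inr h1
    · intro x hx hxF
      by_contra hno
      push Not at hno
      by_cases hxy : x = y
      · have h1 : U.testBit k = true := by
          rw [hU, hr2k]; exact ⟨by omega, hxy ▸ hx⟩
        have h2 := hw2 k le_rfl h1 (by
          intro a ha hak
          apply hno a ha
          show r2 (σ a) = x
          rw [hak, hr2k, hxy])
        exact hxF (hxy ▸ hyF' h2)
      · have h1 := hact2 x hx hxy
        obtain ⟨i, hi, hri⟩ := hF2 x h1 (fun h2 => hxF (hFF' h2))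
        have h2 : U.testBit i = true := by
          rw [hU, hr2i i hi, hri]; exact ⟨by omega, hx⟩
        have h3 := hw2 i hi.le h2 (by
          intro a ha hak
          apply hno a ha
          show r2 (σ a) = x
          rw [hak, hr2i i hi, hri])
        have h4 := hF3 i hi (hGbit i hi h3)
        rw [hri] at h4
        exact hxF (hFF' h4)
    · intro a ha h1
      have h2 := hw1 a ha h1
      have h3 := (hmem a ha).1
      show r2 (σ a) ∈ F'
      rcases Nat.lt_or_eq_of_le h3 with h4 | h4
      · rw [hr2i _ h4]
        exact hFF' (hF3 _ h4 (hGbit _ h4 h2))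
      · rw [h4, hr2k]
        rw [h4] at h2
        exact hyF' h2
    · have h1 : (F'.card : ℤ) ≤ F.card + (if G.testBit k = true then 1 else 0) := by
        rw [hF']
        split_ifs with h2
        · have := card_insert_le y F
          exact_mod_cast this
        · simp
      have h2 : (q : ℤ) * (if G.testBit k = true then 1 else 0)
          = (if G.testBit k = true then (q : ℤ) else 0) := by split_ifs <;> simp
      have h6 : (q : ℤ) * F'.card ≤ q * (F.card + (if G.testBit k = true then 1 else 0)) :=
        mul_le_mul_of_nonneg_left h1 (by positivity)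
      rw [mul_add, h2] at h6
      have h3 : ((t + 1 : ℕ) : ℤ) = (t : ℤ) + 1 := by push_cast; ring
      rw [h3]
      have h4 := hw3
      have h5 := hF4
      linarith
    · intro A hA hcard hdis
      obtain ⟨hA1, hA2, hA3⟩ := hA
      have key : ∀ m, (∀ i, m.testBit i = true → i ≤ k) →
          (∀ x, x ∈ A ↔ ∃ i, i ≤ k ∧ m.testBit i = true ∧ r2 i = x) →
          NewE k (S.lt j) (S.E j) D m → ∃ m < 2 ^ (S.k j'), S.E j' m = true ∧
          ∀ x, x ∈ A ↔ ∃ i < S.k j', m.testBit i = true ∧ r2 (σ i) = x := by
        intro m hmk hAm hnew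
        rcases hw4 m hnew with ⟨i, hi1, hi2⟩ | ⟨m', hm', hE, hmm⟩
        · exfalso
          have hik := hmk i hi1
          have h1 : r2 i ∈ A := (hAm _).2 ⟨i, hik, hi1, rfl⟩
          apply hdis _ h1
          rcases Nat.lt_or_eq_of_le hik with h4 | h4
          · rw [hr2i _ h4]
            exact hFF' (hF3 _ h4 (hGbit _ h4 hi2))
          · rw [h4, hr2k]
            rw [h4] at hi2
            exact hyF' hi2
        · refine ⟨m', hm', hE, fun x => ?_⟩
          rw [hAm]
          constructor
          · rintro ⟨i, -, h2, h3⟩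
            obtain ⟨a, ha, h4, h5⟩ := (hmm i).1 h2
            exact ⟨a, ha, h4, by rw [h5]; exact h3⟩
          · rintro ⟨a, ha, h2, h3⟩
            exact ⟨σ a, (hmem a ha).1, (hmm (σ a)).2 ⟨a, ha, h2, rfl⟩, h3⟩
      by_cases hyA : y ∈ A
      · -- new antichains
        have hAx : ∀ x ∈ A, x ≠ y → (e x : ℕ) < t ∧ ¬ x ≤ y ∧ ∃ i < k, r i = x := by
          intro x hx hxy
          have h1 : x ∈ Past e t := by
            rcases (hpast x).1 (hA1 hx) with h1 | h1
            · exact h1
            · exact absurd h1 hxy
          rw [mem_Past] at h1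
          have h2 : ¬ x ≤ y := by
            intro h2
            rcases lt_or_eq_of_le h2 with h3 | h3
            · exact hA2 x hx y hyA h3
            · exact hxy h3
          exact ⟨h1, h2, hF2 x (hact1 x h1 h2) (fun h3 => hdis x hx (hFF' h3))⟩
        obtain ⟨m, hmlt, hm⟩ := exists_mask (k + 1) (fun i => r2 i ∈ A)
        apply key m
        · intro i hi
          rw [hm] at hi
          omega
        · intro x
          constructor
          · intro hx
            by_cases hxy : x = y
            · refine ⟨k, le_rfl, ?_, by rw [hr2k, hxy]⟩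
              rw [hm, hr2k]
              exact ⟨by omega, hyA⟩
            · obtain ⟨-, -, i, hi, hri⟩ := hAx x hx hxy
              refine ⟨i, hi.le, ?_, by rw [hr2i i hi, hri]⟩
              rw [hm, hr2i i hi, hri]
              exact ⟨by omega, hx⟩
          · rintro ⟨i, hi, h1, h2⟩
            rw [hm] at h1
            rw [← h2]
            exact h1.2
        · right
          refine ⟨hmlt, ?_, ?_, ?_, ?_, ?_⟩
          · rw [hm, hr2k]; exact ⟨by omega, hyA⟩
          · obtain ⟨x, hx, hxy⟩ := exists_mem_ne hcard y
            obtain ⟨-, -, i, hi, hri⟩ := hAx x hx hxy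
            refine ⟨i, hi, ?_⟩
            rw [hm, hr2i i hi, hri]
            exact ⟨by omega, hx⟩
          · intro i hi h1
            rw [hm, hr2i i hi] at h1
            by_contra h2
            have h3 : D.testBit i = true := by simpa using h2
            rw [hD] at h3
            exact hA2 _ h1.2 _ hyA h3.2
          · intro a ha b hb h1 h2
            rw [hm, hr2i a ha] at h1
            rw [hm, hr2i b hb] at h2
            by_contra h3
            have h4 : S.lt j a b = true := by simpa using h3
            exact hA2 _ h1.2 _ h2.2 ((hr3 a ha b hb).2 h4)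
          · intro i hi h1 h2
            have h3 : ¬ r i < y := by
              intro h3
              have : D.testBit i = true := (hD i).2 ⟨hi, h3⟩
              rw [h1] at this
              exact absurd this (by simp)
            have h4 : r i ∉ A := by
              intro h4
              have : m.testBit i = true := by
                rw [hm, hr2i i hi]; exact ⟨by omega, h4⟩
              rw [h2] at this
              exact absurd this (by simp)
            have h5 : r i ∈ Past e (t + 1) := by
              rw [mem_Past]; have := hrP i hi; omega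
            obtain ⟨a, ha, hcomp⟩ := hA3 _ h5 h4
            have hay : a ≠ y := by
              rintro rfl
              rcases hcomp with h6 | h6
              · exact hnle _ (hrP i hi) h6.le
              · exact h3 h6
            obtain ⟨-, -, b, hb, hrb⟩ := hAx a ha hay
            refine ⟨b, hb, ?_, ?_⟩
            · rw [hm, hr2i b hb, hrb]; exact ⟨by omega, ha⟩
            · rw [← hrb] at hcomp
              rcases hcomp with h6 | h6
              · exact Or.inl ((hr3 b hb i hi).1 h6)
              · exact Or.inr ((hr3 i hi b hb).1 h6)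
      · -- old antichains
        have hAP : A ⊆ Past e t := by
          intro x hx
          rcases (hpast x).1 (hA1 hx) with h1 | h1
          · exact h1
          · exact absurd (h1 ▸ hx) hyA
        have hAmax : MaxIn e t A := by
          refine ⟨hAP, hA2, fun x hx hxA => ?_⟩
          exact hA3 x ((hpast x).2 (Or.inl hx)) hxA
        obtain ⟨m, hmlt, hE, hm⟩ := hF5 A hAmax hcard (fun x hx h1 => hdis x hx (hFF' h1))
        have hmk : ∀ i, m.testBit i = true → i < k := by
          intro i hi
          by_contra h1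
          have : m.testBit i = false := by
            apply Nat.testBit_lt_two_pow
            exact lt_of_lt_of_le hmlt (Nat.pow_le_pow_right (by norm_num) (by omega))
          rw [this] at hi
          exact absurd hi (by simp)
        apply key m
        · intro i hi; exact (hmk i hi).le
        · intro x
          rw [hm]
          constructor
          · rintro ⟨i, hi, h1, h2⟩
            exact ⟨i, hi.le, h1, by rw [hr2i i hi]; exact h2⟩
          · rintro ⟨i, hi, h1, h2⟩
            have hik := hmk i h1
            rw [hr2i i hik] at h2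
            exact ⟨i, hik, h1, h2⟩
        · left
          refine ⟨hmlt, hE, ?_⟩
          have h1 : y ∈ Past e (t + 1) := (hpast y).2 (Or.inr rfl)
          obtain ⟨a, ha, hcomp⟩ := hA3 y h1 hyA
          obtain ⟨i, hi, h2, h3⟩ := (hm a).1 ha
          have haP := hrP i hi
          rw [h3] at haP
          have h4 : a < y := by
            rcases hcomp with h4 | h4
            · exact h4
            · exact absurd h4.le (hnle _ haP)
          refine ⟨i, hi, h2, ?_⟩
          rw [hD, h3]
          exact ⟨hi, h4⟩

/-- The bound. -/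
theorem bound (q : ℕ) (S : Sys) (e : P ≃ Fin n) (he : ∀ x y : P, x < y → e x < e y) (K : ℕ)
    (hK : ∀ t, (Act e t).card ≤ K)
    (h0 : 0 < S.N ∧ S.k 0 = 0 ∧ 0 ≤ S.pr 0 0)
    (hend : ∀ j < S.N, S.k j = 0 → S.pr j 0 ≤ 0)
    (hS : ∀ j < S.N, ∀ D < 2 ^ (S.k j), ∀ U < 2 ^ (S.k j + 1),
      Valid (S.k j) (S.lt j) K D U → ∃ j' σ, StepOK q S j D U j' σ) [Nonempty P] :
    ∃ F : Finset P, q * F.card ≤ 8 * n ∧
      ∀ A : Finset P, (∀ a ∈ A, ∀ b ∈ A, ¬ a < b) → (∀ x, x ∉ A → ∃ a ∈ A, a < x ∨ x < a) →
        1 < A.card → ∃ x ∈ A, x ∈ F := by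
  classical
  have hinv : ∀ t ≤ n, ∃ j < S.N, Inv q S e t j := by
    intro t
    induction t with
    | zero =>
      intro _
      obtain ⟨x0⟩ := ‹Nonempty P›
      refine ⟨0, h0.1, fun _ => x0, ?_, ?_, ?_, ?_⟩
      · intro i hi; rw [h0.2.1] at hi; omega
      · intro i hi; rw [h0.2.1] at hi; omega
      · intro i hi; rw [h0.2.1] at hi; omega
      · intro G hG
        rw [h0.2.1] at hG
        have hG0 : G = 0 := by simpa using hG
        refine ⟨∅, by simp, ?_, ?_, ?_, ?_⟩
        · intro x hx
          rw [mem_Act] at hx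
          omega
        · intro i hi; rw [h0.2.1] at hi; omega
        · rw [hG0]
          simpa using h0.2.2
        · intro A hA hcard
          obtain ⟨x, hx⟩ := card_pos.1 (by omega : 0 < A.card)
          have := hA.1 hx
          rw [mem_Past] at this
          omega
    | succ t ih =>
      intro ht
      obtain ⟨j, hj, h⟩ := ih (by omega)
      exact step q S e he K hK hS (by omega) hj h
  obtain ⟨j, hj, r, hr1, hr2, hr3, hr4⟩ := hinv n le_rfl
  have hk0 : S.k j = 0 := by
    by_contra hne
    have h1 := hr1 0 (Nat.pos_of_ne_zero hne)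
    rw [mem_Act] at h1
    obtain ⟨-, z, hz, -⟩ := h1
    have := (e z).isLt
    omega
  obtain ⟨F, hF1, hF2, hF3, hF4, hF5⟩ := hr4 0 (by positivity)
  refine ⟨F, ?_, ?_⟩
  · have := hend j hj hk0
    have h1 : (q : ℤ) * F.card ≤ 8 * n := by linarith
    exact_mod_cast h1
  · intro A hA hmax hcard
    by_contra hno
    push Not at hno
    have hall : ∀ x : P, x ∈ Past e n := by
      intro x; rw [mem_Past]; exact (e x).isLt
    obtain ⟨m, -, -, hm⟩ := hF5 A ⟨fun x _ => hall x, hA, fun x _ hx => hmax x hx⟩ hcard hno
    obtain ⟨x, hx⟩ := card_pos.1 (by omega : 0 < A.card)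
    obtain ⟨i, hi, -⟩ := (hm x).1 hx
    rw [hk0] at hi
    omega

end Pool.Agent.H59.Fib.K
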