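import Mathlib

/-!
# Sweeping a finite ordered set along a linear extension

A finite family of states which is closed under adding one element gives a bound for the size of a
smallest fibre of every finite ordered set whose linear extension keeps few elements active.
-/

namespace Pool.Agent.H59.Fib.K

open Finset

/-- A family of states.  State `j < N` has an ordered set on `{0, ..., k j - 1}` with strict order
`lt j`, a family `E j` of waiting antichains (masks), and a profile `pr j` on masks. -/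
structure Sys where
  N : ℕ
  k : ℕ → ℕ
  lt : ℕ → ℕ → ℕ → Bool
  E : ℕ → ℕ → Bool
  pr : ℕ → ℕ → ℤ

/-- The order after adding the element `k` above the elements of the mask `D`. -/
def ltx (k : ℕ) (lt : ℕ → ℕ → Bool) (D a b : ℕ) : Bool :=
  if b = k then (decide (a < k) && D.testBit a) else if a = k then false else lt a b

/-- `m` is a new waiting antichain. -/
def NewE (k : ℕ) (lt : ℕ → ℕ → Bool) (E : ℕ → Bool) (D m : ℕ) : Prop :=
  (m < 2 ^ k ∧ E m = true ∧ ∃ i < k, m.testBit i = true ∧ D.testBit i = true) ∨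
  (m < 2 ^ (k + 1) ∧ m.testBit k = true ∧ (∃ i < k, m.testBit i = true) ∧
    (∀ i < k, m.testBit i = true → D.testBit i = false) ∧
    (∀ a < k, ∀ b < k, m.testBit a = true → m.testBit b = true → lt a b = false) ∧
    (∀ i < k, D.testBit i = false → m.testBit i = false →
      ∃ a < k, m.testBit a = true ∧ (lt a i = true ∨ lt i a = true)))

/-- The possible steps. -/
structure Valid (k : ℕ) (lt : ℕ → ℕ → Bool) (K D U : ℕ) : Prop where
  down : ∀ a < k, ∀ b < k, lt a b = true → D.testBit b = true → D.testBit a = true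
  stay : ∀ a < k, D.testBit a = true → U.testBit a = true
  new : U.testBit k = false → D = 0
  up : ∀ a < k, ∀ b < k, lt a b = true → U.testBit a = true → U.testBit b = true
  card : ((range (k + 1)).filter (fun i => U.testBit i = true)).card ≤ K

/-- The step from state `j` to state `j'`. -/
structure StepOK (q : ℕ) (S : Sys) (j D U j' : ℕ) (σ : ℕ → ℕ) : Prop where
  lt : j' < S.N
  inj : ∀ a < S.k j', ∀ b < S.k j', σ a = σ b → a = b
  mem : ∀ a < S.k j', σ a ≤ S.k j ∧ U.testBit (σ a) = true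
  rel : ∀ a < S.k j', ∀ b < S.k j', S.lt j' a b = ltx (S.k j) (S.lt j) D (σ a) (σ b)
  wit : ∀ G' < 2 ^ (S.k j'), ∃ G < 2 ^ (S.k j + 1),
    (∀ a < S.k j', G'.testBit a = true → G.testBit (σ a) = true) ∧
    (∀ i ≤ S.k j, U.testBit i = true → (∀ a < S.k j', σ a ≠ i) → G.testBit i = true) ∧
    (S.pr j (G % 2 ^ (S.k j)) + (if G.testBit (S.k j) = true then (q : ℤ) else 0) ≤ S.pr j' G' + 8) ∧
    (∀ m, NewE (S.k j) (S.lt j) (S.E j) D m → (∃ i, m.testBit i = true ∧ G.testBit i = true) ∨
      ∃ m' < 2 ^ (S.k j'), S.E j' m' = true ∧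
        ∀ i, m.testBit i = true ↔ ∃ a < S.k j', m'.testBit a = true ∧ σ a = i)

theorem exists_mask (n : ℕ) (p : ℕ → Prop) :
    ∃ m < 2 ^ n, ∀ i, m.testBit i = true ↔ i < n ∧ p i := by
  classical
  induction n with
  | zero => exact ⟨0, by simp, fun i => by simp⟩
  | succ n ih =>
    obtain ⟨m, hm, h⟩ := ih
    have hpow : 2 ^ (n + 1) = 2 ^ n + 2 ^ n := by rw [pow_succ]; omega
    by_cases hp : p n
    · refine ⟨2 ^ n + m, by omega, fun i => ?_⟩
      rcases lt_trichotomy i n with hi | hi | hi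
      · rw [Nat.testBit_two_pow_add_gt hi, h]
        constructor
        · rintro ⟨h1, h2⟩; exact ⟨by omega, h2⟩
        · rintro ⟨h1, h2⟩; exact ⟨hi, h2⟩
      · subst hi
        rw [Nat.testBit_two_pow_add_eq]
        have : m.testBit i = false := Nat.testBit_lt_two_pow hm
        simp [this, hp]
      · have h1 : (2 ^ n + m).testBit i = false := by
          apply Nat.testBit_lt_two_pow
          calc 2 ^ n + m < 2 ^ (n + 1) := by omega
            _ ≤ 2 ^ i := Nat.pow_le_pow_right (by norm_num) hi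
        rw [h1]
        constructor
        · intro h; simp at h
        · rintro ⟨h2, -⟩; omega
    · refine ⟨m, by omega, fun i => ?_⟩
      rw [h]
      constructor
      · rintro ⟨h1, h2⟩; exact ⟨by omega, h2⟩
      · rintro ⟨h1, h2⟩
        refine ⟨?_, h2⟩
        rcases Nat.lt_succ_iff_lt_or_eq.1 h1 with h3 | h3
        · exact h3
        · subst h3; exact absurd h2 hp

section

variable {P : Type*} [Fintype P] {n : ℕ}

open Classical in
/-- The elements before time `t`. -/
noncomputable def Past (e : P ≃ Fin n) (t : ℕ) : Finset P :=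
  univ.filter (fun x => (e x : ℕ) < t)

theorem mem_Past {e : P ≃ Fin n} {t : ℕ} {x : P} : x ∈ Past e t ↔ (e x : ℕ) < t := by
  simp [Past]

variable [PartialOrder P]

open Classical in
/-- The elements before time `t` which are incomparable to a later element. -/
noncomputable def Act (e : P ≃ Fin n) (t : ℕ) : Finset P :=
  univ.filter (fun x => (e x : ℕ) < t ∧ ∃ y : P, t ≤ (e y : ℕ) ∧ ¬ x ≤ y ∧ ¬ y ≤ x)

theorem mem_Act {e : P ≃ Fin n} {t : ℕ} {x : P} : x ∈ Act e t ↔
    (e x : ℕ) < t ∧ ∃ y : P, t ≤ (e y : ℕ) ∧ ¬ x ≤ y ∧ ¬ y ≤ x := by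
  simp [Act]

/-- `A` is a maximal antichain of the elements before time `t`. -/
def MaxIn (e : P ≃ Fin n) (t : ℕ) (A : Finset P) : Prop :=
  A ⊆ Past e t ∧ (∀ a ∈ A, ∀ b ∈ A, ¬ a < b) ∧
    ∀ x ∈ Past e t, x ∉ A → ∃ a ∈ A, a < x ∨ x < a

/-- The invariant of the sweep. -/
def Inv (q : ℕ) (S : Sys) (e : P ≃ Fin n) (t j : ℕ) : Prop :=
  ∃ r : ℕ → P, (∀ i < S.k j, r i ∈ Act e t) ∧
    (∀ a < S.k j, ∀ b < S.k j, r a = r b → a = b) ∧
    (∀ a < S.k j, ∀ b < S.k j, (r a < r b ↔ S.lt j a b = true)) ∧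
    ∀ G < 2 ^ (S.k j), ∃ F : Finset P, F ⊆ Past e t ∧
      (∀ x ∈ Act e t, x ∉ F → ∃ i < S.k j, r i = x) ∧
      (∀ i < S.k j, G.testBit i = true → r i ∈ F) ∧
      ((q : ℤ) * (F.card : ℤ) ≤ 8 * t + S.pr j G) ∧
      (∀ A : Finset P, MaxIn e t A → 1 < A.card → (∀ x ∈ A, x ∉ F) →
        ∃ m < 2 ^ (S.k j), S.E j m = true ∧
          ∀ x, x ∈ A ↔ ∃ i < S.k j, m.testBit i = true ∧ r i = x)

end

end Pool.Agent.H59.Fib.K
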