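import Pool.Agent.H59.Fib.K.Fast

/-! The table of the family of states for at most 3 active elements (found by computer). -/

namespace Pool.Agent.H59.Fib.K

/-- The masks which avoid a mask. -/
noncomputable def av3 : ℕ :=
  0x100000000000000030000000000000005000000000000000f00000000000000110000000000000033000000000000005500000000000000ff0000000000000101000000000000030300000000000005050000000000000f0f000000000000111100000000000033330000000000005555000000000000ffff00000000000100010000000000030003000000000005000500000000000f000f0000000000110011000000000033003300000000005500550000000000ff00ff000000000101010100000000030303030000000005050505000000000f0f0f0f00000000111111110000000033333333000000005555555500000000ffffffff0000000100000001000000030000000300000005000000050000000f0000000f000000110000001100000033000000330000005500000055000000ff000000ff00000101000001010000030300000303000005050000050500000f0f00000f0f0000111100001111000033330000333300005555000055550000ffff0000ffff000100010001000100030003000300030005000500050005000f000f000f000f00110011001100110033003300330033005500550055005500ff00ff00ff00ff0101010101010101030303030303030305050505050505050f0f0f0f0f0f0f0f111111111111111133333333333333335555555555555555ffffffffffffffff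

noncomputable def tab3_0 : ℕ :=
  0x483848384838483800000000000000880000040300000000000000000000000000000000000000000000000058484838483848380000000008000042600000330000000000000000000000000000000000000000000000005040504050404040000000000500008800000403000000000000000000000000000000000000000000000000505040405040403000000000000000c840000423000000000000000000000000000000000000000000000000484848484848483800000000000000ca600004330000000000000000000000000000000000000000000000005848484848483838000000000500008800000403000000000000000000000000000000000000000000000000584848484838383800000000010000c8400004230000000000000000000000000000000000000000000000005848484848383838000000001000000000000003000000000000000000000000000000000000000000000000505050405040403000000000000000ca600004330000000000000000000000000000000000000000000000005050504040404030000000000800004260000033000000000000000000000000000000000000000000000000584848384838382800000000000000ca6000043300000000000000000000000000000000000000000000000000000000504040400000000001000000000000020000000000000000000000000000000000000000000000000000000048484838000000000000000220000012000000000000000000000000000000000000000000000000000000005040403000000000000000022000001200000000000000000000000000000000000000000000000000000000000048380000000000000000000000010000000000000000000000000000000000000000000000000000000000000040000000000000000000000000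

/-- The states. -/
noncomputable def tab3 : ℕ :=
  tab3_0

end Pool.Agent.H59.Fib.K
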