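import Pool.Agent.H59.Fib.K.Blk3_0

/-! Three active elements. -/

namespace Pool.Agent.H59.Fib.K

theorem av3_ok : chkAV3 av3 = true := by decide +kernel

theorem end3 : chkEnd3 tab3 16 = true := by decide +kernel

theorem chk3 : ∀ j < 16, ∃ S, chkState3 16 av3 tab3 16 3 j S = true :=
  fun j hj => blk3_0 j (Nat.zero_le j) hj

end Pool.Agent.H59.Fib.K
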