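import Pool.Agent.H59.Fib.K.Blk5_0
import Pool.Agent.H59.Fib.K.Blk5_1
import Pool.Agent.H59.Fib.K.Blk5_2
import Pool.Agent.H59.Fib.K.Blk5_3
import Pool.Agent.H59.Fib.K.Blk5_4
import Pool.Agent.H59.Fib.K.Blk5_5
import Pool.Agent.H59.Fib.K.Blk5_6
import Pool.Agent.H59.Fib.K.Blk5_7
import Pool.Agent.H59.Fib.K.Blk5_8
import Pool.Agent.H59.Fib.K.Blk5_9
import Pool.Agent.H59.Fib.K.Blk5_10
import Pool.Agent.H59.Fib.K.Blk5_11
import Pool.Agent.H59.Fib.K.Blk5_12
import Pool.Agent.H59.Fib.K.Blk5_13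
import Pool.Agent.H59.Fib.K.Blk5_14
import Pool.Agent.H59.Fib.K.Blk5_15

/-! Five active elements. -/

namespace Pool.Agent.H59.Fib.K

theorem av5_ok : chkAV3 av5 = true := by decide +kernel

theorem end5 : chkEnd3 tab5 2916 = true := by decide +kernel

theorem all5 : AllOk 15 av5 tab5 2916 5 0 2916 :=
  ((((((((((((((blk5_0.trans blk5_1).trans blk5_2).trans blk5_3).trans blk5_4).trans
    blk5_5).trans blk5_6).trans blk5_7).trans blk5_8).trans blk5_9).trans blk5_10).trans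
    blk5_11).trans blk5_12).trans blk5_13).trans blk5_14).trans blk5_15

theorem chk5 : ∀ j < 2916, ∃ S, chkState3 15 av5 tab5 2916 5 j S = true :=
  fun j hj => all5 j (Nat.zero_le j) hj

end Pool.Agent.H59.Fib.K
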