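import Pool.Agent.H59.Fib.K.Check2

/-!
# Vectors of bytes

The faster checker works with many masks at once; a mask is one byte of a large number.
-/

namespace Pool.Agent.H59.Fib.K

/-- The byte `h` of `A`. -/
def fld (A h : ℕ) : ℕ := Nat.land (Nat.shiftRight A (Nat.mul 8 h)) 255

theorem fld_testBit (A h i : ℕ) : (fld A h).testBit i = (decide (i < 8) && A.testBit (8 * h + i)) := by
  change ((A >>> (8 * h)) &&& 255).testBit i = _
  rw [show (255 : ℕ) = 2 ^ 8 - 1 by norm_num, Nat.and_two_pow_sub_one_eq_mod,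
    Nat.testBit_mod_two_pow, Nat.testBit_shiftRight]

theorem fld_lt (A h : ℕ) : fld A h < 256 := by
  have : fld A h ≤ 255 := Nat.and_le_right
  omega

theorem fld_eq (A h : ℕ) : fld A h = A / 256 ^ h % 256 := by
  change (A >>> (8 * h)) &&& 255 = _
  rw [show (255 : ℕ) = 2 ^ 8 - 1 by norm_num, Nat.and_two_pow_sub_one_eq_mod,
    Nat.shiftRight_eq_div_pow, pow_mul]
  norm_num

theorem fld_zero (A : ℕ) : fld A 0 = A % 256 := by
  rw [fld_eq]; simp

theorem fld_succ (A h : ℕ) : fld A (h + 1) = fld (A / 256) h := by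
  rw [fld_eq, fld_eq, Nat.div_div_eq_div_mul, pow_succ']

theorem fld_land (A B h : ℕ) : fld (A &&& B) h = fld A h &&& fld B h := by
  apply Nat.eq_of_testBit_eq
  intro i
  rw [Nat.testBit_and, fld_testBit, fld_testBit, fld_testBit, Nat.testBit_and]
  by_cases h : i < 8 <;> simp [h]

/-- The number whose lowest `n` bytes are `1`. -/
def O (n : ℕ) : ℕ := Nat.div (Nat.sub (Nat.pow 2 (Nat.mul 8 n)) 1) 255

theorem O_eq (n : ℕ) : O n = (256 ^ n - 1) / 255 := by
  change (2 ^ (8 * n) - 1) / 255 = _
  rw [pow_mul]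
  norm_num

theorem O_zero : O 0 = 0 := by rw [O_eq]; simp

theorem O_succ (n : ℕ) : O (n + 1) = 1 + 256 * O n := by
  rw [O_eq, O_eq]
  have h : 256 ^ n % 255 = 1 := by
    rw [Nat.pow_mod]; norm_num
  have h1 : 1 ≤ 256 ^ n := Nat.one_le_pow _ _ (by norm_num)
  obtain ⟨m, hm⟩ : ∃ m, 256 ^ n = 255 * m + 1 := ⟨256 ^ n / 255, by omega⟩
  rw [pow_succ, hm]
  have h2 : (255 * m + 1) * 256 - 1 = 255 * (1 + 256 * m) := by omega
  rw [h2, Nat.mul_div_cancel_left _ (by norm_num), Nat.add_sub_cancel,
    Nat.mul_div_cancel_left _ (by norm_num)]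

theorem fld_addc (n : ℕ) : ∀ A c : ℕ, (∀ h < n, fld A h + c < 256) →
    ∀ h < n, fld (A + c * O n) h = fld A h + c := by
  induction n with
  | zero => intro A c _ h hh; omega
  | succ n ih =>
    intro A c hA h hh
    have e : A + c * O (n + 1) = (A % 256 + c) + 256 * (A / 256 + c * O n) := by
      rw [O_succ]
      have := Nat.div_add_mod A 256
      nlinarith
    have h0 := hA 0 (by omega)
    rw [fld_zero] at h0
    rw [e]
    cases h with
    | zero => rw [fld_zero, fld_zero, Nat.add_mul_mod_self_left, Nat.mod_eq_of_lt h0]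
    | succ h =>
      rw [fld_succ, fld_succ]
      have e2 : ((A % 256 + c) + 256 * (A / 256 + c * O n)) / 256 = A / 256 + c * O n := by
        rw [Nat.add_mul_div_left _ _ (by norm_num), Nat.div_eq_of_lt h0, Nat.zero_add]
      rw [e2]
      apply ih _ _ _ h (by omega)
      intro h' hh'
      have := hA (h' + 1) (by omega)
      rwa [fld_succ] at this

theorem fld_zero_left (h : ℕ) : fld 0 h = 0 := by rw [fld_eq]; simp

theorem fld_mulO {n c h : ℕ} (hc : c < 256) (hh : h < n) : fld (c * O n) h = c := by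
  have := fld_addc n 0 c (fun h' _ => by rw [fld_zero_left]; omega) h hh
  rw [Nat.zero_add, fld_zero_left, Nat.zero_add] at this
  exact this

theorem O_lt (n : ℕ) : O n < 256 ^ n := by
  rw [O_eq]
  have h1 : 1 ≤ 256 ^ n := Nat.one_le_pow _ _ (by norm_num)
  have := Nat.div_le_self (256 ^ n - 1) 255
  omega

theorem O_testBit {n h i : ℕ} (hh : h < n) (hi : i < 8) :
    (O n).testBit (8 * h + i) = decide (i = 0) := by
  have h1 := fld_mulO (n := n) (c := 1) (by norm_num) hh
  rw [Nat.one_mul] at h1
  have h2 := fld_testBit (O n) h i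
  rw [h1] at h2
  simp only [hi, decide_true, Bool.true_and] at h2
  rw [← h2]
  cases i with
  | zero => rfl
  | succ i =>
    rw [Nat.testBit_succ]
    simp

theorem testBit_seven {x : ℕ} (hx : x < 256) : x.testBit 7 = decide (128 ≤ x) := by
  by_cases h : 128 ≤ x
  · obtain ⟨y, rfl⟩ := Nat.exists_eq_add_of_le h
    have h1 : (2 ^ 7 + y).testBit 7 = !y.testBit 7 := Nat.testBit_two_pow_add_eq y 7
    rw [show (128 : ℕ) = 2 ^ 7 by norm_num, h1, Nat.testBit_lt_two_pow (by omega : y < 2 ^ 7)]
    simp
  · rw [Nat.testBit_lt_two_pow (by omega : x < 2 ^ 7)]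
    simp [h]

/-- The vector of the images of all masks. -/
noncomputable def svN (sg : ℕ → ℕ) (n : ℕ) : ℕ :=
  Nat.rec 0 (fun a ih => force ih fun s => force (Nat.pow 2 a) fun p =>
    Nat.lor s (Nat.shiftLeft (Nat.lor s (Nat.shiftLeft (O p) (sg a))) (Nat.mul 8 p))) n

theorem svN_succ (sg : ℕ → ℕ) (n : ℕ) : svN sg (n + 1) =
    svN sg n ||| ((svN sg n ||| (O (2 ^ n) <<< sg n)) <<< (8 * 2 ^ n)) := by
  change force (svN sg n) (fun s => force (Nat.pow 2 n) fun p =>
    Nat.lor s (Nat.shiftLeft (Nat.lor s (Nat.shiftLeft (O p) (sg n))) (Nat.mul 8 p))) = _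
  rw [force_eq, force_eq]
  rfl

theorem svN_spec {sg : ℕ → ℕ} (n : ℕ) (hsg : ∀ a < n, sg a < 8) :
    svN sg n < 2 ^ (8 * 2 ^ n) ∧ ∀ h < 2 ^ n, ∀ i < 8,
      ((svN sg n).testBit (8 * h + i) = true ↔ ∃ a < n, h.testBit a = true ∧ sg a = i) := by
  induction n with
  | zero =>
    constructor
    · change 0 < _; positivity
    · intro h hh i hi
      change (0 : ℕ).testBit _ = true ↔ _
      simp
  | succ n ih =>
    obtain ⟨h1, h2⟩ := ih (fun a ha => hsg a (by omega))
    have hs := hsg n (by omega)
    have hO : O (2 ^ n) <<< sg n < 2 ^ (8 * 2 ^ n) := by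
      -- all bits above are zero
      apply Nat.lt_pow_two_of_testBit
      intro i hi
      rw [Nat.testBit_shiftLeft]
      by_cases hc : sg n ≤ i
      · have h3 : O (2 ^ n) < 2 ^ (i - sg n) := by
          by_cases hc2 : 8 * 2 ^ n ≤ i - sg n
          · refine lt_of_lt_of_le (O_lt _) ?_
            rw [show (256 : ℕ) = 2 ^ 8 by norm_num, ← pow_mul]
            exact Nat.pow_le_pow_right (by norm_num) hc2
          · -- the top byte of O is 1
            have h4 : O (2 ^ n) < 2 ^ (8 * 2 ^ n - 7) := by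
              have h5 : 255 * O (2 ^ n) < 2 ^ (8 * 2 ^ n) := by
                rw [O_eq, show (256 : ℕ) = 2 ^ 8 by norm_num, ← pow_mul]
                have := Nat.mul_div_le (2 ^ (8 * 2 ^ n) - 1) 255
                have h6 : 0 < 2 ^ (8 * 2 ^ n) := by positivity
                omega
              have h7 : 1 ≤ 2 ^ n := Nat.one_le_two_pow
              have h8 : 2 ^ (8 * 2 ^ n) = 2 ^ (8 * 2 ^ n - 7) * 128 := by
                rw [show (128 : ℕ) = 2 ^ 7 by norm_num, ← pow_add]
                congr 1; omega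
              rw [h8] at h5
              have h9 : 0 < 2 ^ (8 * 2 ^ n - 7) := by positivity
              omega
            exact lt_of_lt_of_le h4 (Nat.pow_le_pow_right (by norm_num) (by omega))
        rw [Nat.testBit_lt_two_pow h3]
        simp
      · simp [hc]
    constructor
    · rw [svN_succ]
      have h3 : 8 * 2 ^ (n + 1) = 8 * 2 ^ n + 8 * 2 ^ n := by rw [pow_succ]; ring
      apply Nat.or_lt_two_pow
      · exact lt_of_lt_of_le h1 (Nat.pow_le_pow_right (by norm_num) (by omega))
      · rw [Nat.shiftLeft_eq, h3, pow_add]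
        exact Nat.mul_lt_mul_of_pos_right (Nat.or_lt_two_pow h1 hO) (by positivity)
    · intro h hh i hi
      rw [svN_succ, Nat.testBit_or, Nat.testBit_shiftLeft, Bool.or_eq_true, Bool.and_eq_true,
        decide_eq_true_eq]
      by_cases hc : h < 2 ^ n
      · have h3 : ¬ (8 * 2 ^ n ≤ 8 * h + i) := by omega
        rw [h2 h hc i hi]
        constructor
        · rintro (⟨a, ha, h4, h5⟩ | ⟨h4, -⟩)
          · exact ⟨a, by omega, h4, h5⟩
          · exact absurd h4 h3
        · rintro ⟨a, ha, h4, h5⟩
          rcases Nat.lt_succ_iff_lt_or_eq.1 ha with h6 | h6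
          · exact Or.inl ⟨a, h6, h4, h5⟩
          · rw [h6, Nat.testBit_lt_two_pow hc] at h4
            exact absurd h4 (by simp)
      · obtain ⟨g, rfl⟩ := Nat.exists_eq_add_of_le (not_lt.1 hc)
        have hg : g < 2 ^ n := by rw [pow_succ] at hh; omega
        have h3 : (svN sg n).testBit (8 * (2 ^ n + g) + i) = false :=
          Nat.testBit_lt_two_pow (lt_of_lt_of_le h1 (Nat.pow_le_pow_right (by norm_num) (by omega)))
        rw [h3, show 8 * (2 ^ n + g) + i - 8 * 2 ^ n = 8 * g + i by omega, Nat.testBit_or,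
          Bool.or_eq_true, h2 g hg i hi, Nat.testBit_shiftLeft, Bool.and_eq_true,
          decide_eq_true_eq]
        have hOb : (sg n ≤ 8 * g + i ∧ (O (2 ^ n)).testBit (8 * g + i - sg n) = true) ↔
            sg n = i := by
          constructor
          · rintro ⟨h4, h5⟩
            by_contra hne
            rcases Nat.lt_or_gt_of_ne hne with h6 | h6
            · rw [show 8 * g + i - sg n = 8 * g + (i - sg n) by omega,
                O_testBit hg (by omega)] at h5
              simp at h5; omega
            · have h7 : 1 ≤ g := by omega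
              rw [show 8 * g + i - sg n = 8 * (g - 1) + (8 + i - sg n) by omega,
                O_testBit (by omega) (by omega)] at h5
              simp at h5; omega
          · rintro h4
            refine ⟨by omega, ?_⟩
            rw [show 8 * g + i - sg n = 8 * g + 0 by omega, O_testBit hg (by omega)]
            rfl
        rw [hOb]
        constructor
        · rintro (h4 | ⟨-, ⟨a, ha, h4, h5⟩ | h4⟩)
          · exact absurd h4 (by simp)
          · refine ⟨a, by omega, ?_, h5⟩
            rw [Nat.testBit_two_pow_add_gt ha]; exact h4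
          · refine ⟨n, by omega, ?_, h4⟩
            rw [Nat.testBit_two_pow_add_eq, Nat.testBit_lt_two_pow hg]; rfl
        · rintro ⟨a, ha, h4, h5⟩
          right
          refine ⟨by omega, ?_⟩
          rcases Nat.lt_succ_iff_lt_or_eq.1 ha with h6 | h6
          · left
            rw [Nat.testBit_two_pow_add_gt h6] at h4
            exact ⟨a, h6, h4, h5⟩
          · right; rw [h6] at h5; exact h5

end Pool.Agent.H59.Fib.K
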